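import Mathlib
import Pool.Agent.Helper16.UB.Mert

/-!
# Structure of the Lehmer numbers, part 1: Rankin's trick

* `rankin`: `∑ ∏_(p | t) g p ≤ exp (∑ g p)` over squarefree `t` with prime factors in `S`.
* `smooth_sparse`: there are at most `z ^ (1 - 1/(4B))` squarefree `t ≤ z` all of whose prime factors are
  `≤ (log z) ^ B`.
* `val_sparse`: for each prime `q` there are at most `z ^ (1 - κ/16)` squarefree `t ≤ z` for which the power of `q`
  in `φ(t)` is at least `z ^ κ`.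
-/

namespace Pool.Agent.Helper6.SD

open Finset Filter

/-- Rankin's trick on squarefree numbers -/
theorem rankin (U S : Finset ℕ) (g : ℕ → ℝ) (hg : ∀ p ∈ S, 0 ≤ g p)
    (hU : ∀ t ∈ U, Squarefree t ∧ t.primeFactors ⊆ S) :
    ∑ t ∈ U, ∏ p ∈ t.primeFactors, g p ≤ Real.exp (∑ p ∈ S, g p) := by
  classical
  have h1 : ∑ t ∈ U, ∏ p ∈ t.primeFactors, g p =
      ∑ A ∈ U.image Nat.primeFactors, ∏ p ∈ A, g p := by
    rw [Finset.sum_image]
    intro a ha b hb h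
    rw [← Nat.prod_primeFactors_of_squarefree (hU a ha).1,
      ← Nat.prod_primeFactors_of_squarefree (hU b hb).1, h]
  have h2 : ∑ A ∈ U.image Nat.primeFactors, ∏ p ∈ A, g p ≤ ∑ A ∈ S.powerset, ∏ p ∈ A, g p := by
    apply Finset.sum_le_sum_of_subset_of_nonneg
    · intro A hA
      obtain ⟨t, ht, rfl⟩ := Finset.mem_image.mp hA
      exact Finset.mem_powerset.mpr (hU t ht).2
    · intro A hA _
      exact Finset.prod_nonneg fun p hp => hg p (Finset.mem_powerset.mp hA hp)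
  have h3 : ∑ A ∈ S.powerset, ∏ p ∈ A, g p = ∏ p ∈ S, (1 + g p) := by
    rw [Finset.prod_one_add]
  rw [h1]
  refine h2.trans ?_
  rw [h3, Real.exp_sum]
  refine Finset.prod_le_prod (fun p hp => by have := hg p hp; linarith) fun p _ => ?_
  rw [add_comm]
  exact Real.add_one_le_exp _

/-- the harmonic sum over the reals -/
theorem sum_inv_le (M : ℕ) : ∑ m ∈ Icc 1 M, 1 / (m : ℝ) ≤ 1 + Real.log M := by
  have h := harmonic_le_one_add_log M
  rw [harmonic_eq_sum_Icc] at h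
  push_cast at h
  simpa [one_div] using h

theorem smooth_sparse (B : ℝ) (hB : 1 ≤ B) : ∃ z₀ : ℕ, ∀ z : ℕ, z₀ ≤ z → ∀ U : Finset ℕ,
    (∀ t ∈ U, Squarefree t ∧ t ≤ z ∧ ∀ p ∈ t.primeFactors, (p : ℝ) ≤ Real.log z ^ B) →
    (#U : ℝ) ≤ (z : ℝ) ^ (1 - 1 / (4 * B)) := by
  have hB0 : 0 < B := by linarith
  -- growth
  have hgrow : ∀ᶠ z : ℕ in atTop, Real.log z ^ ((1 : ℝ) / 2) * (1 + B * Real.log (Real.log z)) ≤
      1 / (4 * B) * Real.log z ∧ 1 ≤ Real.log z := by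
    have hlog : Tendsto (fun z : ℕ => Real.log z) atTop atTop :=
      Real.tendsto_log_atTop.comp tendsto_natCast_atTop_atTop
    have h1 : ∀ᶠ L : ℝ in atTop, L ^ ((1 : ℝ) / 2) * (1 + B * Real.log L) ≤ 1 / (4 * B) * L ∧ 1 ≤ L := by
      have h2 : (fun L : ℝ => 1 + B * Real.log L) =o[atTop] fun L : ℝ => L ^ ((1 : ℝ) / 2) := by
        apply Asymptotics.IsLittleO.add
        · rw [Asymptotics.isLittleO_const_left]
          right
          exact tendsto_norm_atTop_atTop.comp (tendsto_rpow_atTop (by norm_num))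
        · exact (isLittleO_log_rpow_atTop (by norm_num)).const_mul_left B
      filter_upwards [h2.bound (c := 1 / (4 * B)) (by positivity), eventually_ge_atTop (1 : ℝ)] with L h3 h4
      refine ⟨?_, h4⟩
      have h5 : (0 : ℝ) < L := by linarith
      have h6 : 0 < L ^ ((1 : ℝ) / 2) := Real.rpow_pos_of_pos h5 _
      rw [Real.norm_of_nonneg h6.le, Real.norm_of_nonneg (by
        have := Real.log_nonneg h4; positivity)] at h3
      calc L ^ ((1 : ℝ) / 2) * (1 + B * Real.log L)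
          ≤ L ^ ((1 : ℝ) / 2) * (1 / (4 * B) * L ^ ((1 : ℝ) / 2)) := mul_le_mul_of_nonneg_left h3 h6.le
        _ = 1 / (4 * B) * (L ^ ((1 : ℝ) / 2) * L ^ ((1 : ℝ) / 2)) := by ring
        _ = 1 / (4 * B) * L := by
            rw [← Real.rpow_add h5]; norm_num
    exact hlog.eventually h1
  obtain ⟨z₁, hz₁⟩ := eventually_atTop.mp hgrow
  refine ⟨max z₁ 2, fun z hz U hU => ?_⟩
  obtain ⟨hg, hL1⟩ := hz₁ z (le_trans (le_max_left _ _) hz)
  have hz2 : 2 ≤ z := le_trans (le_max_right _ _) hz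
  have hzp : (0 : ℝ) < z := by positivity
  obtain ⟨L, hL⟩ : ∃ L, L = Real.log z := ⟨_, rfl⟩
  rw [← hL] at hg hL1 hU
  have hL0 : 0 < L := by linarith
  obtain ⟨σ, hσ⟩ : ∃ σ : ℝ, σ = 1 - 1 / (2 * B) := ⟨_, rfl⟩
  have hσ0 : 0 ≤ σ := by
    rw [hσ, sub_nonneg, div_le_one (by positivity)]; linarith
  have hσ1 : 1 - σ = 1 / (2 * B) := by rw [hσ]; ring
  obtain ⟨Y, hY⟩ : ∃ Y, Y = ⌊L ^ B⌋₊ := ⟨_, rfl⟩
  have hLB1 : 1 ≤ L ^ B := Real.one_le_rpow hL1 hB0.le
  have hY1 : 1 ≤ Y := by rw [hY]; exact Nat.le_floor (by exact_mod_cast hLB1)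
  have hYp : (0 : ℝ) < Y := by exact_mod_cast hY1
  have hYle : (Y : ℝ) ≤ L ^ B := by rw [hY]; exact Nat.floor_le (by positivity)
  -- the sum
  have hsum : ∑ m ∈ Icc 1 Y, (m : ℝ) ^ (-σ) ≤ L ^ ((1 : ℝ) / 2) * (1 + B * Real.log L) := by
    have h1 : ∀ m ∈ Icc 1 Y, (m : ℝ) ^ (-σ) ≤ (Y : ℝ) ^ (1 - σ) * (1 / (m : ℝ)) := by
      intro m hm
      rw [mem_Icc] at hm
      have hm0 : (0 : ℝ) < m := by exact_mod_cast hm.1
      have h2 : (m : ℝ) ^ (-σ) = (m : ℝ) ^ (1 - σ) * (1 / (m : ℝ)) := by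
        rw [show -σ = (1 - σ) - 1 by ring, Real.rpow_sub hm0, Real.rpow_one]
        ring
      rw [h2]
      apply mul_le_mul_of_nonneg_right _ (by positivity)
      apply Real.rpow_le_rpow hm0.le (by exact_mod_cast hm.2)
      rw [hσ1]; positivity
    calc ∑ m ∈ Icc 1 Y, (m : ℝ) ^ (-σ) ≤ ∑ m ∈ Icc 1 Y, (Y : ℝ) ^ (1 - σ) * (1 / (m : ℝ)) :=
          Finset.sum_le_sum h1
      _ = (Y : ℝ) ^ (1 - σ) * ∑ m ∈ Icc 1 Y, 1 / (m : ℝ) := by rw [Finset.mul_sum]
      _ ≤ (L ^ B) ^ (1 - σ) * (1 + Real.log (L ^ B)) := by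
          apply mul_le_mul
          · apply Real.rpow_le_rpow hYp.le hYle
            rw [hσ1]; positivity
          · have := sum_inv_le Y
            have h3 := Real.log_le_log hYp hYle
            linarith
          · positivity
          · positivity
      _ = L ^ ((1 : ℝ) / 2) * (1 + B * Real.log L) := by
          rw [← Real.rpow_mul hL0.le, Real.log_rpow hL0, hσ1]
          congr 2
          field_simp
  -- Rankin
  have hR := rankin U (Icc 1 Y) (fun p => (p : ℝ) ^ (-σ)) (fun p _ => by positivity) (by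
    intro t ht
    obtain ⟨h1, h2, h3⟩ := hU t ht
    refine ⟨h1, fun p hp => ?_⟩
    rw [mem_Icc]
    refine ⟨(Nat.prime_of_mem_primeFactors hp).pos, ?_⟩
    rw [hY]
    exact Nat.le_floor (h3 p hp))
  have h4 : ∀ t ∈ U, (1 : ℝ) ≤ (z : ℝ) ^ σ * ∏ p ∈ t.primeFactors, (p : ℝ) ^ (-σ) := by
    intro t ht
    obtain ⟨h1, h2, -⟩ := hU t ht
    have ht0 : 0 < t := Nat.pos_of_ne_zero h1.ne_zero
    have ht0' : (0 : ℝ) < t := by exact_mod_cast ht0
    have h5 : ∏ p ∈ t.primeFactors, (p : ℝ) ^ (-σ) = (t : ℝ) ^ (-σ) := by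
      rw [Real.finsetProd_rpow _ _ (fun p _ => by positivity), ← Nat.cast_prod,
        Nat.prod_primeFactors_of_squarefree h1]
    rw [h5, Real.rpow_neg ht0'.le, ← div_eq_mul_inv, le_div_iff₀ (Real.rpow_pos_of_pos ht0' _), one_mul]
    exact Real.rpow_le_rpow ht0'.le (by exact_mod_cast h2) hσ0
  calc (#U : ℝ) = ∑ t ∈ U, (1 : ℝ) := by simp
    _ ≤ ∑ t ∈ U, (z : ℝ) ^ σ * ∏ p ∈ t.primeFactors, (p : ℝ) ^ (-σ) := Finset.sum_le_sum h4
    _ = (z : ℝ) ^ σ * ∑ t ∈ U, ∏ p ∈ t.primeFactors, (p : ℝ) ^ (-σ) := by rw [Finset.mul_sum]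
    _ ≤ (z : ℝ) ^ σ * Real.exp (1 / (4 * B) * L) := by
        apply mul_le_mul_of_nonneg_left _ (by positivity)
        refine hR.trans (Real.exp_le_exp.mpr (hsum.trans hg))
    _ = (z : ℝ) ^ (1 - 1 / (4 * B)) := by
        have h6 : Real.exp (1 / (4 * B) * L) = (z : ℝ) ^ (1 / (4 * B)) := by
          rw [Real.rpow_def_of_pos hzp, ← hL, mul_comm]
        rw [h6, ← Real.rpow_add hzp]
        congr 1
        rw [hσ]
        field_simp
        ring

end Pool.Agent.Helper6.SD
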