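import Mathlib
import Pool.Agent.Helper16.UB.Mert
import Pool.Agent.Helper6.SD.Rankin

/-!
# Structure of the Lehmer numbers, part 2: large powers of a prime in `φ(t)` are rare

`val_sparse`: for each prime `q` there are at most `z ^ (1 - κ/16)` squarefree `t ≤ z` for which the power of `q`
in `φ(t)` is at least `z ^ κ`.
-/

namespace Pool.Agent.Helper6.SD

open Finset Filter

/-- the power of `q` dividing `p - 1` -/
def Qp (q p : ℕ) : ℕ := q ^ (p - 1).factorization q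

theorem Qp_pos {q : ℕ} (hq : q.Prime) (p : ℕ) : 0 < Qp q p := pow_pos hq.pos _

theorem Qp_dvd (q p : ℕ) : Qp q p ∣ p - 1 := Nat.ordProj_dvd _ _

/-- the power of `q` in `φ(t)` -/
theorem pow_totient {q t : ℕ} (ht : Squarefree t) :
    q ^ t.totient.factorization q = ∏ p ∈ t.primeFactors, Qp q p := by
  have h1 : t.totient = ∏ p ∈ t.primeFactors, (p - 1) := by
    rw [Nat.totient_eq_div_primeFactors_mul, Nat.prod_primeFactors_of_squarefree ht,
      Nat.div_self (Nat.pos_of_ne_zero ht.ne_zero), one_mul]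
  unfold Qp
  rw [Finset.prod_pow_eq_pow_sum, h1, Nat.factorization_prod]
  · rw [Finset.sum_apply']
  · intro p hp
    have := (Nat.prime_of_mem_primeFactors hp).two_le
    omega

/-- sum over the `p ≤ z` with `m ∣ p - 1` -/
theorem sum_ap (z m : ℕ) (hm : 1 ≤ m) (S : Finset ℕ) (hS : ∀ p ∈ S, 2 ≤ p ∧ p ≤ z ∧ m ∣ p - 1) :
    ∑ p ∈ S, 1 / (p : ℝ) ≤ (1 + Real.log z) / m := by
  classical
  have hm0 : (0 : ℝ) < m := by exact_mod_cast hm
  have h1 : ∑ p ∈ S, 1 / (p : ℝ) ≤ ∑ p ∈ S, 1 / (m : ℝ) * (1 / (((p - 1) / m : ℕ) : ℝ)) := by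
    apply Finset.sum_le_sum
    intro p hp
    obtain ⟨h2, h3, j, hj⟩ := hS p hp
    have hj0 : 0 < j := by
      rcases Nat.eq_zero_or_pos j with h | h
      · rw [h, mul_zero] at hj; omega
      · exact h
    have hj' : (p - 1) / m = j := by rw [hj]; exact Nat.mul_div_cancel_left _ hm
    rw [hj']
    have hj0' : (0 : ℝ) < j := by exact_mod_cast hj0
    rw [one_div_mul_one_div]
    apply one_div_le_one_div_of_le (by positivity)
    have : m * j ≤ p := by omega
    exact_mod_cast this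
  refine h1.trans ?_
  rw [← Finset.mul_sum]
  have h2 : ∑ p ∈ S, 1 / (((p - 1) / m : ℕ) : ℝ) =
      ∑ j ∈ S.image (fun p => (p - 1) / m), 1 / (j : ℝ) := by
    rw [Finset.sum_image]
    intro a ha b hb h
    obtain ⟨a2, a3, a4⟩ := hS a ha
    obtain ⟨b2, b3, b4⟩ := hS b hb
    simp only at h
    have h3 : (a - 1) = (b - 1) := by
      rw [← Nat.div_mul_cancel a4, ← Nat.div_mul_cancel b4, h]
    omega
  have h3 : ∑ j ∈ S.image (fun p => (p - 1) / m), 1 / (j : ℝ) ≤ ∑ j ∈ Icc 1 z, 1 / (j : ℝ) := by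
    apply Finset.sum_le_sum_of_subset_of_nonneg
    · intro j hj
      obtain ⟨p, hp, rfl⟩ := Finset.mem_image.mp hj
      obtain ⟨p2, p3, p4⟩ := hS p hp
      rw [mem_Icc]
      constructor
      · exact Nat.div_pos (Nat.le_of_dvd (by omega) p4) hm
      · exact (Nat.div_le_self _ _).trans (by omega)
    · intro j _ _
      positivity
  have h4 := sum_inv_le z
  rw [h2, one_div, inv_mul_eq_div]
  exact div_le_div_of_nonneg_right (h3.trans h4) hm0.le

/-- the sum in Rankin's bound -/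
theorem sum_Qp {q z : ℕ} (hq : q.Prime) (hL1 : 1 ≤ Real.log z) :
    ∑ p ∈ Pool.Agent.Helper16.UB.PL z, ((Qp q p : ℕ) : ℝ) ^ ((1 : ℝ) / 8) * (1 / (p : ℝ)) ≤
      Real.log z ^ ((1 : ℝ) / 4) * (Pool.Agent.Helper16.UB.W z + 8) := by
  classical
  obtain ⟨L, hL⟩ : ∃ L, L = Real.log z := ⟨_, rfl⟩
  rw [← hL] at hL1 ⊢
  have hL0 : 0 < L := by linarith
  have hz1 : 1 ≤ z := by
    rcases Nat.eq_zero_or_pos z with h | h
    · rw [h] at hL; simp at hL; linarith
    · exact h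
  rw [← Finset.sum_filter_add_sum_filter_not (Pool.Agent.Helper16.UB.PL z)
    (fun p => ((Qp q p : ℕ) : ℝ) ≤ L ^ (2 : ℝ))]
  have hA : ∑ p ∈ (Pool.Agent.Helper16.UB.PL z).filter (fun p => ((Qp q p : ℕ) : ℝ) ≤ L ^ (2 : ℝ)),
      ((Qp q p : ℕ) : ℝ) ^ ((1 : ℝ) / 8) * (1 / (p : ℝ)) ≤
      L ^ ((1 : ℝ) / 4) * Pool.Agent.Helper16.UB.W z := by
    calc _ ≤ ∑ p ∈ (Pool.Agent.Helper16.UB.PL z).filter
          (fun p => ((Qp q p : ℕ) : ℝ) ≤ L ^ (2 : ℝ)), L ^ ((1 : ℝ) / 4) * (1 / (p : ℝ)) := by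
          apply Finset.sum_le_sum
          intro p hp
          rw [mem_filter] at hp
          apply mul_le_mul_of_nonneg_right _ (by positivity)
          calc ((Qp q p : ℕ) : ℝ) ^ ((1 : ℝ) / 8) ≤ (L ^ (2 : ℝ)) ^ ((1 : ℝ) / 8) :=
                Real.rpow_le_rpow (by positivity) hp.2 (by norm_num)
            _ = L ^ ((1 : ℝ) / 4) := by rw [← Real.rpow_mul hL0.le]; norm_num
      _ ≤ ∑ p ∈ Pool.Agent.Helper16.UB.PL z, L ^ ((1 : ℝ) / 4) * (1 / (p : ℝ)) := by
          apply Finset.sum_le_sum_of_subset_of_nonneg (Finset.filter_subset _ _)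
          intro p _ _
          positivity
      _ = _ := by rw [← Finset.mul_sum]; rfl
  have hB : ∑ p ∈ (Pool.Agent.Helper16.UB.PL z).filter (fun p => ¬ ((Qp q p : ℕ) : ℝ) ≤ L ^ (2 : ℝ)),
      ((Qp q p : ℕ) : ℝ) ^ ((1 : ℝ) / 8) * (1 / (p : ℝ)) ≤ L ^ ((1 : ℝ) / 4) * 8 := by
    set F := (Pool.Agent.Helper16.UB.PL z).filter (fun p => ¬ ((Qp q p : ℕ) : ℝ) ≤ L ^ (2 : ℝ)) with hF
    have hmaps : ∀ p ∈ F, (p - 1).factorization q ∈ range (Nat.log 2 z + 1) := by
      intro p hp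
      rw [hF, mem_filter, Pool.Agent.Helper16.UB.mem_PL] at hp
      rw [mem_range, Nat.lt_succ_iff]
      apply Nat.le_log_of_pow_le (by norm_num)
      have h1 : Qp q p ≤ p - 1 := Nat.le_of_dvd (by have := hp.1.2.two_le; omega) (Qp_dvd q p)
      calc 2 ^ (p - 1).factorization q ≤ q ^ (p - 1).factorization q :=
            Nat.pow_le_pow_left hq.two_le _
        _ ≤ z := by unfold Qp at h1; omega
    rw [← Finset.sum_fiberwise_of_maps_to hmaps]
    have hterm : ∀ v ∈ range (Nat.log 2 z + 1),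
        ∑ p ∈ F.filter (fun p => (p - 1).factorization q = v),
          ((Qp q p : ℕ) : ℝ) ^ ((1 : ℝ) / 8) * (1 / (p : ℝ)) ≤ L ^ (-(7 : ℝ) / 4) * (1 + L) := by
      intro v _
      by_cases hv : ((q ^ v : ℕ) : ℝ) ≤ L ^ (2 : ℝ)
      · have : F.filter (fun p => (p - 1).factorization q = v) = ∅ := by
          apply Finset.filter_eq_empty_iff.mpr
          intro p hp hpv
          rw [hF, mem_filter] at hp
          apply hp.2
          unfold Qp
          rw [hpv]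
          exact hv
        rw [this, Finset.sum_empty]
        positivity
      · rw [not_le] at hv
        have hv0 : (0 : ℝ) < ((q ^ v : ℕ) : ℝ) := by exact_mod_cast pow_pos hq.pos v
        have h1 : ∑ p ∈ F.filter (fun p => (p - 1).factorization q = v),
            ((Qp q p : ℕ) : ℝ) ^ ((1 : ℝ) / 8) * (1 / (p : ℝ)) =
            ((q ^ v : ℕ) : ℝ) ^ ((1 : ℝ) / 8) *
              ∑ p ∈ F.filter (fun p => (p - 1).factorization q = v), 1 / (p : ℝ) := by
          rw [Finset.mul_sum]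
          apply Finset.sum_congr rfl
          intro p hp
          rw [mem_filter] at hp
          unfold Qp
          rw [hp.2]
        have h2 := sum_ap z (q ^ v) (Nat.one_le_pow _ _ hq.pos)
          (F.filter (fun p => (p - 1).factorization q = v)) (by
          intro p hp
          rw [mem_filter, hF, mem_filter, Pool.Agent.Helper16.UB.mem_PL] at hp
          refine ⟨hp.1.1.2.two_le, hp.1.1.1, ?_⟩
          rw [← hp.2]
          exact Nat.ordProj_dvd _ _)
        rw [h1]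
        rw [← hL] at h2
        calc ((q ^ v : ℕ) : ℝ) ^ ((1 : ℝ) / 8) *
              ∑ p ∈ F.filter (fun p => (p - 1).factorization q = v), 1 / (p : ℝ)
            ≤ ((q ^ v : ℕ) : ℝ) ^ ((1 : ℝ) / 8) * ((1 + L) / ((q ^ v : ℕ) : ℝ)) :=
              mul_le_mul_of_nonneg_left h2 (by positivity)
          _ = ((q ^ v : ℕ) : ℝ) ^ (-(7 : ℝ) / 8) * (1 + L) := by
              rw [show (-(7 : ℝ) / 8) = 1 / 8 - 1 by norm_num, Real.rpow_sub hv0, Real.rpow_one]
              ring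
          _ ≤ L ^ (-(7 : ℝ) / 4) * (1 + L) := by
              apply mul_le_mul_of_nonneg_right _ (by linarith)
              calc ((q ^ v : ℕ) : ℝ) ^ (-(7 : ℝ) / 8) ≤ (L ^ (2 : ℝ)) ^ (-(7 : ℝ) / 8) :=
                    Real.rpow_le_rpow_of_nonpos (by positivity) hv.le (by norm_num)
                _ = L ^ (-(7 : ℝ) / 4) := by rw [← Real.rpow_mul hL0.le]; norm_num
    refine (Finset.sum_le_sum hterm).trans ?_
    rw [Finset.sum_const, card_range, nsmul_eq_mul]
    have hlog : ((Nat.log 2 z + 1 : ℕ) : ℝ) ≤ 3 * L := by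
      have h1 : ((Nat.log 2 z : ℕ) : ℝ) * Real.log 2 ≤ L := by
        rw [hL, ← Real.log_pow]
        apply Real.log_le_log (by positivity)
        exact_mod_cast Nat.pow_log_le_self 2 (by omega)
      have h2 : (0.5 : ℝ) < Real.log 2 := by have := Real.log_two_gt_d9; linarith
      have h3 : ((Nat.log 2 z : ℕ) : ℝ) ≤ 2 * L := by nlinarith [Nat.cast_nonneg (α := ℝ) (Nat.log 2 z)]
      push_cast
      linarith
    calc ((Nat.log 2 z + 1 : ℕ) : ℝ) * (L ^ (-(7 : ℝ) / 4) * (1 + L))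
        ≤ (3 * L) * (L ^ (-(7 : ℝ) / 4) * (2 * L)) := by
          apply mul_le_mul hlog _ (by positivity) (by positivity)
          apply mul_le_mul_of_nonneg_left (by linarith) (by positivity)
      _ = 6 * L ^ ((1 : ℝ) / 4) := by
          have : L ^ ((1 : ℝ) / 4) = L ^ (-(7 : ℝ) / 4) * L * L := by
            rw [show ((1 : ℝ) / 4) = (-(7 : ℝ) / 4) + 1 + 1 by norm_num, Real.rpow_add hL0,
              Real.rpow_add hL0, Real.rpow_one]
          rw [this]; ring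
      _ ≤ L ^ ((1 : ℝ) / 4) * 8 := by
          have : 0 < L ^ ((1 : ℝ) / 4) := by positivity
          linarith
  calc _ ≤ L ^ ((1 : ℝ) / 4) * Pool.Agent.Helper16.UB.W z + L ^ ((1 : ℝ) / 4) * 8 := add_le_add hA hB
    _ = _ := by ring

theorem val_sparse (κ : ℝ) (hκ : 0 < κ) : ∃ z₀ : ℕ, ∀ z : ℕ, z₀ ≤ z → ∀ q : ℕ, q.Prime →
    ∀ U : Finset ℕ, (∀ t ∈ U, Squarefree t ∧ t ≤ z ∧
      (z : ℝ) ^ κ ≤ ((q ^ t.totient.factorization q : ℕ) : ℝ)) →
    (#U : ℝ) ≤ (z : ℝ) ^ (1 - κ / 16) := by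
  obtain ⟨C, hC⟩ := Pool.Agent.Helper16.UB.exists_W_le
  have hgrow : ∀ᶠ z : ℕ in atTop, Real.log z ^ ((1 : ℝ) / 4) * (Real.log (Real.log z) + C + 8) ≤
      κ / 16 * Real.log z ∧ 1 ≤ Real.log z := by
    have hlog : Tendsto (fun z : ℕ => Real.log z) atTop atTop :=
      Real.tendsto_log_atTop.comp tendsto_natCast_atTop_atTop
    have h1 : ∀ᶠ L : ℝ in atTop, L ^ ((1 : ℝ) / 4) * (Real.log L + C + 8) ≤ κ / 16 * L ∧ 1 ≤ L := by
      have h2 : (fun L : ℝ => Real.log L + (C + 8)) =o[atTop] fun L : ℝ => L ^ ((3 : ℝ) / 4) := by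
        apply Asymptotics.IsLittleO.add
        · exact isLittleO_log_rpow_atTop (by norm_num)
        · rw [Asymptotics.isLittleO_const_left]
          right
          exact tendsto_norm_atTop_atTop.comp (tendsto_rpow_atTop (by norm_num))
      filter_upwards [h2.bound (c := κ / 16) (by positivity), eventually_ge_atTop (1 : ℝ)] with L h3 h4
      refine ⟨?_, h4⟩
      have h5 : (0 : ℝ) < L := by linarith
      have h6 : 0 < L ^ ((3 : ℝ) / 4) := Real.rpow_pos_of_pos h5 _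
      have h8 := (Real.le_norm_self _).trans h3
      rw [Real.norm_of_nonneg h6.le] at h8
      calc L ^ ((1 : ℝ) / 4) * (Real.log L + C + 8)
          ≤ L ^ ((1 : ℝ) / 4) * (κ / 16 * L ^ ((3 : ℝ) / 4)) :=
            mul_le_mul_of_nonneg_left (by linarith) (by positivity)
        _ = κ / 16 * (L ^ ((1 : ℝ) / 4) * L ^ ((3 : ℝ) / 4)) := by ring
        _ = κ / 16 * L := by
            rw [← Real.rpow_add h5]; norm_num
    exact hlog.eventually h1
  obtain ⟨z₁, hz₁⟩ := eventually_atTop.mp hgrow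
  refine ⟨max z₁ 2, fun z hz q hq U hU => ?_⟩
  obtain ⟨hg, hL1⟩ := hz₁ z (le_trans (le_max_left _ _) hz)
  have hz2 : 2 ≤ z := le_trans (le_max_right _ _) hz
  have hzp : (0 : ℝ) < z := by positivity
  have hS := sum_Qp (z := z) hq hL1
  have hW := hC z hz2
  have hS2 : ∑ p ∈ Pool.Agent.Helper16.UB.PL z, ((Qp q p : ℕ) : ℝ) ^ ((1 : ℝ) / 8) * (1 / (p : ℝ)) ≤
      κ / 16 * Real.log z := by
    refine hS.trans (le_trans ?_ hg)
    apply mul_le_mul_of_nonneg_left _ (by positivity)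
    linarith
  have hR := rankin U (Pool.Agent.Helper16.UB.PL z)
    (fun p => ((Qp q p : ℕ) : ℝ) ^ ((1 : ℝ) / 8) * (1 / (p : ℝ))) (fun p _ => by positivity) (by
    intro t ht
    obtain ⟨h1, h2, h3⟩ := hU t ht
    refine ⟨h1, fun p hp => ?_⟩
    rw [Pool.Agent.Helper16.UB.mem_PL]
    exact ⟨(Nat.le_of_mem_primeFactors hp).trans h2, Nat.prime_of_mem_primeFactors hp⟩)
  have h4 : ∀ t ∈ U, (1 : ℝ) ≤ (z : ℝ) ^ (1 - κ / 8) *
      ∏ p ∈ t.primeFactors, (((Qp q p : ℕ) : ℝ) ^ ((1 : ℝ) / 8) * (1 / (p : ℝ))) := by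
    intro t ht
    obtain ⟨h1, h2, h3⟩ := hU t ht
    have ht0 : 0 < t := Nat.pos_of_ne_zero h1.ne_zero
    have ht0' : (0 : ℝ) < t := by exact_mod_cast ht0
    have h5 : ∏ p ∈ t.primeFactors, (((Qp q p : ℕ) : ℝ) ^ ((1 : ℝ) / 8) * (1 / (p : ℝ))) =
        ((q ^ t.totient.factorization q : ℕ) : ℝ) ^ ((1 : ℝ) / 8) * (1 / (t : ℝ)) := by
      rw [Finset.prod_mul_distrib, Real.finsetProd_rpow _ _ (fun p _ => by positivity),
        ← Nat.cast_prod, ← pow_totient h1]
      congr 1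
      simp only [one_div]
      rw [Finset.prod_inv_distrib, ← Nat.cast_prod, Nat.prod_primeFactors_of_squarefree h1]
    rw [h5]
    have h6 : (z : ℝ) ^ (κ / 8) ≤ ((q ^ t.totient.factorization q : ℕ) : ℝ) ^ ((1 : ℝ) / 8) := by
      calc (z : ℝ) ^ (κ / 8) = ((z : ℝ) ^ κ) ^ ((1 : ℝ) / 8) := by
            rw [← Real.rpow_mul hzp.le]; congr 1; ring
        _ ≤ _ := Real.rpow_le_rpow (by positivity) h3 (by norm_num)
    have h7 : (1 : ℝ) / z ≤ 1 / t := by
      apply one_div_le_one_div_of_le ht0'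
      exact_mod_cast h2
    calc (1 : ℝ) = (z : ℝ) ^ (1 - κ / 8) * ((z : ℝ) ^ (κ / 8) * (1 / (z : ℝ))) := by
          rw [← mul_assoc, ← Real.rpow_add hzp]
          rw [show 1 - κ / 8 + κ / 8 = 1 by ring, Real.rpow_one]
          field_simp
      _ ≤ _ := by
          apply mul_le_mul_of_nonneg_left _ (by positivity)
          exact mul_le_mul h6 h7 (by positivity) (by positivity)
  calc (#U : ℝ) = ∑ t ∈ U, (1 : ℝ) := by simp
    _ ≤ ∑ t ∈ U, (z : ℝ) ^ (1 - κ / 8) *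
      ∏ p ∈ t.primeFactors, (((Qp q p : ℕ) : ℝ) ^ ((1 : ℝ) / 8) * (1 / (p : ℝ))) := Finset.sum_le_sum h4
    _ = (z : ℝ) ^ (1 - κ / 8) * ∑ t ∈ U,
      ∏ p ∈ t.primeFactors, (((Qp q p : ℕ) : ℝ) ^ ((1 : ℝ) / 8) * (1 / (p : ℝ))) := by rw [Finset.mul_sum]
    _ ≤ (z : ℝ) ^ (1 - κ / 8) * Real.exp (κ / 16 * Real.log z) := by
        apply mul_le_mul_of_nonneg_left _ (by positivity)
        exact hR.trans (Real.exp_le_exp.mpr hS2)
    _ = (z : ℝ) ^ (1 - κ / 16) := by
        have h6 : Real.exp (κ / 16 * Real.log z) = (z : ℝ) ^ (κ / 16) := by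
          rw [Real.rpow_def_of_pos hzp, mul_comm]
        rw [h6, ← Real.rpow_add hzp]
        congr 1
        ring

end Pool.Agent.Helper6.SD
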