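import Mathlib
import Pool.Agent.Helper6.LehmerCount.Dense
import Pool.Agent.Helper6.SD.Val

/-!
# Structure of the Lehmer numbers, part 3: counting by divisors near `√x`
-/

namespace Pool.Agent.Helper6.SD

open Finset Filter Pool.Agent.Helper6.Lehmer Pool.Agent.Helper6.LehmerCount

/-- a product of distinct integers `p ≥ 2` is at most (their number plus one) times the product of the
`p - 1` -/
theorem prod_le (S : Finset ℕ) (hS : ∀ p ∈ S, 2 ≤ p) :
    ∏ p ∈ S, p ≤ (S.card + 1) * ∏ p ∈ S, (p - 1) := by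
  induction S using Finset.induction_on_max with
  | empty => simp
  | insert m T hm ih =>
    have hmT : m ∉ T := fun h => lt_irrefl _ (hm m h)
    rw [Finset.prod_insert hmT, Finset.prod_insert hmT, Finset.card_insert_of_notMem hmT]
    have h1 := ih fun p hp => hS p (Finset.mem_insert_of_mem hp)
    have h2 : 2 ≤ m := hS m (Finset.mem_insert_self _ _)
    have h3 : T.card ≤ m - 2 := by
      have h4 : T ⊆ Finset.Ico 2 m := fun p hp =>
        Finset.mem_Ico.mpr ⟨hS p (Finset.mem_insert_of_mem hp), hm p hp⟩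
      have h5 := Finset.card_le_card h4
      rwa [Nat.card_Ico] at h5
    obtain ⟨t, rfl⟩ : ∃ t, m = T.card + 2 + t := ⟨m - (T.card + 2), by omega⟩
    have h6 : T.card + 2 + t - 1 = T.card + 1 + t := by omega
    rw [h6]
    calc (T.card + 2 + t) * ∏ p ∈ T, p
        ≤ (T.card + 2 + t) * ((T.card + 1) * ∏ p ∈ T, (p - 1)) := Nat.mul_le_mul_left _ h1
      _ = ((T.card + 2 + t) * (T.card + 1)) * ∏ p ∈ T, (p - 1) := by ring
      _ ≤ ((T.card + 1 + 1) * (T.card + 1 + t)) * ∏ p ∈ T, (p - 1) := by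
          apply Nat.mul_le_mul_right
          nlinarith
      _ = _ := by ring

theorem card_primeFactors_le {t : ℕ} (ht : t ≠ 0) : t.primeFactors.card ≤ Nat.log 2 t := by
  apply Nat.le_log_of_pow_le (by norm_num)
  calc 2 ^ t.primeFactors.card ≤ ∏ p ∈ t.primeFactors, p :=
        Finset.pow_card_le_prod _ _ _ fun p hp => (Nat.prime_of_mem_primeFactors hp).two_le
    _ ≤ t := Nat.le_of_dvd (Nat.pos_of_ne_zero ht) (Nat.prod_primeFactors_dvd t)

theorem le_mul_totient {t : ℕ} (ht : Squarefree t) : t ≤ (Nat.log 2 t + 1) * t.totient := by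
  have h1 : t.totient = ∏ p ∈ t.primeFactors, (p - 1) := by
    rw [Nat.totient_eq_div_primeFactors_mul, Nat.prod_primeFactors_of_squarefree ht,
      Nat.div_self (Nat.pos_of_ne_zero ht.ne_zero), one_mul]
  have h2 := prod_le t.primeFactors fun p hp => (Nat.prime_of_mem_primeFactors hp).two_le
  rw [← h1, Nat.prod_primeFactors_of_squarefree ht] at h2
  exact h2.trans (Nat.mul_le_mul_right _ (Nat.succ_le_succ (card_primeFactors_le ht.ne_zero)))

/-- the binary logarithm is small -/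
theorem log_small (η : ℝ) (hη : 0 < η) : ∃ x₀ : ℕ, ∀ x : ℕ, x₀ ≤ x →
    ((Nat.log 2 x : ℕ) : ℝ) + 1 ≤ 1 / 4 * (x : ℝ) ^ η ∧ 1 ≤ x := by
  have h1 : (fun y : ℝ => 2 * Real.log y + 1) =o[atTop] fun y : ℝ => y ^ η := by
    apply Asymptotics.IsLittleO.add
    · exact (isLittleO_log_rpow_atTop hη).const_mul_left 2
    · rw [Asymptotics.isLittleO_const_left]
      right
      exact tendsto_norm_atTop_atTop.comp (tendsto_rpow_atTop hη)
  have h2 := (tendsto_natCast_atTop_atTop (R := ℝ)).eventually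
    ((h1.bound (c := 1 / 4) (by norm_num)).and (eventually_ge_atTop 1))
  obtain ⟨N, hN⟩ := eventually_atTop.mp h2
  refine ⟨N, fun x hx => ?_⟩
  obtain ⟨h3, h4⟩ := hN x hx
  have hx1 : 1 ≤ x := by exact_mod_cast h4
  refine ⟨?_, hx1⟩
  have h5 : (0 : ℝ) < (x : ℝ) ^ η := Real.rpow_pos_of_pos (by linarith) _
  have h6 := (Real.le_norm_self _).trans h3
  rw [Real.norm_of_nonneg h5.le] at h6
  have h7 : ((Nat.log 2 x : ℕ) : ℝ) * Real.log 2 ≤ Real.log x := by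
    rw [← Real.log_pow]
    apply Real.log_le_log (by positivity)
    exact_mod_cast Nat.pow_log_le_self 2 (by omega)
  have h8 : (0.5 : ℝ) < Real.log 2 := by have := Real.log_two_gt_d9; linarith
  have h9 : ((Nat.log 2 x : ℕ) : ℝ) ≤ 2 * Real.log x := by
    nlinarith [Nat.cast_nonneg (α := ℝ) (Nat.log 2 x)]
  linarith

/-- number of Lehmer numbers with a given divisor -/
theorem card_per (η : ℝ) (hη : 0 < η) : ∃ x₀ : ℕ, ∀ x : ℕ, x₀ ≤ x → ∀ (t : ℕ) (S : Finset ℕ),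
    (x : ℝ) ^ ((1 : ℝ) / 2 - 2 * η) ≤ t → (∀ n ∈ S, IsLehmer n ∧ n ≤ x ∧ t ∣ n) →
    (#S : ℝ) ≤ (x : ℝ) ^ (5 * η) := by
  obtain ⟨x₀, hx₀⟩ := log_small η hη
  refine ⟨x₀, fun x hx t S ht hS => ?_⟩
  obtain ⟨hlog, hx1⟩ := hx₀ x hx
  have hxr : (1 : ℝ) ≤ x := by exact_mod_cast hx1
  have hxp : (0 : ℝ) < x := by linarith
  rcases S.eq_empty_or_nonempty with hSe | ⟨n, hn⟩
  · rw [hSe, Finset.card_empty, Nat.cast_zero]
    positivity
  obtain ⟨hnL, hnx, htn⟩ := hS n hn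
  have hn0 : 0 < n := by have := hnL.one_lt; omega
  have htsq : Squarefree t := hnL.squarefree.squarefree_of_dvd htn
  have ht0 : 0 < t := Nat.pos_of_ne_zero htsq.ne_zero
  have htx : t ≤ x := (Nat.le_of_dvd hn0 htn).trans hnx
  have h1 : #S ≤ x / (t * t.totient) + 1 := by
    apply card_le_of_modEq (fun n hn => (hS n hn).2.1)
    intro n hn n' hn'
    obtain ⟨a1, a2, a3⟩ := hS n hn
    obtain ⟨b1, b2, b3⟩ := hS n' hn'
    exact modEq_of_dvd a1 b1 a3 b3 (Nat.totient_dvd_of_dvd a3) (Nat.totient_dvd_of_dvd b3)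
  have htp : (0 : ℝ) < t := by exact_mod_cast ht0
  have hphi : (0 : ℝ) < (t.totient : ℝ) := by exact_mod_cast Nat.totient_pos.mpr ht0
  have h2 : (t : ℝ) ≤ (((Nat.log 2 x : ℕ) : ℝ) + 1) * t.totient := by
    have h3 := le_mul_totient htsq
    have h4 : (Nat.log 2 t + 1) * t.totient ≤ (Nat.log 2 x + 1) * t.totient :=
      Nat.mul_le_mul_right _ (Nat.succ_le_succ (Nat.log_mono_right htx))
    exact_mod_cast h3.trans h4
  have h5 : ((x / (t * t.totient) : ℕ) : ℝ) ≤ (((Nat.log 2 x : ℕ) : ℝ) + 1) * (x : ℝ) ^ (4 * η) := by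
    calc ((x / (t * t.totient) : ℕ) : ℝ) ≤ (x : ℝ) / ((t * t.totient : ℕ) : ℝ) := Nat.cast_div_le
      _ = (x : ℝ) / (t * t.totient) := by push_cast; rfl
      _ ≤ (((Nat.log 2 x : ℕ) : ℝ) + 1) * (x : ℝ) ^ (4 * η) := by
          rw [div_le_iff₀ (by positivity)]
          have h6 : (x : ℝ) ≤ (x : ℝ) ^ (4 * η) * ((t : ℝ) * t) := by
            calc (x : ℝ) = (x : ℝ) ^ (4 * η) *
                  ((x : ℝ) ^ ((1 : ℝ) / 2 - 2 * η) * (x : ℝ) ^ ((1 : ℝ) / 2 - 2 * η)) := by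
                  rw [← Real.rpow_add hxp, ← Real.rpow_add hxp]
                  rw [show 4 * η + ((1 : ℝ) / 2 - 2 * η + ((1 : ℝ) / 2 - 2 * η)) = 1 by ring, Real.rpow_one]
              _ ≤ _ := by
                  apply mul_le_mul_of_nonneg_left _ (by positivity)
                  exact mul_le_mul ht ht (by positivity) (by positivity)
          calc (x : ℝ) ≤ (x : ℝ) ^ (4 * η) * ((t : ℝ) * t) := h6
            _ ≤ (x : ℝ) ^ (4 * η) * ((t : ℝ) * ((((Nat.log 2 x : ℕ) : ℝ) + 1) * t.totient)) := by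
                apply mul_le_mul_of_nonneg_left _ (by positivity)
                exact mul_le_mul_of_nonneg_left h2 htp.le
            _ = _ := by ring
  have h7 : (#S : ℝ) ≤ ((x / (t * t.totient) : ℕ) : ℝ) + 1 := by exact_mod_cast h1
  have hx4 : (1 : ℝ) ≤ (x : ℝ) ^ (4 * η) := Real.one_le_rpow hxr (by positivity)
  have hxη : (4 : ℝ) ≤ (x : ℝ) ^ η := by
    have : (0 : ℝ) ≤ ((Nat.log 2 x : ℕ) : ℝ) := Nat.cast_nonneg _
    linarith
  calc (#S : ℝ) ≤ (((Nat.log 2 x : ℕ) : ℝ) + 1) * (x : ℝ) ^ (4 * η) + 1 := h7.trans (by linarith)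
    _ ≤ 1 / 4 * (x : ℝ) ^ η * (x : ℝ) ^ (4 * η) + 1 / 4 * (x : ℝ) ^ η * (x : ℝ) ^ (4 * η) := by
        have h8 : (1 : ℝ) ≤ 1 / 4 * (x : ℝ) ^ η * (x : ℝ) ^ (4 * η) := by nlinarith
        have h9 := mul_le_mul_of_nonneg_right hlog (by positivity : (0 : ℝ) ≤ (x : ℝ) ^ (4 * η))
        linarith
    _ ≤ (x : ℝ) ^ η * (x : ℝ) ^ (4 * η) := by
        have : 0 < (x : ℝ) ^ η * (x : ℝ) ^ (4 * η) := by positivity
        linarith
    _ = (x : ℝ) ^ (5 * η) := by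
        rw [← Real.rpow_add hxp]; congr 1; ring

/-- counting Lehmer numbers by a set of divisors -/
theorem count_main (η : ℝ) (hη : 0 < η) : ∃ x₀ : ℕ, ∀ x : ℕ, x₀ ≤ x → ∀ S V : Finset ℕ,
    (∀ n ∈ S, IsLehmer n ∧ n ≤ x ∧ ∃ t ∈ V, t ∣ n ∧ (x : ℝ) ^ ((1 : ℝ) / 2 - 2 * η) ≤ t) →
    (#S : ℝ) ≤ #V * (x : ℝ) ^ (5 * η) := by
  classical
  obtain ⟨x₀, hx₀⟩ := card_per η hη
  refine ⟨x₀, fun x hx S V hS => ?_⟩
  have h1 : S ⊆ V.biUnion fun t => S.filter fun n => t ∣ n ∧ (x : ℝ) ^ ((1 : ℝ) / 2 - 2 * η) ≤ t := by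
    intro n hn
    obtain ⟨-, -, t, ht, htn, htx⟩ := hS n hn
    rw [mem_biUnion]
    exact ⟨t, ht, mem_filter.mpr ⟨hn, htn, htx⟩⟩
  have h2 := (Finset.card_le_card h1).trans Finset.card_biUnion_le
  calc (#S : ℝ) ≤ ∑ t ∈ V, (#(S.filter fun n => t ∣ n ∧ (x : ℝ) ^ ((1 : ℝ) / 2 - 2 * η) ≤ t) : ℝ) := by
        exact_mod_cast h2
    _ ≤ ∑ t ∈ V, (x : ℝ) ^ (5 * η) := by
        apply Finset.sum_le_sum
        intro t _
        by_cases ht : (x : ℝ) ^ ((1 : ℝ) / 2 - 2 * η) ≤ t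
        · apply hx₀ x hx t _ ht
          intro n hn
          rw [mem_filter] at hn
          obtain ⟨a, b, -⟩ := hS n hn.1
          exact ⟨a, b, hn.2.1⟩
        · have : (S.filter fun n => t ∣ n ∧ (x : ℝ) ^ ((1 : ℝ) / 2 - 2 * η) ≤ t) = ∅ := by
            apply Finset.filter_eq_empty_iff.mpr
            intro n _ h
            exact ht h.2
          rw [this, Finset.card_empty, Nat.cast_zero]
          positivity
    _ = #V * (x : ℝ) ^ (5 * η) := by rw [Finset.sum_const, nsmul_eq_mul]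

/-- the multiples of a set -/
theorem card_multiples (U V : Finset ℕ) (D : ℝ) (hD : 0 ≤ D) (hU : ∀ t ∈ U, 1 ≤ t)
    (hV : ∀ d ∈ V, 1 ≤ d ∧ (d : ℝ) ≤ D ∧ ∃ t ∈ U, t ∣ d) :
    (#V : ℝ) ≤ D * ∑ t ∈ U, 1 / (t : ℝ) := by
  classical
  have h1 : V ⊆ U.biUnion fun t => (Icc 1 ⌊D / t⌋₊).image fun j => t * j := by
    intro d hd
    obtain ⟨d1, d2, t, ht, j, rfl⟩ := hV d hd
    rw [mem_biUnion]
    refine ⟨t, ht, mem_image.mpr ⟨j, ?_, rfl⟩⟩
    have ht0 : (0 : ℝ) < t := by exact_mod_cast hU t ht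
    rw [mem_Icc]
    constructor
    · rcases Nat.eq_zero_or_pos j with h | h
      · rw [h, mul_zero] at d1; omega
      · exact h
    · apply Nat.le_floor
      rw [le_div_iff₀ ht0, mul_comm]
      exact_mod_cast d2
  have h2 := (Finset.card_le_card h1).trans Finset.card_biUnion_le
  calc (#V : ℝ) ≤ ∑ t ∈ U, (#((Icc 1 ⌊D / t⌋₊).image fun j => t * j) : ℝ) := by exact_mod_cast h2
    _ ≤ ∑ t ∈ U, D * (1 / (t : ℝ)) := by
        apply Finset.sum_le_sum
        intro t ht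
        have ht0 : (0 : ℝ) < t := by exact_mod_cast hU t ht
        calc (#((Icc 1 ⌊D / t⌋₊).image fun j => t * j) : ℝ) ≤ (#(Icc 1 ⌊D / (t : ℝ)⌋₊) : ℝ) := by
              exact_mod_cast Finset.card_image_le
          _ = (⌊D / (t : ℝ)⌋₊ : ℝ) := by rw [Nat.card_Icc, Nat.add_sub_cancel]
          _ ≤ D / t := Nat.floor_le (by positivity)
          _ = D * (1 / (t : ℝ)) := by ring
    _ = D * ∑ t ∈ U, 1 / (t : ℝ) := by rw [Finset.mul_sum]

/-- the sum of the reciprocals over a sparse set -/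
theorem sum_sparse {T : Set ℕ} {z₀ : ℕ} {c : ℝ} (hc : 0 < c)
    (hT : ∀ z : ℕ, z₀ ≤ z → ∀ U : Finset ℕ, (∀ t ∈ U, t ∈ T ∧ 1 ≤ t ∧ t ≤ z) →
      (#U : ℝ) ≤ (z : ℝ) ^ (1 - c))
    {T₀ : ℝ} (hT₀ : (z₀ : ℝ) ≤ T₀) (hT₁ : 1 ≤ T₀) {x : ℕ} (U : Finset ℕ)
    (hU : ∀ t ∈ U, t ∈ T ∧ T₀ ≤ t ∧ t ≤ x) :
    ∑ t ∈ U, 1 / (t : ℝ) ≤ (((Nat.log 2 x : ℕ) : ℝ) + 1) * (2 * T₀ ^ (-c)) := by
  classical
  have hpos : ∀ t ∈ U, 1 ≤ t := by
    intro t ht
    have := (hU t ht).2.1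
    exact_mod_cast hT₁.trans this
  have hmaps : ∀ t ∈ U, Nat.log 2 t ∈ range (Nat.log 2 x + 1) := by
    intro t ht
    rw [mem_range, Nat.lt_succ_iff]
    exact Nat.log_mono_right (hU t ht).2.2
  rw [← Finset.sum_fiberwise_of_maps_to hmaps]
  have hterm : ∀ j ∈ range (Nat.log 2 x + 1),
      ∑ t ∈ U.filter (fun t => Nat.log 2 t = j), 1 / (t : ℝ) ≤ 2 * T₀ ^ (-c) := by
    intro j _
    rcases (U.filter (fun t => Nat.log 2 t = j)).eq_empty_or_nonempty with he | ⟨t₁, ht₁⟩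
    · rw [he, Finset.sum_empty]
      positivity
    rw [mem_filter] at ht₁
    have hlt : ∀ t : ℕ, Nat.log 2 t = j → t < 2 ^ (j + 1) := fun t h => by
      rw [← h]; exact Nat.lt_pow_succ_log_self (by norm_num) t
    have hTj : T₀ ≤ ((2 ^ (j + 1) : ℕ) : ℝ) :=
      (hU t₁ ht₁.1).2.1.trans (by exact_mod_cast (hlt t₁ ht₁.2).le)
    have hz : z₀ ≤ 2 ^ (j + 1) := by exact_mod_cast hT₀.trans hTj
    have hcard := hT (2 ^ (j + 1)) hz (U.filter (fun t => Nat.log 2 t = j)) (by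
      intro t ht
      rw [mem_filter] at ht
      exact ⟨(hU t ht.1).1, hpos t ht.1, (hlt t ht.2).le⟩)
    have h2p : (0 : ℝ) < ((2 ^ (j + 1) : ℕ) : ℝ) := by positivity
    calc ∑ t ∈ U.filter (fun t => Nat.log 2 t = j), 1 / (t : ℝ)
        ≤ ∑ t ∈ U.filter (fun t => Nat.log 2 t = j), 2 / ((2 ^ (j + 1) : ℕ) : ℝ) := by
          apply Finset.sum_le_sum
          intro t ht
          rw [mem_filter] at ht
          have ht0 : t ≠ 0 := by have := hpos t ht.1; omega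
          have h3 : 2 ^ j ≤ t := by rw [← ht.2]; exact Nat.pow_log_le_self 2 ht0
          have ht0' : (0 : ℝ) < t := by exact_mod_cast hpos t ht.1
          rw [div_le_div_iff₀ ht0' h2p]
          have h4 : 2 ^ (j + 1) ≤ 2 * t := by rw [pow_succ]; omega
          have h5 : ((2 ^ (j + 1) : ℕ) : ℝ) ≤ 2 * t := by exact_mod_cast h4
          linarith
      _ = #(U.filter (fun t => Nat.log 2 t = j)) * (2 / ((2 ^ (j + 1) : ℕ) : ℝ)) := by
          rw [Finset.sum_const, nsmul_eq_mul]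
      _ ≤ ((2 ^ (j + 1) : ℕ) : ℝ) ^ (1 - c) * (2 / ((2 ^ (j + 1) : ℕ) : ℝ)) :=
          mul_le_mul_of_nonneg_right hcard (by positivity)
      _ = 2 * ((2 ^ (j + 1) : ℕ) : ℝ) ^ (-c) := by
          have e1 : ((2 ^ (j + 1) : ℕ) : ℝ) ^ (-c) =
              ((2 ^ (j + 1) : ℕ) : ℝ) ^ (1 - c) / ((2 ^ (j + 1) : ℕ) : ℝ) := by
            rw [← Real.rpow_sub_one h2p.ne']
            congr 1
            ring
          rw [e1, mul_div_assoc', mul_div_assoc', mul_comm]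
      _ ≤ 2 * T₀ ^ (-c) := by
          apply mul_le_mul_of_nonneg_left _ (by norm_num)
          exact Real.rpow_le_rpow_of_nonpos (by linarith) hTj (by linarith)
  refine (Finset.sum_le_sum hterm).trans ?_
  rw [Finset.sum_const, card_range, nsmul_eq_mul]
  push_cast
  exact le_rfl

/-- a divisor of a number without large prime factors, near a given size -/
theorem exists_div {n t Y w : ℕ} (hn : 0 < n) (htn : t ∣ n) (hY : ∀ p : ℕ, p.Prime → p ∣ n → p ≤ Y)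
    (hwn : w ≤ n) : ∃ d, t ∣ d ∧ d ∣ n ∧ w ≤ d ∧ (d ≤ t ∨ d ≤ w * Y) := by
  classical
  have hex : ∃ d, t ∣ d ∧ d ∣ n ∧ w ≤ d := ⟨n, htn, dvd_rfl, hwn⟩
  obtain ⟨h1, h2, h3⟩ := Nat.find_spec hex
  have hmin := fun m hm => Nat.find_min hex (m := m) hm
  refine ⟨Nat.find hex, h1, h2, h3, ?_⟩
  obtain ⟨d, hd⟩ : ∃ d, d = Nat.find hex := ⟨_, rfl⟩
  rw [← hd] at h1 h2 h3 hmin ⊢
  obtain ⟨e, he⟩ := h1
  have hd0 : 0 < d := Nat.pos_of_dvd_of_pos h2 hn
  by_cases he1 : e = 1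
  · left; rw [he, he1, mul_one]
  · right
    obtain ⟨p, hp, hpe⟩ := Nat.exists_prime_and_dvd he1
    obtain ⟨e', he'⟩ := hpe
    have hdd : d = p * (t * e') := by rw [he, he']; ring
    have hlt : t * e' < d := by
      have h0 : 0 < t * e' := by
        rcases Nat.eq_zero_or_pos (t * e') with h | h
        · rw [hdd, h, mul_zero] at hd0; omega
        · exact h
      rw [hdd]
      have := hp.two_le
      nlinarith
    have h4 := hmin (t * e') hlt
    have h5 : t * e' < w := by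
      by_contra hcon
      rw [not_lt] at hcon
      exact h4 ⟨Dvd.intro _ rfl, (Dvd.intro_left p hdd.symm).trans h2, hcon⟩
    have h6 : p ≤ Y := hY p hp ((Dvd.intro _ hdd.symm).trans h2)
    rw [hdd, mul_comm]
    exact Nat.mul_le_mul h5.le h6

end Pool.Agent.Helper6.SD
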