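import Mathlib
import Pool.Agent.Helper6.SD.Count
import Pool.Agent.Helper14.P3.Main4
import Pool.Agent.Helper58.LT.SumUp

/-!
# Structure of the Lehmer numbers, part 4: power saving for the atypical ones

* `reduce`: up to `2 x ^ (1/2 - δ)` exceptions the Lehmer numbers `≤ x` are `> x ^ (1 - η)` and have all prime factors
  `< x ^ η`.
* `sparse_main`: few Lehmer numbers have a divisor in `[n ^ ε, n ^ (1/2)]` from a sparse set.
* `val_main`: few Lehmer numbers `n` have a prime power `≥ n ^ ε` dividing `n - 1`.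
-/

namespace Pool.Agent.Helper6.SD

open Finset Filter Pool.Agent.Helper6.Lehmer Pool.Agent.Helper6.LehmerCount Pool.Agent.Helper6.PW

/-- powers of `x` grow -/
theorem rpow_large (η C : ℝ) (hη : 0 < η) : ∃ x₀ : ℕ, ∀ x : ℕ, x₀ ≤ x → C ≤ (x : ℝ) ^ η := by
  have h1 : Tendsto (fun x : ℕ => (x : ℝ) ^ η) atTop atTop :=
    (tendsto_rpow_atTop hη).comp tendsto_natCast_atTop_atTop
  exact eventually_atTop.mp (h1.eventually (eventually_ge_atTop C))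

/-- absorbing a constant -/
theorem absorb {a b C : ℝ} (hab : b < a) : ∃ x₀ : ℕ, ∀ x : ℕ, x₀ ≤ x →
    C * (x : ℝ) ^ b ≤ (x : ℝ) ^ a := by
  obtain ⟨x₀, hx₀⟩ := rpow_large (a - b) C (by linarith)
  refine ⟨max x₀ 1, fun x hx => ?_⟩
  have h1 := hx₀ x ((le_max_left _ _).trans hx)
  have hx1 : 1 ≤ x := (le_max_right _ _).trans hx
  have hxp : (0 : ℝ) < x := by exact_mod_cast hx1
  calc C * (x : ℝ) ^ b ≤ (x : ℝ) ^ (a - b) * (x : ℝ) ^ b := mul_le_mul_of_nonneg_right h1 (by positivity)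
    _ = (x : ℝ) ^ a := by rw [← Real.rpow_add hxp]; congr 1; ring

/-- the largest prime factor -/
theorem exists_isP {n q : ℕ} (h5 : 0 < n) (hq : q.Prime) (hqn : q ∣ n) :
    ∃ P, IsP n P ∧ q ≤ P := by
  have hne : n.primeFactors.Nonempty := ⟨q, Nat.mem_primeFactors.mpr ⟨hq, hqn, by omega⟩⟩
  refine ⟨n.primeFactors.max' hne, ⟨n.primeFactors.max'_mem hne, ?_⟩, ?_⟩
  · intro r hr
    exact n.primeFactors.le_max' r hr
  · exact n.primeFactors.le_max' q (Nat.mem_primeFactors.mpr ⟨hq, hqn, by omega⟩)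

/-- large prime factors are rare -/
theorem rough_main (η : ℝ) (hη : 0 < η) : ∃ δ : ℝ, 0 < δ ∧ ∃ x₀ : ℕ, ∀ x : ℕ, x₀ ≤ x →
    ∀ S : Finset ℕ, (∀ n ∈ S, IsLehmer n ∧ n ≤ x ∧ ∃ q : ℕ, q.Prime ∧ q ∣ n ∧ (x : ℝ) ^ η ≤ q) →
    (#S : ℝ) ≤ (x : ℝ) ^ ((1 : ℝ) / 2 - δ) := by
  obtain ⟨δ, hδ, x₀, h⟩ := Pool.Agent.Helper19.P3.ps4_main η hη
  refine ⟨δ, hδ, x₀, fun x hx S hS => h x hx S fun n hn => ?_⟩
  obtain ⟨h1, h2, q, hq, hqn, hqx⟩ := hS n hn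
  obtain ⟨P, hP, hqP⟩ := exists_isP (by have := h1.one_lt; omega) hq hqn
  exact ⟨h1, h2, P, hP, hqx.trans (by exact_mod_cast hqP)⟩

/-- small Lehmer numbers are rare -/
theorem small_main (η : ℝ) (hη : 0 < η) (hη1 : η < 1) : ∃ x₀ : ℕ, ∀ x : ℕ, x₀ ≤ x →
    ∀ S : Finset ℕ, (∀ n ∈ S, IsLehmer n ∧ (n : ℝ) ≤ (x : ℝ) ^ (1 - η)) →
    (#S : ℝ) ≤ (x : ℝ) ^ ((1 : ℝ) / 2 - η / 2) := by
  classical
  obtain ⟨X₀, hNL⟩ := Pool.Agent.Helper58.LT.NL_bound_exp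
  obtain ⟨x₁, hx₁⟩ := rpow_large (1 - η) (X₀ + 1) (by linarith)
  refine ⟨max x₁ 1, fun x hx S hS => ?_⟩
  have h1 := hx₁ x ((le_max_left _ _).trans hx)
  have hx1 : 1 ≤ x := (le_max_right _ _).trans hx
  have hxp : (0 : ℝ) < x := by exact_mod_cast hx1
  obtain ⟨X, hX⟩ : ∃ X, X = ⌊(x : ℝ) ^ (1 - η)⌋₊ := ⟨_, rfl⟩
  have hX0 : X₀ ≤ X := by
    rw [hX]; apply Nat.le_floor; linarith
  have hXle : (X : ℝ) ≤ (x : ℝ) ^ (1 - η) := by rw [hX]; exact Nat.floor_le (by positivity)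
  have h2 := hNL X hX0
  have h3 : S ⊆ (Icc 1 X).filter (fun n => IsLehmer n) := by
    intro n hn
    obtain ⟨a, b⟩ := hS n hn
    rw [mem_filter, mem_Icc]
    refine ⟨⟨by have := a.one_lt; omega, ?_⟩, a⟩
    rw [hX]; exact Nat.le_floor b
  have h4 : #S ≤ NL X := by
    have := Finset.card_le_card h3
    unfold NL
    exact this
  have h5 : Real.exp (-(Real.log X ^ ((1 : ℝ) / 61))) ≤ 1 := by
    rw [Real.exp_le_one_iff, neg_nonpos]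
    apply Real.rpow_nonneg
    exact Real.log_natCast_nonneg X
  calc (#S : ℝ) ≤ NL X := by exact_mod_cast h4
    _ ≤ Real.sqrt X * Real.exp (-(Real.log X ^ ((1 : ℝ) / 61))) := h2
    _ ≤ Real.sqrt X * 1 := mul_le_mul_of_nonneg_left h5 (Real.sqrt_nonneg _)
    _ = Real.sqrt X := mul_one _
    _ ≤ Real.sqrt ((x : ℝ) ^ (1 - η)) := Real.sqrt_le_sqrt hXle
    _ = (x : ℝ) ^ ((1 : ℝ) / 2 - η / 2) := by
        rw [Real.sqrt_eq_rpow, ← Real.rpow_mul hxp.le]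
        congr 1
        ring

/-- reduction to large smooth Lehmer numbers -/
theorem reduce (η : ℝ) (hη : 0 < η) (hη1 : η < 1) : ∃ δ : ℝ, 0 < δ ∧ ∃ x₀ : ℕ, ∀ x : ℕ, x₀ ≤ x →
    ∀ (S : Finset ℕ) (b : ℝ), (∀ n ∈ S, IsLehmer n ∧ n ≤ x) →
    (∀ S' ⊆ S, (∀ n ∈ S', (x : ℝ) ^ (1 - η) < n ∧ ∀ p : ℕ, p.Prime → p ∣ n → (p : ℝ) < (x : ℝ) ^ η) →
      (#S' : ℝ) ≤ b) →
    (#S : ℝ) ≤ 2 * (x : ℝ) ^ ((1 : ℝ) / 2 - δ) + b := by
  classical
  obtain ⟨δ₁, hδ₁, x₁, h₁⟩ := rough_main η hη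
  obtain ⟨x₂, h₂⟩ := small_main η hη hη1
  refine ⟨min δ₁ (η / 2), lt_min hδ₁ (by positivity), max (max x₁ x₂) 1, fun x hx S b hS hb => ?_⟩
  have hx1 : x₁ ≤ x := ((le_max_left _ _).trans (le_max_left _ _)).trans hx
  have hx2 : x₂ ≤ x := ((le_max_right _ _).trans (le_max_left _ _)).trans hx
  have hx0 : 1 ≤ x := (le_max_right _ _).trans hx
  have hxr : (1 : ℝ) ≤ x := by exact_mod_cast hx0
  set A := S.filter (fun n : ℕ => (n : ℝ) ≤ (x : ℝ) ^ (1 - η)) with hA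
  set B := S.filter (fun n : ℕ => ∃ q : ℕ, q.Prime ∧ q ∣ n ∧ (x : ℝ) ^ η ≤ q) with hB
  set C := S \ (A ∪ B) with hC
  have h3 : S ⊆ (A ∪ B) ∪ C := by
    intro n hn
    by_cases h : n ∈ A ∪ B
    · exact mem_union_left _ h
    · exact mem_union_right _ (Finset.mem_sdiff.mpr ⟨hn, h⟩)
  have h4 : #S ≤ #A + #B + #C :=
    (Finset.card_le_card h3).trans ((Finset.card_union_le _ _).trans
      (Nat.add_le_add_right (Finset.card_union_le _ _) _))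
  have hAc : (#A : ℝ) ≤ (x : ℝ) ^ ((1 : ℝ) / 2 - min δ₁ (η / 2)) := by
    refine (h₂ x hx2 A ?_).trans ?_
    · intro n hn
      rw [hA, mem_filter] at hn
      exact ⟨(hS n hn.1).1, hn.2⟩
    · apply Real.rpow_le_rpow_of_exponent_le hxr
      have := min_le_right δ₁ (η / 2)
      linarith
  have hBc : (#B : ℝ) ≤ (x : ℝ) ^ ((1 : ℝ) / 2 - min δ₁ (η / 2)) := by
    refine (h₁ x hx1 B ?_).trans ?_
    · intro n hn
      rw [hB, mem_filter] at hn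
      exact ⟨(hS n hn.1).1, (hS n hn.1).2, hn.2⟩
    · apply Real.rpow_le_rpow_of_exponent_le hxr
      have := min_le_left δ₁ (η / 2)
      linarith
  have hCc : (#C : ℝ) ≤ b := by
    apply hb C (by rw [hC]; exact Finset.sdiff_subset)
    intro n hn
    rw [hC, Finset.mem_sdiff, mem_union, not_or, hA, hB, mem_filter, mem_filter] at hn
    obtain ⟨h5, h6, h7⟩ := hn
    constructor
    · by_contra h
      rw [not_lt] at h
      exact h6 ⟨h5, h⟩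
    · intro p hp hpn
      by_contra h
      rw [not_lt] at h
      exact h7 ⟨h5, p, hp, hpn, h⟩
  have h8 : (#S : ℝ) ≤ #A + #B + #C := by exact_mod_cast h4
  linarith

/-- few Lehmer numbers have a divisor in `[n ^ ε, n ^ (1/2)]` from a sparse set -/
theorem sparse_main (ε c : ℝ) (hε : 0 < ε) (hc : 0 < c) : ∃ δ : ℝ, 0 < δ ∧ ∀ z₀ : ℕ, ∃ x₀ : ℕ,
    ∀ T : Set ℕ, (∀ z : ℕ, z₀ ≤ z → ∀ U : Finset ℕ, (∀ t ∈ U, t ∈ T ∧ 1 ≤ t ∧ t ≤ z) →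
      (#U : ℝ) ≤ (z : ℝ) ^ (1 - c)) →
    ∀ x : ℕ, x₀ ≤ x → ∀ S : Finset ℕ,
      (∀ n ∈ S, IsLehmer n ∧ n ≤ x ∧ ∃ t ∈ T, t ∣ n ∧ (n : ℝ) ^ ε ≤ t ∧ (t : ℝ) ^ 2 ≤ n) →
      (#S : ℝ) ≤ (x : ℝ) ^ ((1 : ℝ) / 2 - δ) := by
  classical
  obtain ⟨η, hη⟩ : ∃ η, η = min (c * ε / 64) (1 / 16) := ⟨_, rfl⟩
  have hη0 : 0 < η := by rw [hη]; exact lt_min (by positivity) (by norm_num)
  have hη1 : η ≤ c * ε / 64 := by rw [hη]; exact min_le_left _ _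
  have hη2 : η ≤ 1 / 16 := by rw [hη]; exact min_le_right _ _
  obtain ⟨δ₁, hδ₁, x₁, h₁⟩ := reduce η hη0 (by linarith)
  obtain ⟨x₂, h₂⟩ := count_main η hη0
  obtain ⟨x₃, h₃⟩ := log_small η hη0
  refine ⟨min δ₁ (c * ε / 4) / 2, by positivity, fun z₀ => ?_⟩
  obtain ⟨x₄, h₄⟩ := rpow_large η 2 hη0
  obtain ⟨x₅, h₅⟩ := rpow_large (ε / 2) (z₀ + 1) (by positivity)
  obtain ⟨x₆, h₆⟩ := absorb (a := (1 : ℝ) / 2 - min δ₁ (c * ε / 4) / 2)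
    (b := (1 : ℝ) / 2 - min δ₁ (c * ε / 4)) (C := 3) (by
      have : 0 < min δ₁ (c * ε / 4) := lt_min hδ₁ (by positivity)
      linarith)
  obtain ⟨x₇, h₇⟩ := rpow_large ((1 : ℝ) / 4) 2 (by norm_num)
  refine ⟨x₁ + x₂ + x₃ + x₄ + x₅ + x₆ + x₇ + 1, fun T hT x hx S hS => ?_⟩
  have g₁ := h₁ x (by omega) S ((x : ℝ) ^ ((1 : ℝ) / 2 - c * ε / 4)) (fun n hn => ⟨(hS n hn).1, (hS n hn).2.1⟩)
  have g₂ := h₂ x (by omega)
  obtain ⟨g₃, g₃'⟩ := h₃ x (by omega)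
  have g₄ := h₄ x (by omega)
  have g₅ := h₅ x (by omega)
  have g₆ := h₆ x (by omega)
  have g₇ := h₇ x (by omega)
  have hxr : (1 : ℝ) ≤ x := by exact_mod_cast g₃'
  have hxp : (0 : ℝ) < x := by linarith
  have key : ∀ S' ⊆ S, (∀ n ∈ S', (x : ℝ) ^ (1 - η) < n ∧
      ∀ p : ℕ, p.Prime → p ∣ n → (p : ℝ) < (x : ℝ) ^ η) →
      (#S' : ℝ) ≤ (x : ℝ) ^ ((1 : ℝ) / 2 - c * ε / 4) := by
    intro S' hS' hsm
    obtain ⟨T₀, hT₀⟩ : ∃ T₀ : ℝ, T₀ = (x : ℝ) ^ (ε / 2) := ⟨_, rfl⟩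
    obtain ⟨D, hD⟩ : ∃ D : ℝ, D = (x : ℝ) ^ ((1 : ℝ) / 2 + 2 * η) := ⟨_, rfl⟩
    obtain ⟨U, hU⟩ : ∃ U : Finset ℕ, U = (Icc 1 x).filter (fun t => t ∈ T ∧ T₀ ≤ t) := ⟨_, rfl⟩
    obtain ⟨V, hV⟩ : ∃ V : Finset ℕ, V = (Icc 1 ⌊D⌋₊).filter (fun d => ∃ t ∈ U, t ∣ d) := ⟨_, rfl⟩
    have hD0 : 0 ≤ D := by rw [hD]; positivity
    have hVc := card_multiples U V D hD0 (fun t ht => by
        rw [hU, mem_filter, mem_Icc] at ht; exact ht.1.1) (fun d hd => by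
        rw [hV, mem_filter, mem_Icc] at hd
        refine ⟨hd.1.1, ?_, hd.2⟩
        exact (by exact_mod_cast hd.1.2 : (d : ℝ) ≤ (⌊D⌋₊ : ℝ)).trans (Nat.floor_le hD0))
    have hT₀1 : 1 ≤ T₀ := by rw [hT₀]; exact Real.one_le_rpow hxr (by positivity)
    have hsum := sum_sparse hc hT (T₀ := T₀) (by rw [hT₀]; linarith) hT₀1 (x := x) U (fun t ht => by
        rw [hU, mem_filter, mem_Icc] at ht
        exact ⟨ht.2.1, ht.2.2, ht.1.2⟩)
    have hcount := g₂ S' V (by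
      intro n hn
      obtain ⟨a, b, t, htT, htn, ht1, ht2⟩ := hS n (hS' hn)
      obtain ⟨hn1, hn2⟩ := hsm n hn
      refine ⟨a, b, ?_⟩
      have hn0 : 0 < n := by have := a.one_lt; omega
      have ht0 : 0 < t := Nat.pos_of_dvd_of_pos htn hn0
      have hnr : (1 : ℝ) ≤ n := by exact_mod_cast hn0
      -- size of n
      have hn3 : (x : ℝ) ^ ((1 : ℝ) / 2) ≤ n := by
        refine le_trans (Real.rpow_le_rpow_of_exponent_le hxr (by linarith)) hn1.le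
      have hn4 : (x : ℝ) ^ ((1 : ℝ) / 2) + 1 ≤ n := by
        have e1 : (x : ℝ) ^ ((1 : ℝ) / 2) * (x : ℝ) ^ ((1 : ℝ) / 4) ≤ n := by
          rw [← Real.rpow_add hxp]
          exact le_trans (Real.rpow_le_rpow_of_exponent_le hxr (by linarith)) hn1.le
        have e2 : (1 : ℝ) ≤ (x : ℝ) ^ ((1 : ℝ) / 2) := Real.one_le_rpow hxr (by norm_num)
        nlinarith
      obtain ⟨w, hw⟩ : ∃ w, w = ⌈(x : ℝ) ^ ((1 : ℝ) / 2)⌉₊ := ⟨_, rfl⟩
      have hw1 : (x : ℝ) ^ ((1 : ℝ) / 2) ≤ w := by rw [hw]; exact Nat.le_ceil _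
      have hw2 : (w : ℝ) ≤ (x : ℝ) ^ ((1 : ℝ) / 2) + 1 := by
        rw [hw]; exact (Nat.ceil_lt_add_one (by positivity)).le
      have hwn : w ≤ n := by exact_mod_cast hw2.trans hn4
      obtain ⟨d, htd, hdn, hwd, hd⟩ := exists_div (Y := ⌊(x : ℝ) ^ η⌋₊) hn0 htn (fun p hp hpn =>
        Nat.le_floor (hn2 p hp hpn).le) hwn
      have hxη : 0 < (x : ℝ) ^ η := by positivity
      have hx2 : 0 < (x : ℝ) ^ ((1 : ℝ) / 2) := by positivity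
      have hx2' : (1 : ℝ) ≤ (x : ℝ) ^ ((1 : ℝ) / 2) := Real.one_le_rpow hxr (by norm_num)
      have hDeq : D = (x : ℝ) ^ ((1 : ℝ) / 2) * ((x : ℝ) ^ η * (x : ℝ) ^ η) := by
        rw [hD, ← Real.rpow_add hxp, ← Real.rpow_add hxp]; congr 1; ring
      have hdD : (d : ℝ) ≤ D := by
        rcases hd with hd | hd
        · have e1 : (t : ℝ) ^ 2 ≤ ((x : ℝ) ^ ((1 : ℝ) / 2)) ^ 2 := by
            have e2 : ((x : ℝ) ^ ((1 : ℝ) / 2)) ^ 2 = x := by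
              rw [← Real.rpow_natCast, ← Real.rpow_mul hxp.le]; norm_num
            rw [e2]
            exact ht2.trans (by exact_mod_cast b)
          have e3 : (t : ℝ) ≤ (x : ℝ) ^ ((1 : ℝ) / 2) := by
            exact (pow_le_pow_iff_left₀ (by positivity) hx2.le (by norm_num)).mp e1
          have e4 : (d : ℝ) ≤ t := by exact_mod_cast hd
          have e5 : (1 : ℝ) ≤ (x : ℝ) ^ η * (x : ℝ) ^ η := by nlinarith
          rw [hDeq]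
          calc (d : ℝ) ≤ (x : ℝ) ^ ((1 : ℝ) / 2) * 1 := by rw [mul_one]; exact e4.trans e3
            _ ≤ _ := mul_le_mul_of_nonneg_left e5 hx2.le
        · have e1 : (d : ℝ) ≤ w * (⌊(x : ℝ) ^ η⌋₊ : ℝ) := by exact_mod_cast hd
          have e2 : (⌊(x : ℝ) ^ η⌋₊ : ℝ) ≤ (x : ℝ) ^ η := Nat.floor_le hxη.le
          calc (d : ℝ) ≤ w * (⌊(x : ℝ) ^ η⌋₊ : ℝ) := e1
            _ ≤ ((x : ℝ) ^ ((1 : ℝ) / 2) + 1) * (x : ℝ) ^ η :=
                mul_le_mul hw2 e2 (by positivity) (by positivity)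
            _ ≤ (2 * (x : ℝ) ^ ((1 : ℝ) / 2)) * (x : ℝ) ^ η := by
                apply mul_le_mul_of_nonneg_right _ hxη.le
                linarith
            _ ≤ D := by
                rw [hDeq]
                nlinarith [mul_pos hx2 hxη]
      refine ⟨d, ?_, hdn, ?_⟩
      · rw [hV, mem_filter, mem_Icc]
        refine ⟨⟨Nat.pos_of_dvd_of_pos hdn hn0, Nat.le_floor hdD⟩, t, ?_, htd⟩
        rw [hU, mem_filter, mem_Icc]
        refine ⟨⟨ht0, (Nat.le_of_dvd hn0 htn).trans b⟩, htT, ?_⟩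
        calc T₀ = ((x : ℝ) ^ ((1 : ℝ) / 2)) ^ ε := by
              rw [hT₀, ← Real.rpow_mul hxp.le]; congr 1; ring
          _ ≤ (n : ℝ) ^ ε := Real.rpow_le_rpow hx2.le hn3 hε.le
          _ ≤ t := ht1
      · calc (x : ℝ) ^ ((1 : ℝ) / 2 - 2 * η) ≤ (x : ℝ) ^ ((1 : ℝ) / 2) :=
              Real.rpow_le_rpow_of_exponent_le hxr (by linarith)
          _ ≤ w := hw1
          _ ≤ d := by exact_mod_cast hwd)
    have hT₀c : T₀ ^ (-c) = (x : ℝ) ^ (-(c * ε / 2)) := by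
      rw [hT₀, ← Real.rpow_mul hxp.le]; congr 1; ring
    rw [hT₀c] at hsum
    calc (#S' : ℝ) ≤ #V * (x : ℝ) ^ (5 * η) := hcount
      _ ≤ (D * ((((Nat.log 2 x : ℕ) : ℝ) + 1) * (2 * (x : ℝ) ^ (-(c * ε / 2))))) * (x : ℝ) ^ (5 * η) := by
          apply mul_le_mul_of_nonneg_right _ (by positivity)
          exact hVc.trans (mul_le_mul_of_nonneg_left hsum hD0)
      _ ≤ (D * ((1 / 4 * (x : ℝ) ^ η) * (2 * (x : ℝ) ^ (-(c * ε / 2))))) * (x : ℝ) ^ (5 * η) := by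
          apply mul_le_mul_of_nonneg_right _ (by positivity)
          apply mul_le_mul_of_nonneg_left _ hD0
          exact mul_le_mul_of_nonneg_right g₃ (by positivity)
      _ = 1 / 2 * (x : ℝ) ^ ((1 : ℝ) / 2 + 8 * η - c * ε / 2) := by
          have : (x : ℝ) ^ ((1 : ℝ) / 2 + 8 * η - c * ε / 2) =
              (x : ℝ) ^ ((1 : ℝ) / 2 + 2 * η) * (x : ℝ) ^ η * (x : ℝ) ^ (-(c * ε / 2)) * (x : ℝ) ^ (5 * η) := by
            rw [← Real.rpow_add hxp, ← Real.rpow_add hxp, ← Real.rpow_add hxp]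
            congr 1
            ring
          rw [this, hD]
          ring
      _ ≤ 1 * (x : ℝ) ^ ((1 : ℝ) / 2 - c * ε / 4) := by
          apply mul_le_mul (by norm_num) _ (by positivity) (by norm_num)
          apply Real.rpow_le_rpow_of_exponent_le hxr
          nlinarith
      _ = _ := one_mul _
  have g := g₁ key
  have hd1 : (x : ℝ) ^ ((1 : ℝ) / 2 - δ₁) ≤ (x : ℝ) ^ ((1 : ℝ) / 2 - min δ₁ (c * ε / 4)) := by
    apply Real.rpow_le_rpow_of_exponent_le hxr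
    have := min_le_left δ₁ (c * ε / 4); linarith
  have hd2 : (x : ℝ) ^ ((1 : ℝ) / 2 - c * ε / 4) ≤ (x : ℝ) ^ ((1 : ℝ) / 2 - min δ₁ (c * ε / 4)) := by
    apply Real.rpow_le_rpow_of_exponent_le hxr
    have := min_le_right δ₁ (c * ε / 4); linarith
  linarith

end Pool.Agent.Helper6.SD
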