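import Mathlib
import Pool.Agent.Helper6.SD.Main

/-!
# Structure of the Lehmer numbers, part 5: no large prime power divides `n - 1`
-/

namespace Pool.Agent.Helper6.SD

open Finset Filter Pool.Agent.Helper6.Lehmer Pool.Agent.Helper6.LehmerCount

/-- the quotient `(n - 1) / φ(n)` is at most the number of prime factors -/
theorem quot_le {n : ℕ} (h : IsLehmer n) :
    ∃ K, n - 1 = n.totient * K ∧ 0 < K ∧ K ≤ n.primeFactors.card := by
  have h1 := h.one_lt
  obtain ⟨k, hk⟩ := h.dvd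
  have hphi : 0 < n.totient := Nat.totient_pos.mpr (by omega)
  have h2 : n ≤ (n.primeFactors.card + 1) * n.totient := by
    have h3 := prod_le n.primeFactors fun p hp => (Nat.prime_of_mem_primeFactors hp).two_le
    rw [← h.totient_eq, Nat.prod_primeFactors_of_squarefree h.squarefree] at h3
    exact h3
  have hk1 : k ≤ n.primeFactors.card := by
    by_contra hc
    have h3 : n.primeFactors.card + 1 ≤ k := by omega
    have h4 : (n.primeFactors.card + 1) * n.totient ≤ k * n.totient := Nat.mul_le_mul_right _ h3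
    have h5 : k * n.totient = n - 1 := by rw [hk, mul_comm]
    omega
  refine ⟨k, hk, ?_, hk1⟩
  rcases Nat.eq_zero_or_pos k with h0 | h0
  · rw [h0, mul_zero] at hk; omega
  · exact h0

/-- a prime divisor of `n - 1` divides `p - 1` for a prime factor `p` of `n`, or is small -/
theorem prime_dvd {n q : ℕ} (h : IsLehmer n) (hq : q.Prime) (hqn : q ∣ n - 1) :
    (∃ p : ℕ, p.Prime ∧ p ∣ n ∧ q ≤ p) ∨ q ≤ n.primeFactors.card := by
  obtain ⟨K, hK, hK0, hK1⟩ := quot_le h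
  rw [hK, hq.dvd_mul] at hqn
  rcases hqn with hd | hd
  · left
    rw [h.totient_eq, hq.prime.dvd_finsetProd_iff] at hd
    obtain ⟨p, hp, hd⟩ := hd
    have hpp := Nat.prime_of_mem_primeFactors hp
    have h6 := Nat.le_of_dvd (by have := hpp.two_le; omega) hd
    exact ⟨p, hpp, Nat.dvd_of_mem_primeFactors hp, by omega⟩
  · right
    exact (Nat.le_of_dvd hK0 hd).trans hK1

/-- the power of `q` in `φ(n)` -/
theorem pow_le_mul {n q k : ℕ} (h : IsLehmer n) (hq : q.Prime) (hqn : q ^ k ∣ n - 1) :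
    q ^ k ≤ q ^ n.totient.factorization q * n.primeFactors.card := by
  obtain ⟨K, hK, hK0, hK1⟩ := quot_le h
  have h1 := h.one_lt
  have hphi : n.totient ≠ 0 := (Nat.totient_pos.mpr (by omega)).ne'
  have h2 : k ≤ (n - 1).factorization q := (hq.pow_dvd_iff_le_factorization (by omega)).mp hqn
  have h3 : (n - 1).factorization q = n.totient.factorization q + K.factorization q := by
    rw [hK, Nat.factorization_mul hphi hK0.ne']
    rfl
  calc q ^ k ≤ q ^ (n - 1).factorization q := Nat.pow_le_pow_right hq.pos h2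
    _ = q ^ n.totient.factorization q * q ^ K.factorization q := by rw [h3, pow_add]
    _ ≤ q ^ n.totient.factorization q * n.primeFactors.card := by
        apply Nat.mul_le_mul_left
        exact (Nat.ordProj_le q hK0.ne').trans hK1

/-- few Lehmer numbers `n` have a prime power `≥ n ^ ε` dividing `n - 1` -/
theorem val_main (ε : ℝ) (hε : 0 < ε) (hε1 : ε ≤ 1) : ∃ δ : ℝ, 0 < δ ∧
    ∃ x₀ : ℕ, ∀ x : ℕ, x₀ ≤ x → ∀ S : Finset ℕ,
      (∀ n ∈ S, IsLehmer n ∧ n ≤ x ∧ ∃ q k : ℕ, q.Prime ∧ q ^ k ∣ n - 1 ∧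
        (n : ℝ) ^ ε ≤ ((q ^ k : ℕ) : ℝ)) →
      (#S : ℝ) ≤ (x : ℝ) ^ ((1 : ℝ) / 2 - δ) := by
  classical
  obtain ⟨κ, hκ⟩ : ∃ κ : ℝ, κ = ε / 8 := ⟨_, rfl⟩
  have hκ0 : 0 < κ := by rw [hκ]; positivity
  obtain ⟨η, hη⟩ : ∃ η : ℝ, η = κ / 1024 := ⟨_, rfl⟩
  have hη0 : 0 < η := by rw [hη]; positivity
  have hη1 : η ≤ 1 / 8192 := by rw [hη, hκ]; linarith
  have hη2 : η ≤ ε / 4 := by rw [hη, hκ]; linarith
  obtain ⟨δ₁, hδ₁, x₁, h₁⟩ := reduce η hη0 (by linarith)
  obtain ⟨x₂, h₂⟩ := count_main η hη0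
  obtain ⟨x₃, h₃⟩ := log_small η hη0
  obtain ⟨z₀, hz₀⟩ := val_sparse κ hκ0
  obtain ⟨x₄, h₄⟩ := rpow_large η 2 hη0
  obtain ⟨x₅, h₅⟩ := rpow_large ((1 : ℝ) / 2) (z₀ + 1) (by norm_num)
  obtain ⟨x₆, h₆⟩ := absorb (a := (1 : ℝ) / 2 - min δ₁ (κ / 64) / 2)
    (b := (1 : ℝ) / 2 - min δ₁ (κ / 64)) (C := 3) (by
      have : 0 < min δ₁ (κ / 64) := lt_min hδ₁ (by positivity)
      linarith)
  refine ⟨min δ₁ (κ / 64) / 2, by positivity, x₁ + x₂ + x₃ + x₄ + x₅ + x₆ + 1, fun x hx S hS => ?_⟩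
  have g₁ := h₁ x (by omega) S ((x : ℝ) ^ ((1 : ℝ) / 2 - κ / 64)) (fun n hn => ⟨(hS n hn).1, (hS n hn).2.1⟩)
  have g₂ := h₂ x (by omega)
  obtain ⟨g₃, g₃'⟩ := h₃ x (by omega)
  have g₄ := h₄ x (by omega)
  have g₅ := h₅ x (by omega)
  have g₆ := h₆ x (by omega)
  have hxr : (1 : ℝ) ≤ x := by exact_mod_cast g₃'
  have hxp : (0 : ℝ) < x := by linarith
  have key : ∀ S' ⊆ S, (∀ n ∈ S', (x : ℝ) ^ (1 - η) < n ∧
      ∀ p : ℕ, p.Prime → p ∣ n → (p : ℝ) < (x : ℝ) ^ η) →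
      (#S' : ℝ) ≤ (x : ℝ) ^ ((1 : ℝ) / 2 - κ / 64) := by
    intro S' hS' hsm
    obtain ⟨D, hD⟩ : ∃ D : ℝ, D = (x : ℝ) ^ ((1 : ℝ) / 2 + 2 * η) := ⟨_, rfl⟩
    have hD0 : 0 ≤ D := by rw [hD]; positivity
    have hDx : D ≤ x := by
      rw [hD]
      calc (x : ℝ) ^ ((1 : ℝ) / 2 + 2 * η) ≤ (x : ℝ) ^ (1 : ℝ) :=
            Real.rpow_le_rpow_of_exponent_le hxr (by linarith)
        _ = x := Real.rpow_one _
    have hD2 : (x : ℝ) ^ ((1 : ℝ) / 2) ≤ D := by
      rw [hD]; exact Real.rpow_le_rpow_of_exponent_le hxr (by linarith)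
    obtain ⟨z, hz⟩ : ∃ z : ℕ, z = ⌊D⌋₊ := ⟨_, rfl⟩
    have hzD : (z : ℝ) ≤ D := by rw [hz]; exact Nat.floor_le hD0
    have hzz : z₀ ≤ z := by rw [hz]; apply Nat.le_floor; linarith
    obtain ⟨Y, hY⟩ : ∃ Y : ℕ, Y = ⌊(x : ℝ) ^ η⌋₊ := ⟨_, rfl⟩
    have hxη : 0 < (x : ℝ) ^ η := by positivity
    have hYle : (Y : ℝ) ≤ (x : ℝ) ^ η := by rw [hY]; exact Nat.floor_le hxη.le
    set Vq : ℕ → Finset ℕ := fun q => (Icc 1 z).filter (fun t => Squarefree t ∧
      (z : ℝ) ^ κ ≤ ((q ^ t.totient.factorization q : ℕ) : ℝ)) with hVq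
    set V : Finset ℕ := ((Icc 1 Y).filter Nat.Prime).biUnion Vq with hV
    have hVc : (#V : ℝ) ≤ (x : ℝ) ^ η * D ^ (1 - κ / 16) := by
      have e1 : #V ≤ ∑ q ∈ (Icc 1 Y).filter Nat.Prime, #(Vq q) := Finset.card_biUnion_le
      have e2 : ∀ q ∈ (Icc 1 Y).filter Nat.Prime, (#(Vq q) : ℝ) ≤ D ^ (1 - κ / 16) := by
        intro q hq
        rw [mem_filter] at hq
        refine (hz₀ z hzz q hq.2 (Vq q) ?_).trans ?_
        · intro t ht
          rw [hVq] at ht
          simp only [mem_filter, mem_Icc] at ht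
          exact ⟨ht.2.1, ht.1.2, ht.2.2⟩
        · apply Real.rpow_le_rpow (by positivity) hzD
          rw [hκ]; linarith
      calc (#V : ℝ) ≤ ∑ q ∈ (Icc 1 Y).filter Nat.Prime, (#(Vq q) : ℝ) := by exact_mod_cast e1
        _ ≤ ∑ q ∈ (Icc 1 Y).filter Nat.Prime, D ^ (1 - κ / 16) := Finset.sum_le_sum e2
        _ = #((Icc 1 Y).filter Nat.Prime) * D ^ (1 - κ / 16) := by rw [Finset.sum_const, nsmul_eq_mul]
        _ ≤ (x : ℝ) ^ η * D ^ (1 - κ / 16) := by
            apply mul_le_mul_of_nonneg_right _ (by positivity)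
            have e3 : #((Icc 1 Y).filter Nat.Prime) ≤ Y := by
              refine (Finset.card_filter_le _ _).trans ?_
              rw [Nat.card_Icc, Nat.add_sub_cancel]
            exact (by exact_mod_cast e3 : (#((Icc 1 Y).filter Nat.Prime) : ℝ) ≤ Y).trans hYle
    have hcount := g₂ S' V (by
      intro n hn
      obtain ⟨a, b, q, k, hq, hqn, hqk⟩ := hS n (hS' hn)
      obtain ⟨hn1, hn2⟩ := hsm n hn
      refine ⟨a, b, ?_⟩
      have hn0 : 0 < n := by have := a.one_lt; omega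
      have hbr : (n : ℝ) ≤ x := by exact_mod_cast b
      have hnr : (1 : ℝ) < n := by exact_mod_cast a.one_lt
      have hx2 : 0 < (x : ℝ) ^ ((1 : ℝ) / 2) := by positivity
      -- size of n
      have hn3 : (x : ℝ) ^ ((1 : ℝ) / 2) ≤ n := by
        refine le_trans (Real.rpow_le_rpow_of_exponent_le hxr (by linarith)) hn1.le
      -- number of prime factors
      have hcard : (n.primeFactors.card : ℝ) ≤ 1 / 4 * (x : ℝ) ^ η := by
        have e1 := card_primeFactors_le hn0.ne'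
        have e2 : n.primeFactors.card ≤ Nat.log 2 x := e1.trans (Nat.log_mono_right b)
        have e3 : (n.primeFactors.card : ℝ) ≤ ((Nat.log 2 x : ℕ) : ℝ) := by exact_mod_cast e2
        linarith
      -- size of q
      have hk : k ≠ 0 := by
        rintro rfl
        rw [pow_zero, Nat.cast_one] at hqk
        have := Real.one_lt_rpow hnr hε
        linarith
      have hqY : q ≤ Y := by
        rw [hY]
        apply Nat.le_floor
        rcases prime_dvd a hq ((dvd_pow_self q hk).trans hqn) with ⟨p, hp, hpn, hqp⟩ | hq2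
        · exact (by exact_mod_cast hqp : (q : ℝ) ≤ p).trans (hn2 p hp hpn).le
        · have : (q : ℝ) ≤ n.primeFactors.card := by exact_mod_cast hq2
          linarith
      -- the power of q in φ(n)
      have hval : (x : ℝ) ^ (ε / 4) ≤ ((q ^ n.totient.factorization q : ℕ) : ℝ) := by
        have e1 := pow_le_mul a hq hqn
        have e2 : ((q ^ k : ℕ) : ℝ) ≤ ((q ^ n.totient.factorization q : ℕ) : ℝ) * n.primeFactors.card := by
          exact_mod_cast e1
        have e3 : (x : ℝ) ^ (ε / 2) ≤ (n : ℝ) ^ ε := by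
          calc (x : ℝ) ^ (ε / 2) = ((x : ℝ) ^ ((1 : ℝ) / 2)) ^ ε := by
                rw [← Real.rpow_mul hxp.le]; congr 1; ring
            _ ≤ (n : ℝ) ^ ε := Real.rpow_le_rpow hx2.le hn3 hε.le
        have e4 : (n.primeFactors.card : ℝ) ≤ (x : ℝ) ^ (ε / 4) := by
          have : (x : ℝ) ^ η ≤ (x : ℝ) ^ (ε / 4) := Real.rpow_le_rpow_of_exponent_le hxr hη2
          linarith
        have e5 : (x : ℝ) ^ (ε / 2) = (x : ℝ) ^ (ε / 4) * (x : ℝ) ^ (ε / 4) := by
          rw [← Real.rpow_add hxp]; congr 1; ring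
        have e6 : 0 < (x : ℝ) ^ (ε / 4) := by positivity
        have e7 : (x : ℝ) ^ (ε / 4) * (x : ℝ) ^ (ε / 4) ≤
            ((q ^ n.totient.factorization q : ℕ) : ℝ) * (x : ℝ) ^ (ε / 4) := by
          rw [← e5]
          exact (e3.trans hqk).trans (e2.trans (mul_le_mul_of_nonneg_left e4 (by positivity)))
        exact le_of_mul_le_mul_right e7 e6
      -- the two halves
      obtain ⟨A, hA⟩ : ∃ A : ℝ, A = (x : ℝ) ^ ((1 : ℝ) / 2 - η) := ⟨_, rfl⟩
      have hA0 : 0 < A := by rw [hA]; positivity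
      have hA1 : 1 ≤ A := by rw [hA]; exact Real.one_le_rpow hxr (by linarith)
      have hAη : A * (x : ℝ) ^ η = (x : ℝ) ^ ((1 : ℝ) / 2) := by
        rw [hA, ← Real.rpow_add hxp]; congr 1; ring
      have hAn : A + 1 ≤ n := by
        have e2 : (x : ℝ) ^ ((1 : ℝ) / 2) = A * (x : ℝ) ^ η := hAη.symm
        have e3 : A * 2 ≤ A * (x : ℝ) ^ η := mul_le_mul_of_nonneg_left g₄ hA0.le
        linarith
      obtain ⟨w, hw⟩ : ∃ w, w = ⌈A⌉₊ := ⟨_, rfl⟩
      have hw1 : A ≤ w := by rw [hw]; exact Nat.le_ceil _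
      have hw2 : (w : ℝ) ≤ A + 1 := by rw [hw]; exact (Nat.ceil_lt_add_one hA0.le).le
      have hwn : w ≤ n := by exact_mod_cast hw2.trans hAn
      obtain ⟨d, -, hdn, hwd, hd⟩ := exists_div (t := 1) (Y := Y) hn0 (one_dvd n) (fun p hp hpn => by
        rw [hY]; exact Nat.le_floor (hn2 p hp hpn).le) hwn
      obtain ⟨m, hm⟩ := hdn
      have hd0 : 0 < d := Nat.pos_of_dvd_of_pos (Dvd.intro m hm.symm) hn0
      have hm0 : 0 < m := by
        rcases Nat.eq_zero_or_pos m with h | h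
        · rw [h, mul_zero] at hm; omega
        · exact h
      have hd0' : (0 : ℝ) < d := by exact_mod_cast hd0
      have hm0' : (0 : ℝ) < m := by exact_mod_cast hm0
      have hAd : A ≤ d := hw1.trans (by exact_mod_cast hwd)
      have hd3 : (d : ℝ) ≤ 2 * (x : ℝ) ^ ((1 : ℝ) / 2) := by
        rcases hd with hd | hd
        · have e1 : (d : ℝ) ≤ 1 := by exact_mod_cast hd
          have e2 : (1 : ℝ) ≤ (x : ℝ) ^ ((1 : ℝ) / 2) := Real.one_le_rpow hxr (by norm_num)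
          linarith
        · have e1 : (d : ℝ) ≤ w * (Y : ℝ) := by exact_mod_cast hd
          calc (d : ℝ) ≤ w * (Y : ℝ) := e1
            _ ≤ (A + 1) * (x : ℝ) ^ η := mul_le_mul hw2 hYle (by positivity) (by positivity)
            _ ≤ (2 * A) * (x : ℝ) ^ η := mul_le_mul_of_nonneg_right (by linarith) hxη.le
            _ = 2 * (x : ℝ) ^ ((1 : ℝ) / 2) := by rw [mul_assoc, hAη]
      have hD3 : 2 * (x : ℝ) ^ ((1 : ℝ) / 2) ≤ D := by
        have e1 : D = (x : ℝ) ^ ((1 : ℝ) / 2) * ((x : ℝ) ^ η * (x : ℝ) ^ η) := by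
          rw [hD, ← Real.rpow_add hxp, ← Real.rpow_add hxp]; congr 1; ring
        have e2 : (2 : ℝ) ≤ (x : ℝ) ^ η * (x : ℝ) ^ η := by nlinarith
        rw [e1, mul_comm]
        exact mul_le_mul_of_nonneg_left e2 hx2.le
      have hmn : (n : ℝ) = d * m := by exact_mod_cast hm
      have hmD : (m : ℝ) ≤ D := by
        have e1 : A * m ≤ x := by
          calc A * m ≤ d * m := mul_le_mul_of_nonneg_right hAd hm0'.le
            _ = n := hmn.symm
            _ ≤ x := hbr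
        have e2 : A * D = (x : ℝ) ^ (1 + η) := by
          rw [hA, hD, ← Real.rpow_add hxp]; congr 1; ring
        have e3 : (x : ℝ) ≤ (x : ℝ) ^ (1 + η) := by
          calc (x : ℝ) = (x : ℝ) ^ (1 : ℝ) := (Real.rpow_one _).symm
            _ ≤ _ := Real.rpow_le_rpow_of_exponent_le hxr (by linarith)
        have e4 : A * m ≤ A * D := by rw [e2]; exact e1.trans e3
        exact le_of_mul_le_mul_left e4 hA0
      have hlow : (x : ℝ) ^ ((1 : ℝ) / 2 - 2 * η) ≤ A := by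
        rw [hA]; exact Real.rpow_le_rpow_of_exponent_le hxr (by linarith)
      have hmlow : (x : ℝ) ^ ((1 : ℝ) / 2 - 2 * η) ≤ m := by
        have e1 : (x : ℝ) ^ (1 - η) ≤ 2 * (x : ℝ) ^ ((1 : ℝ) / 2) * m := by
          calc (x : ℝ) ^ (1 - η) ≤ n := hn1.le
            _ = d * m := hmn
            _ ≤ 2 * (x : ℝ) ^ ((1 : ℝ) / 2) * m := mul_le_mul_of_nonneg_right hd3 hm0'.le
        have e2 : (x : ℝ) ^ (1 - η) = (x : ℝ) ^ ((1 : ℝ) / 2) * ((x : ℝ) ^ η * (x : ℝ) ^ ((1 : ℝ) / 2 - 2 * η)) := by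
          rw [← Real.rpow_add hxp, ← Real.rpow_add hxp]; congr 1; ring
        have e3 : 2 * (x : ℝ) ^ ((1 : ℝ) / 2 - 2 * η) ≤ (x : ℝ) ^ η * (x : ℝ) ^ ((1 : ℝ) / 2 - 2 * η) :=
          mul_le_mul_of_nonneg_right g₄ (by positivity)
        have e4 : (x : ℝ) ^ ((1 : ℝ) / 2) * (2 * (x : ℝ) ^ ((1 : ℝ) / 2 - 2 * η)) ≤
            (x : ℝ) ^ ((1 : ℝ) / 2) * (2 * m) := by
          calc _ ≤ (x : ℝ) ^ ((1 : ℝ) / 2) * ((x : ℝ) ^ η * (x : ℝ) ^ ((1 : ℝ) / 2 - 2 * η)) :=
                mul_le_mul_of_nonneg_left e3 hx2.le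
            _ = (x : ℝ) ^ (1 - η) := e2.symm
            _ ≤ 2 * (x : ℝ) ^ ((1 : ℝ) / 2) * m := e1
            _ = _ := by ring
        have e5 := le_of_mul_le_mul_left e4 hx2
        linarith
      have hsq : Squarefree (d * m) := by rw [← hm]; exact a.squarefree
      have hcop : Nat.Coprime d m := Nat.coprime_of_squarefree_mul hsq
      have hφ : q ^ n.totient.factorization q =
          q ^ d.totient.factorization q * q ^ m.totient.factorization q := by
        rw [hm, Nat.totient_mul hcop, Nat.factorization_mul (Nat.totient_pos.mpr hd0).ne'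
          (Nat.totient_pos.mpr hm0).ne', ← pow_add]
        rfl
      have hzκ : (z : ℝ) ^ κ ≤ (x : ℝ) ^ (ε / 8) := by
        rw [hκ]
        exact Real.rpow_le_rpow (by positivity) (hzD.trans hDx) (by positivity)
      have hmem : ∀ t : ℕ, 0 < t → (t : ℝ) ≤ D → Squarefree t →
          (x : ℝ) ^ (ε / 8) ≤ ((q ^ t.totient.factorization q : ℕ) : ℝ) → t ∈ V := by
        intro t ht htD hts htv
        rw [hV, mem_biUnion]
        refine ⟨q, mem_filter.mpr ⟨mem_Icc.mpr ⟨hq.pos, hqY⟩, hq⟩, ?_⟩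
        rw [hVq]
        simp only [mem_filter, mem_Icc]
        exact ⟨⟨ht, by rw [hz]; exact Nat.le_floor htD⟩, hts, hzκ.trans htv⟩
      by_cases hdv : (x : ℝ) ^ (ε / 8) ≤ ((q ^ d.totient.factorization q : ℕ) : ℝ)
      · exact ⟨d, hmem d hd0 (hd3.trans hD3) (Nat.squarefree_mul_iff.mp hsq).2.1 hdv,
          Dvd.intro m hm.symm, hlow.trans hAd⟩
      · rw [not_le] at hdv
        have hmv : (x : ℝ) ^ (ε / 8) ≤ ((q ^ m.totient.factorization q : ℕ) : ℝ) := by
          by_contra hcon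
          rw [not_le] at hcon
          have e1 : ((q ^ n.totient.factorization q : ℕ) : ℝ) =
              ((q ^ d.totient.factorization q : ℕ) : ℝ) * ((q ^ m.totient.factorization q : ℕ) : ℝ) := by
            exact_mod_cast hφ
          have e2 : (x : ℝ) ^ (ε / 4) = (x : ℝ) ^ (ε / 8) * (x : ℝ) ^ (ε / 8) := by
            rw [← Real.rpow_add hxp]; congr 1; ring
          rw [e1, e2] at hval
          have e3 : ((q ^ d.totient.factorization q : ℕ) : ℝ) * ((q ^ m.totient.factorization q : ℕ) : ℝ) <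
              (x : ℝ) ^ (ε / 8) * (x : ℝ) ^ (ε / 8) :=
            mul_lt_mul'' hdv hcon (by positivity) (by positivity)
          linarith
        exact ⟨m, hmem m hm0 hmD (Nat.squarefree_mul_iff.mp hsq).2.2 hmv,
          Dvd.intro_left d hm.symm, hmlow⟩)
    calc (#S' : ℝ) ≤ #V * (x : ℝ) ^ (5 * η) := hcount
      _ ≤ ((x : ℝ) ^ η * D ^ (1 - κ / 16)) * (x : ℝ) ^ (5 * η) :=
          mul_le_mul_of_nonneg_right hVc (by positivity)
      _ = (x : ℝ) ^ (6 * η + ((1 : ℝ) / 2 + 2 * η) * (1 - κ / 16)) := by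
          rw [hD, ← Real.rpow_mul hxp.le, ← Real.rpow_add hxp, ← Real.rpow_add hxp]
          congr 1
          ring
      _ ≤ (x : ℝ) ^ ((1 : ℝ) / 2 - κ / 64) := by
          apply Real.rpow_le_rpow_of_exponent_le hxr
          have e1 : 0 ≤ η * κ := by positivity
          have e2 : 1024 * η = κ := by rw [hη]; ring
          nlinarith
  have g := g₁ key
  have hd1 : (x : ℝ) ^ ((1 : ℝ) / 2 - δ₁) ≤ (x : ℝ) ^ ((1 : ℝ) / 2 - min δ₁ (κ / 64)) := by
    apply Real.rpow_le_rpow_of_exponent_le hxr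
    have := min_le_left δ₁ (κ / 64); linarith
  have hd2 : (x : ℝ) ^ ((1 : ℝ) / 2 - κ / 64) ≤ (x : ℝ) ^ ((1 : ℝ) / 2 - min δ₁ (κ / 64)) := by
    apply Real.rpow_le_rpow_of_exponent_le hxr
    have := min_le_right δ₁ (κ / 64); linarith
  linarith

end Pool.Agent.Helper6.SD
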