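import Mathlib
import Pool.Agent.Helper16.UB.Mert
import Pool.Agent.Helper6.SD.Val

/-!
# Structure of the Lehmer numbers, part 8: a large smooth part of `φ(t)` is rare

`Yp Y m` is the part of `m` composed of the primes up to `Y`.
`part_sparse`: if `Y ≤ (log log z) ^ A` there are at most `z ^ (1 - c)` squarefree `t ≤ z` with
`Yp Y (φ(t)) ≥ z ^ κ`.
-/

namespace Pool.Agent.Helper6.SD

open Finset Filter

/-- the part of `m` composed of the primes up to `Y` -/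
def Yp (Y m : ℕ) : ℕ := ∏ q ∈ (Icc 1 Y).filter Nat.Prime, q ^ m.factorization q

theorem Yp_pos (Y m : ℕ) : 0 < Yp Y m :=
  Finset.prod_pos fun _ hq => pow_pos (mem_filter.mp hq).2.pos _

theorem Yp_mul (Y : ℕ) {a b : ℕ} (ha : a ≠ 0) (hb : b ≠ 0) : Yp Y (a * b) = Yp Y a * Yp Y b := by
  unfold Yp
  rw [← Finset.prod_mul_distrib]
  apply Finset.prod_congr rfl
  intro q _
  rw [Nat.factorization_mul ha hb, ← pow_add]
  rfl

theorem Yp_eq (Y m : ℕ) :
    Yp Y m = ∏ q ∈ m.primeFactors.filter (fun q => q ≤ Y), q ^ m.factorization q := by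
  unfold Yp
  symm
  apply Finset.prod_subset
  · intro q hq
    rw [mem_filter] at hq
    have hp := Nat.prime_of_mem_primeFactors hq.1
    exact mem_filter.mpr ⟨mem_Icc.mpr ⟨hp.pos, hq.2⟩, hp⟩
  · intro q hq hq2
    rw [mem_filter, mem_Icc] at hq
    have : q ∉ m.primeFactors := fun h => hq2 (mem_filter.mpr ⟨h, hq.1.2⟩)
    rw [← Nat.support_factorization, Finsupp.notMem_support_iff] at this
    rw [this, pow_zero]

theorem split_eq (Y : ℕ) {m : ℕ} (hm : m ≠ 0) :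
    m = Yp Y m * ∏ q ∈ m.primeFactors.filter (fun q => ¬ q ≤ Y), q ^ m.factorization q := by
  rw [Yp_eq, Finset.prod_filter_mul_prod_filter_not]
  exact (Nat.prod_factorization_pow_eq_self hm).symm

theorem Yp_dvd (Y : ℕ) {m : ℕ} (hm : m ≠ 0) : Yp Y m ∣ m :=
  Dvd.intro _ (split_eq Y hm).symm

theorem Yp_le (Y : ℕ) {m : ℕ} (hm : m ≠ 0) : Yp Y m ≤ m :=
  Nat.le_of_dvd (Nat.pos_of_ne_zero hm) (Yp_dvd Y hm)

theorem Yp_mono (Y : ℕ) {a b : ℕ} (h : a ∣ b) (hb : b ≠ 0) : Yp Y a ≤ Yp Y b := by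
  obtain ⟨c, rfl⟩ := h
  have ha : a ≠ 0 := fun h => hb (by rw [h, zero_mul])
  have hc : c ≠ 0 := fun h => hb (by rw [h, mul_zero])
  rw [Yp_mul Y ha hc]
  exact Nat.le_mul_of_pos_right _ (Yp_pos Y c)

theorem Yp_mono_left {Y Z : ℕ} (h : Y ≤ Z) (m : ℕ) : Yp Y m ≤ Yp Z m := by
  unfold Yp
  apply Finset.prod_le_prod_of_subset_of_one_le'
  · intro q hq
    rw [mem_filter, mem_Icc] at hq ⊢
    exact ⟨⟨hq.1.1, hq.1.2.trans h⟩, hq.2⟩
  · intro q hq _
    exact Nat.one_le_pow _ _ (mem_filter.mp hq).2.pos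

theorem Yp_prime {Y m p : ℕ} (hp : p.Prime) (h : p ∣ Yp Y m) : p ≤ Y := by
  unfold Yp at h
  rw [hp.prime.dvd_finsetProd_iff] at h
  obtain ⟨q, hq, h⟩ := h
  rw [mem_filter, mem_Icc] at hq
  rw [(Nat.prime_dvd_prime_iff_eq hp hq.2).mp (hp.dvd_of_dvd_pow h)]
  exact hq.1.2

theorem Yp_totient (Y : ℕ) {t : ℕ} (ht : Squarefree t) :
    Yp Y t.totient = ∏ p ∈ t.primeFactors, Yp Y (p - 1) := by
  have h1 : t.totient = ∏ p ∈ t.primeFactors, (p - 1) := by
    rw [Nat.totient_eq_div_primeFactors_mul, Nat.prod_primeFactors_of_squarefree ht,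
      Nat.div_self (Nat.pos_of_ne_zero ht.ne_zero), one_mul]
  unfold Yp
  rw [Finset.prod_comm]
  apply Finset.prod_congr rfl
  intro q _
  rw [Finset.prod_pow_eq_pow_sum, h1, Nat.factorization_prod]
  · rw [Finset.sum_apply']
  · intro p hp
    have := (Nat.prime_of_mem_primeFactors hp).two_le
    omega

/-- sum over the `Y`-smooth numbers -/
theorem sum_factored {Y : ℕ} (hY : 1 ≤ Y) {σ : ℝ} (hσ : 1 / 2 ≤ σ) (hσ1 : σ ≤ 1) (F : Finset ℕ)
    (hF : ∀ s ∈ F, ∀ p : ℕ, p.Prime → p ∣ s → p ≤ Y) :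
    ∑ s ∈ F, (s : ℝ) ^ (-σ) ≤ Real.exp (4 * ((Y : ℝ) ^ (1 - σ) * (1 + Real.log Y))) := by
  classical
  have hYp : (0 : ℝ) < Y := by exact_mod_cast hY
  let f : ℕ →* ℝ :=
    { toFun := fun n => (n : ℝ) ^ (-σ)
      map_one' := by simp
      map_mul' := fun a b => by
        push_cast
        exact Real.mul_rpow (by positivity) (by positivity) }
  have hf : ∀ n : ℕ, f n = (n : ℝ) ^ (-σ) := fun n => rfl
  have hf0 : ∀ n : ℕ, 0 ≤ f n := fun n => by rw [hf]; positivity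
  have hf1 : ∀ {p : ℕ}, p.Prime → f p ≤ 3 / 4 := by
    intro p hp
    have h2 : (2 : ℝ) ≤ p := by exact_mod_cast hp.two_le
    rw [hf]
    calc (p : ℝ) ^ (-σ) ≤ (2 : ℝ) ^ (-σ) := Real.rpow_le_rpow_of_nonpos (by norm_num) h2 (by linarith)
      _ ≤ (2 : ℝ) ^ (-(1 / 2 : ℝ)) := Real.rpow_le_rpow_of_exponent_le (by norm_num) (by linarith)
      _ ≤ 3 / 4 := by
          have h3 : ((2 : ℝ) ^ (-(1 / 2 : ℝ))) ^ (2 : ℕ) = 1 / 2 := by
            rw [← Real.rpow_natCast, ← Real.rpow_mul (by norm_num)]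
            norm_num
          have h4 : 0 ≤ (2 : ℝ) ^ (-(1 / 2 : ℝ)) := by positivity
          nlinarith
  have hsum := (EulerProduct.summable_and_hasSum_factoredNumbers_prod_filter_prime_geometric
    (f := f) (fun {p} hp => by
      rw [Real.norm_of_nonneg (hf0 p)]
      have := hf1 hp
      linarith) (Icc 1 Y)).2
  have hmem : ∀ s ∈ F, s ∈ Nat.factoredNumbers (Icc 1 Y) := by
    intro s hs
    rw [Nat.mem_factoredNumbers']
    intro p hp hps
    exact mem_Icc.mpr ⟨hp.pos, hF s hs p hp hps⟩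
  have h1 : ∑ s ∈ F, (s : ℝ) ^ (-σ) ≤ ∏ p ∈ Icc 1 Y with p.Prime, (1 - f p)⁻¹ := by
    have h2 := sum_le_hasSum (F.subtype (· ∈ Nat.factoredNumbers (Icc 1 Y)))
      (fun i _ => hf0 _) hsum
    rw [Finset.sum_subtype_of_mem (fun m : ℕ => f m) hmem] at h2
    exact h2
  have h2 : ∏ p ∈ Icc 1 Y with p.Prime, (1 - f p)⁻¹ ≤
      ∏ p ∈ Icc 1 Y with p.Prime, Real.exp (4 * f p) := by
    apply Finset.prod_le_prod
    · intro p hp
      have := hf1 (mem_filter.mp hp).2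
      exact inv_nonneg.mpr (by linarith)
    · intro p hp
      have h3 := hf1 (mem_filter.mp hp).2
      have h4 := hf0 p
      rw [inv_le_iff_one_le_mul₀ (by linarith)]
      have h5 := Real.add_one_le_exp (4 * f p)
      nlinarith
  have h3 : ∑ m ∈ Icc 1 Y, (m : ℝ) ^ (-σ) ≤ (Y : ℝ) ^ (1 - σ) * (1 + Real.log Y) := by
    calc ∑ m ∈ Icc 1 Y, (m : ℝ) ^ (-σ) ≤ ∑ m ∈ Icc 1 Y, (Y : ℝ) ^ (1 - σ) * (1 / (m : ℝ)) := by
          apply Finset.sum_le_sum
          intro m hm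
          rw [mem_Icc] at hm
          have hm0 : (0 : ℝ) < m := by exact_mod_cast hm.1
          have h2 : (m : ℝ) ^ (-σ) = (m : ℝ) ^ (1 - σ) * (1 / (m : ℝ)) := by
            rw [show -σ = (1 - σ) - 1 by ring, Real.rpow_sub hm0, Real.rpow_one]
            ring
          rw [h2]
          apply mul_le_mul_of_nonneg_right _ (by positivity)
          exact Real.rpow_le_rpow hm0.le (by exact_mod_cast hm.2) (by linarith)
      _ = (Y : ℝ) ^ (1 - σ) * ∑ m ∈ Icc 1 Y, 1 / (m : ℝ) := by rw [Finset.mul_sum]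
      _ ≤ _ := mul_le_mul_of_nonneg_left (sum_inv_le Y) (by positivity)
  have h4 : ∑ p ∈ Icc 1 Y with p.Prime, 4 * f p ≤ 4 * ((Y : ℝ) ^ (1 - σ) * (1 + Real.log Y)) := by
    rw [← Finset.mul_sum]
    apply mul_le_mul_of_nonneg_left _ (by norm_num)
    refine le_trans ?_ h3
    apply Finset.sum_le_sum_of_subset_of_nonneg (Finset.filter_subset _ _)
    intro m _ _
    exact hf0 m
  refine (h1.trans h2).trans ?_
  rw [← Real.exp_sum]
  exact Real.exp_le_exp.mpr h4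

/-- the sum in Rankin's bound -/
theorem sum_Yp {Y z : ℕ} (hY : 1 ≤ Y) {α : ℝ} (hα : 0 < α) (hα1 : α ≤ 1 / 4)
    (hL1 : 1 ≤ Real.log z) :
    ∑ p ∈ Pool.Agent.Helper16.UB.PL z, ((Yp Y (p - 1) : ℕ) : ℝ) ^ α * (1 / (p : ℝ)) ≤
      Real.log z ^ ((1 : ℝ) / 2) * Pool.Agent.Helper16.UB.W z +
      (1 + Real.log z) * (Real.log z ^ (-(1 : ℝ) / 2) *
        Real.exp (4 * ((Y : ℝ) ^ (2 * α) * (1 + Real.log Y)))) := by
  classical
  obtain ⟨L, hL⟩ : ∃ L, L = Real.log z := ⟨_, rfl⟩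
  rw [← hL] at hL1 ⊢
  have hL0 : 0 < L := by linarith
  obtain ⟨K, hK⟩ : ∃ K : ℝ, K = L ^ (1 / (2 * α)) := ⟨_, rfl⟩
  have hK0 : 0 < K := by rw [hK]; positivity
  have hKα : K ^ α = L ^ ((1 : ℝ) / 2) := by
    rw [hK, ← Real.rpow_mul hL0.le]; congr 1; field_simp
  have hKα' : K ^ (-α) = L ^ (-(1 : ℝ) / 2) := by
    rw [hK, ← Real.rpow_mul hL0.le]; congr 1; field_simp
  rw [← Finset.sum_filter_add_sum_filter_not (Pool.Agent.Helper16.UB.PL z)
    (fun p => ((Yp Y (p - 1) : ℕ) : ℝ) ≤ K)]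
  have hA : ∑ p ∈ (Pool.Agent.Helper16.UB.PL z).filter (fun p => ((Yp Y (p - 1) : ℕ) : ℝ) ≤ K),
      ((Yp Y (p - 1) : ℕ) : ℝ) ^ α * (1 / (p : ℝ)) ≤
      L ^ ((1 : ℝ) / 2) * Pool.Agent.Helper16.UB.W z := by
    calc _ ≤ ∑ p ∈ (Pool.Agent.Helper16.UB.PL z).filter
          (fun p => ((Yp Y (p - 1) : ℕ) : ℝ) ≤ K), L ^ ((1 : ℝ) / 2) * (1 / (p : ℝ)) := by
          apply Finset.sum_le_sum
          intro p hp
          rw [mem_filter] at hp
          apply mul_le_mul_of_nonneg_right _ (by positivity)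
          rw [← hKα]
          exact Real.rpow_le_rpow (by positivity) hp.2 hα.le
      _ ≤ ∑ p ∈ Pool.Agent.Helper16.UB.PL z, L ^ ((1 : ℝ) / 2) * (1 / (p : ℝ)) := by
          apply Finset.sum_le_sum_of_subset_of_nonneg (Finset.filter_subset _ _)
          intro p _ _
          positivity
      _ = _ := by rw [← Finset.mul_sum]; rfl
  have hB : ∑ p ∈ (Pool.Agent.Helper16.UB.PL z).filter (fun p => ¬ ((Yp Y (p - 1) : ℕ) : ℝ) ≤ K),
      ((Yp Y (p - 1) : ℕ) : ℝ) ^ α * (1 / (p : ℝ)) ≤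
      (1 + L) * (L ^ (-(1 : ℝ) / 2) * Real.exp (4 * ((Y : ℝ) ^ (2 * α) * (1 + Real.log Y)))) := by
    set F := (Pool.Agent.Helper16.UB.PL z).filter (fun p => ¬ ((Yp Y (p - 1) : ℕ) : ℝ) ≤ K) with hF
    have hmaps : ∀ p ∈ F, Yp Y (p - 1) ∈ F.image (fun p => Yp Y (p - 1)) :=
      fun p hp => Finset.mem_image_of_mem _ hp
    rw [← Finset.sum_fiberwise_of_maps_to hmaps]
    have hterm : ∀ s ∈ F.image (fun p => Yp Y (p - 1)),
        ∑ p ∈ F.filter (fun p => Yp Y (p - 1) = s),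
          ((Yp Y (p - 1) : ℕ) : ℝ) ^ α * (1 / (p : ℝ)) ≤
          (1 + L) * (L ^ (-(1 : ℝ) / 2) * (s : ℝ) ^ (-(1 - 2 * α))) := by
      intro s hs
      obtain ⟨p₀, hp₀, rfl⟩ := Finset.mem_image.mp hs
      obtain ⟨s, hs'⟩ : ∃ s, s = Yp Y (p₀ - 1) := ⟨_, rfl⟩
      rw [← hs']
      have hs0 : 0 < s := by rw [hs']; exact Yp_pos _ _
      have hs0' : (0 : ℝ) < s := by exact_mod_cast hs0
      have hKs : K < s := by
        rw [hF, mem_filter, not_le] at hp₀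
        rw [hs']; exact hp₀.2
      have h1 : ∑ p ∈ F.filter (fun p => Yp Y (p - 1) = s),
          ((Yp Y (p - 1) : ℕ) : ℝ) ^ α * (1 / (p : ℝ)) =
          (s : ℝ) ^ α * ∑ p ∈ F.filter (fun p => Yp Y (p - 1) = s), 1 / (p : ℝ) := by
        rw [Finset.mul_sum]
        apply Finset.sum_congr rfl
        intro p hp
        rw [mem_filter] at hp
        rw [hp.2]
      have h2 := sum_ap z s hs0 (F.filter (fun p => Yp Y (p - 1) = s)) (by
        intro p hp
        rw [mem_filter, hF, mem_filter, Pool.Agent.Helper16.UB.mem_PL] at hp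
        have h3 := hp.1.1.2.two_le
        refine ⟨h3, hp.1.1.1, ?_⟩
        rw [← hp.2]
        exact Yp_dvd Y (by omega))
      rw [h1]
      rw [← hL] at h2
      calc (s : ℝ) ^ α * ∑ p ∈ F.filter (fun p => Yp Y (p - 1) = s), 1 / (p : ℝ)
          ≤ (s : ℝ) ^ α * ((1 + L) / s) := mul_le_mul_of_nonneg_left h2 (by positivity)
        _ = (1 + L) * ((s : ℝ) ^ (-α) * (s : ℝ) ^ (-(1 - 2 * α))) := by
            rw [← Real.rpow_add hs0', show -α + -(1 - 2 * α) = α - 1 by ring,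
              Real.rpow_sub hs0', Real.rpow_one]
            ring
        _ ≤ (1 + L) * (L ^ (-(1 : ℝ) / 2) * (s : ℝ) ^ (-(1 - 2 * α))) := by
            apply mul_le_mul_of_nonneg_left _ (by linarith)
            apply mul_le_mul_of_nonneg_right _ (by positivity)
            rw [← hKα']
            exact Real.rpow_le_rpow_of_nonpos hK0 hKs.le (by linarith)
    refine (Finset.sum_le_sum hterm).trans ?_
    rw [← Finset.mul_sum, ← Finset.mul_sum]
    apply mul_le_mul_of_nonneg_left _ (by linarith)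
    apply mul_le_mul_of_nonneg_left _ (by positivity)
    have h5 := sum_factored hY (σ := 1 - 2 * α) (by linarith) (by linarith)
      (F.image (fun p => Yp Y (p - 1))) (by
        intro s hs p hp hps
        obtain ⟨p₀, hp₀, rfl⟩ := Finset.mem_image.mp hs
        exact Yp_prime hp hps)
    rw [show 1 - (1 - 2 * α) = 2 * α by ring] at h5
    exact h5
  linarith

/-- a large smooth part of the totient is rare -/
theorem part_sparse (κ A : ℝ) (hκ : 0 < κ) (hA : 0 < A) : ∃ c : ℝ, 0 < c ∧ c ≤ κ / 8 ∧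
    ∃ z₀ : ℕ, ∀ z : ℕ, z₀ ≤ z → ∀ Y : ℕ, 1 ≤ Y → (Y : ℝ) ≤ Real.log (Real.log z) ^ A →
    ∀ U : Finset ℕ, (∀ t ∈ U, Squarefree t ∧ t ≤ z ∧ (z : ℝ) ^ κ ≤ ((Yp Y t.totient : ℕ) : ℝ)) →
    (#U : ℝ) ≤ (z : ℝ) ^ (1 - c) := by
  obtain ⟨C, hC⟩ := Pool.Agent.Helper16.UB.exists_W_le
  obtain ⟨α, hα⟩ : ∃ α : ℝ, α = min (1 / 4) (1 / (8 * A)) := ⟨_, rfl⟩
  have hα0 : 0 < α := by rw [hα]; exact lt_min (by norm_num) (by positivity)
  have hα1 : α ≤ 1 / 4 := by rw [hα]; exact min_le_left _ _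
  have hα2 : 2 * α * A ≤ 1 / 4 := by
    have : α ≤ 1 / (8 * A) := by rw [hα]; exact min_le_right _ _
    calc 2 * α * A ≤ 2 * (1 / (8 * A)) * A := by gcongr
      _ = 1 / 4 := by field_simp; norm_num
  obtain ⟨c, hc⟩ : ∃ c : ℝ, c = α * κ / 2 := ⟨_, rfl⟩
  have hc0 : 0 < c := by rw [hc]; positivity
  have hgrow : ∀ᶠ z : ℕ in atTop,
      (Real.log z ^ ((1 : ℝ) / 2) * (Real.log (Real.log z) + C) + 2 * Real.log z ^ ((3 : ℝ) / 4) ≤
      c * Real.log z ∧ 1 ≤ Real.log z) ∧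
      (4 * (Real.log (Real.log z) ^ ((1 : ℝ) / 4) * (1 + A * Real.log (Real.log (Real.log z)))) ≤
        1 / 4 * Real.log (Real.log z) ∧ 1 ≤ Real.log (Real.log z)) := by
    have hlog : Tendsto (fun z : ℕ => Real.log z) atTop atTop :=
      Real.tendsto_log_atTop.comp tendsto_natCast_atTop_atTop
    have hloglog : Tendsto (fun z : ℕ => Real.log (Real.log z)) atTop atTop :=
      Real.tendsto_log_atTop.comp hlog
    have h1 : ∀ᶠ L : ℝ in atTop,
        L ^ ((1 : ℝ) / 2) * (Real.log L + C) + 2 * L ^ ((3 : ℝ) / 4) ≤ c * L ∧ 1 ≤ L := by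
      have h2 : (fun L : ℝ => Real.log L + C) =o[atTop] fun L : ℝ => L ^ ((1 : ℝ) / 2) := by
        apply Asymptotics.IsLittleO.add
        · exact isLittleO_log_rpow_atTop (by norm_num)
        · rw [Asymptotics.isLittleO_const_left]
          right
          exact tendsto_norm_atTop_atTop.comp (tendsto_rpow_atTop (by norm_num))
      have h3 : ∀ᶠ L : ℝ in atTop, 4 / c ≤ L ^ ((1 : ℝ) / 4) :=
        (tendsto_rpow_atTop (by norm_num)).eventually (eventually_ge_atTop _)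
      filter_upwards [h2.bound (c := c / 2) (by positivity), eventually_ge_atTop (1 : ℝ), h3] with
        L h3 h4 h9
      refine ⟨?_, h4⟩
      have h5 : (0 : ℝ) < L := by linarith
      have h6 : 0 < L ^ ((1 : ℝ) / 2) := Real.rpow_pos_of_pos h5 _
      have h7 : 0 < L ^ ((3 : ℝ) / 4) := Real.rpow_pos_of_pos h5 _
      have h8 := (Real.le_norm_self _).trans h3
      rw [Real.norm_of_nonneg h6.le] at h8
      have e1 : L ^ ((1 : ℝ) / 2) * (Real.log L + C) ≤ c / 2 * L := by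
        calc L ^ ((1 : ℝ) / 2) * (Real.log L + C)
            ≤ L ^ ((1 : ℝ) / 2) * (c / 2 * L ^ ((1 : ℝ) / 2)) := mul_le_mul_of_nonneg_left h8 h6.le
          _ = c / 2 * (L ^ ((1 : ℝ) / 2) * L ^ ((1 : ℝ) / 2)) := by ring
          _ = c / 2 * L := by rw [← Real.rpow_add h5]; norm_num
      have e2 : 2 * L ^ ((3 : ℝ) / 4) ≤ c / 2 * L := by
        have e3 : 4 ≤ c * L ^ ((1 : ℝ) / 4) := by
          rw [div_le_iff₀ hc0] at h9; linarith
        calc 2 * L ^ ((3 : ℝ) / 4) = 4 * L ^ ((3 : ℝ) / 4) / 2 := by ring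
          _ ≤ (c * L ^ ((1 : ℝ) / 4)) * L ^ ((3 : ℝ) / 4) / 2 := by
              apply div_le_div_of_nonneg_right _ (by norm_num)
              exact mul_le_mul_of_nonneg_right e3 h7.le
          _ = c / 2 * (L ^ ((1 : ℝ) / 4) * L ^ ((3 : ℝ) / 4)) := by ring
          _ = c / 2 * L := by rw [← Real.rpow_add h5]; norm_num
      linarith
    have h2 : ∀ᶠ l : ℝ in atTop, 4 * (l ^ ((1 : ℝ) / 4) * (1 + A * Real.log l)) ≤ 1 / 4 * l ∧ 1 ≤ l := by
      have h2 : (fun L : ℝ => 1 + A * Real.log L) =o[atTop] fun L : ℝ => L ^ ((3 : ℝ) / 4) := by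
        apply Asymptotics.IsLittleO.add
        · rw [Asymptotics.isLittleO_const_left]
          right
          exact tendsto_norm_atTop_atTop.comp (tendsto_rpow_atTop (by norm_num))
        · exact (isLittleO_log_rpow_atTop (by norm_num)).const_mul_left A
      filter_upwards [h2.bound (c := 1 / 16) (by norm_num), eventually_ge_atTop (1 : ℝ)] with l h3 h4
      refine ⟨?_, h4⟩
      have h5 : (0 : ℝ) < l := by linarith
      have h6 : 0 < l ^ ((1 : ℝ) / 4) := Real.rpow_pos_of_pos h5 _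
      have h7 : 0 < l ^ ((3 : ℝ) / 4) := Real.rpow_pos_of_pos h5 _
      have h8 := (Real.le_norm_self _).trans h3
      rw [Real.norm_of_nonneg h7.le] at h8
      calc 4 * (l ^ ((1 : ℝ) / 4) * (1 + A * Real.log l))
          ≤ 4 * (l ^ ((1 : ℝ) / 4) * (1 / 16 * l ^ ((3 : ℝ) / 4))) := by gcongr
        _ = 1 / 4 * (l ^ ((1 : ℝ) / 4) * l ^ ((3 : ℝ) / 4)) := by ring
        _ = 1 / 4 * l := by rw [← Real.rpow_add h5]; norm_num
    exact (hlog.eventually h1).and (hloglog.eventually h2)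
  obtain ⟨z₁, hz₁⟩ := eventually_atTop.mp hgrow
  refine ⟨c, hc0, ?_, max z₁ 2, fun z hz Y hY hYl U hU => ?_⟩
  · rw [hc]
    nlinarith
  obtain ⟨⟨hg, hL1⟩, hg2, hl1⟩ := hz₁ z (le_trans (le_max_left _ _) hz)
  have hz2 : 2 ≤ z := le_trans (le_max_right _ _) hz
  have hzp : (0 : ℝ) < z := by positivity
  have hS := sum_Yp (z := z) hY hα0 hα1 hL1
  have hW := hC z hz2
  obtain ⟨L, hL⟩ : ∃ L, L = Real.log z := ⟨_, rfl⟩
  obtain ⟨l, hl⟩ : ∃ l, l = Real.log L := ⟨_, rfl⟩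
  rw [← hL] at hg hL1 hg2 hl1 hYl hS hW
  rw [← hl] at hg hg2 hl1 hYl hW
  have hL0 : 0 < L := by linarith
  have hl0 : 0 < l := by linarith
  have hYp : (0 : ℝ) < Y := by exact_mod_cast hY
  have hexp : Real.exp (4 * ((Y : ℝ) ^ (2 * α) * (1 + Real.log Y))) ≤ L ^ ((1 : ℝ) / 4) := by
    rw [Real.rpow_def_of_pos hL0, ← hl]
    apply Real.exp_le_exp.mpr
    have e1 : (Y : ℝ) ^ (2 * α) ≤ l ^ ((1 : ℝ) / 4) := by
      calc (Y : ℝ) ^ (2 * α) ≤ (l ^ A) ^ (2 * α) := Real.rpow_le_rpow hYp.le hYl (by positivity)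
        _ = l ^ (2 * α * A) := by rw [← Real.rpow_mul hl0.le]; congr 1; ring
        _ ≤ l ^ ((1 : ℝ) / 4) := Real.rpow_le_rpow_of_exponent_le hl1 hα2
    have e2 : 1 + Real.log Y ≤ 1 + A * Real.log l := by
      have := Real.log_le_log hYp hYl
      rw [Real.log_rpow hl0] at this
      linarith
    have e3 : 0 ≤ 1 + Real.log Y := by
      have : 0 ≤ Real.log Y := Real.log_nonneg (by exact_mod_cast hY)
      linarith
    calc 4 * ((Y : ℝ) ^ (2 * α) * (1 + Real.log Y))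
        ≤ 4 * (l ^ ((1 : ℝ) / 4) * (1 + A * Real.log l)) := by
          apply mul_le_mul_of_nonneg_left _ (by norm_num)
          exact mul_le_mul e1 e2 e3 (by positivity)
      _ ≤ 1 / 4 * l := hg2
      _ = l * (1 / 4) := by ring
  have hS2 : ∑ p ∈ Pool.Agent.Helper16.UB.PL z, ((Yp Y (p - 1) : ℕ) : ℝ) ^ α * (1 / (p : ℝ)) ≤
      c * L := by
    refine hS.trans (le_trans ?_ hg)
    apply add_le_add
    · exact mul_le_mul_of_nonneg_left hW (by positivity)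
    · calc (1 + L) * (L ^ (-(1 : ℝ) / 2) * Real.exp (4 * ((Y : ℝ) ^ (2 * α) * (1 + Real.log Y))))
          ≤ (2 * L) * (L ^ (-(1 : ℝ) / 2) * L ^ ((1 : ℝ) / 4)) := by
            apply mul_le_mul (by linarith) _ (by positivity) (by positivity)
            exact mul_le_mul_of_nonneg_left hexp (by positivity)
        _ = 2 * (L ^ (1 : ℝ) * (L ^ (-(1 : ℝ) / 2) * L ^ ((1 : ℝ) / 4))) := by
            rw [Real.rpow_one]; ring
        _ = 2 * L ^ ((3 : ℝ) / 4) := by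
            rw [← Real.rpow_add hL0, ← Real.rpow_add hL0]; norm_num
  have hR := rankin U (Pool.Agent.Helper16.UB.PL z)
    (fun p => ((Yp Y (p - 1) : ℕ) : ℝ) ^ α * (1 / (p : ℝ))) (fun p _ => by positivity) (by
    intro t ht
    obtain ⟨h1, h2, h3⟩ := hU t ht
    refine ⟨h1, fun p hp => ?_⟩
    rw [Pool.Agent.Helper16.UB.mem_PL]
    exact ⟨(Nat.le_of_mem_primeFactors hp).trans h2, Nat.prime_of_mem_primeFactors hp⟩)
  have h4 : ∀ t ∈ U, (1 : ℝ) ≤ (z : ℝ) ^ (1 - 2 * c) *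
      ∏ p ∈ t.primeFactors, (((Yp Y (p - 1) : ℕ) : ℝ) ^ α * (1 / (p : ℝ))) := by
    intro t ht
    obtain ⟨h1, h2, h3⟩ := hU t ht
    have ht0 : 0 < t := Nat.pos_of_ne_zero h1.ne_zero
    have ht0' : (0 : ℝ) < t := by exact_mod_cast ht0
    have h5 : ∏ p ∈ t.primeFactors, (((Yp Y (p - 1) : ℕ) : ℝ) ^ α * (1 / (p : ℝ))) =
        ((Yp Y t.totient : ℕ) : ℝ) ^ α * (1 / (t : ℝ)) := by
      rw [Finset.prod_mul_distrib, Real.finsetProd_rpow _ _ (fun p _ => by positivity),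
        ← Nat.cast_prod, ← Yp_totient Y h1]
      congr 1
      simp only [one_div]
      rw [Finset.prod_inv_distrib, ← Nat.cast_prod, Nat.prod_primeFactors_of_squarefree h1]
    rw [h5]
    have h6 : (z : ℝ) ^ (2 * c) ≤ ((Yp Y t.totient : ℕ) : ℝ) ^ α := by
      calc (z : ℝ) ^ (2 * c) = ((z : ℝ) ^ κ) ^ α := by
            rw [← Real.rpow_mul hzp.le]; congr 1; rw [hc]; ring
        _ ≤ _ := Real.rpow_le_rpow (by positivity) h3 hα0.le
    have h7 : (1 : ℝ) / z ≤ 1 / t := by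
      apply one_div_le_one_div_of_le ht0'
      exact_mod_cast h2
    calc (1 : ℝ) = (z : ℝ) ^ (1 - 2 * c) * ((z : ℝ) ^ (2 * c) * (1 / (z : ℝ))) := by
          rw [← mul_assoc, ← Real.rpow_add hzp]
          rw [show 1 - 2 * c + 2 * c = 1 by ring, Real.rpow_one]
          field_simp
      _ ≤ _ := by
          apply mul_le_mul_of_nonneg_left _ (by positivity)
          exact mul_le_mul h6 h7 (by positivity) (by positivity)
  calc (#U : ℝ) = ∑ t ∈ U, (1 : ℝ) := by simp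
    _ ≤ ∑ t ∈ U, (z : ℝ) ^ (1 - 2 * c) *
      ∏ p ∈ t.primeFactors, (((Yp Y (p - 1) : ℕ) : ℝ) ^ α * (1 / (p : ℝ))) := Finset.sum_le_sum h4
    _ = (z : ℝ) ^ (1 - 2 * c) * ∑ t ∈ U,
      ∏ p ∈ t.primeFactors, (((Yp Y (p - 1) : ℕ) : ℝ) ^ α * (1 / (p : ℝ))) := by rw [Finset.mul_sum]
    _ ≤ (z : ℝ) ^ (1 - 2 * c) * Real.exp (c * L) := by
        apply mul_le_mul_of_nonneg_left _ (by positivity)
        exact hR.trans (Real.exp_le_exp.mpr hS2)
    _ = (z : ℝ) ^ (1 - c) := by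
        have h6 : Real.exp (c * L) = (z : ℝ) ^ c := by
          rw [Real.rpow_def_of_pos hzp, ← hL, mul_comm]
        rw [h6, ← Real.rpow_add hzp]
        congr 1
        ring

end Pool.Agent.Helper6.SD
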