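import Mathlib
import Pool.Agent.Helper6.SD.Main2
import Pool.Agent.Helper6.SD.Part

/-!
# Structure of the Lehmer numbers, part 9: the smooth part of `n - 1`
-/

namespace Pool.Agent.Helper6.SD

open Finset Filter Pool.Agent.Helper6.Lehmer Pool.Agent.Helper6.LehmerCount

/-- the smooth part of `n - 1` and of `φ(n)` -/
theorem Yp_le_mul {n : ℕ} (Y : ℕ) (h : IsLehmer n) :
    Yp Y (n - 1) ≤ Yp Y n.totient * n.primeFactors.card := by
  obtain ⟨K, hK, hK0, hK1⟩ := quot_le h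
  have h1 := h.one_lt
  have hphi : n.totient ≠ 0 := (Nat.totient_pos.mpr (by omega)).ne'
  rw [hK, Yp_mul Y hphi hK0.ne']
  exact Nat.mul_le_mul_left _ ((Yp_le Y hK0.ne').trans hK1)

/-- growth of the iterated logarithm -/
theorem loglog_large (A : ℝ) (hA : 0 < A) : ∃ x₀ : ℕ, ∀ x : ℕ, x₀ ≤ x →
    1 ≤ Real.log (Real.log x) ∧ ∀ z : ℕ, (x : ℝ) ^ ((1 : ℝ) / 2) ≤ z →
      Real.log (Real.log x) ^ A ≤ Real.log (Real.log z) ^ (A + 1) := by
  have h1 : Tendsto (fun x : ℕ => Real.log (Real.log x)) atTop atTop :=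
    Real.tendsto_log_atTop.comp (Real.tendsto_log_atTop.comp tendsto_natCast_atTop_atTop)
  obtain ⟨x₀, hx₀⟩ := eventually_atTop.mp ((h1.eventually (eventually_ge_atTop
    (max 2 ((2 : ℝ) ^ (A + 1))))).and ((Real.tendsto_log_atTop.comp
      (tendsto_natCast_atTop_atTop (R := ℝ))).eventually (eventually_ge_atTop 1)))
  refine ⟨max x₀ 1, fun x hx => ?_⟩
  obtain ⟨h2, h3⟩ := hx₀ x ((le_max_left _ _).trans hx)
  simp only [Function.comp] at h3
  have hx1 : 1 ≤ x := (le_max_right _ _).trans hx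
  have hxp : (0 : ℝ) < x := by exact_mod_cast hx1
  have h4 : (2 : ℝ) ≤ Real.log (Real.log x) := (le_max_left _ _).trans h2
  have h5 : (2 : ℝ) ^ (A + 1) ≤ Real.log (Real.log x) := (le_max_right _ _).trans h2
  refine ⟨by linarith, fun z hz => ?_⟩
  obtain ⟨l, hl⟩ : ∃ l, l = Real.log (Real.log x) := ⟨_, rfl⟩
  rw [← hl] at h4 h5 ⊢
  have hl0 : 0 < l := by linarith
  have h6 : Real.log x / 2 ≤ Real.log z := by
    have := Real.log_le_log (by positivity) hz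
    rw [Real.log_rpow hxp] at this
    linarith
  have h7 : l / 2 ≤ Real.log (Real.log z) := by
    have e1 := Real.log_le_log (by positivity) h6
    rw [Real.log_div (by linarith) (by norm_num), ← hl] at e1
    have e2 : Real.log 2 ≤ 1 := by have := Real.log_two_lt_d9; linarith
    linarith
  calc l ^ A = l ^ A * 1 := (mul_one _).symm
    _ ≤ l ^ A * (l / (2 : ℝ) ^ (A + 1)) := by
        apply mul_le_mul_of_nonneg_left _ (by positivity)
        rw [le_div_iff₀ (by positivity), one_mul]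
        exact h5
    _ = (l / 2) ^ (A + 1) := by
        rw [Real.div_rpow hl0.le (by norm_num), Real.rpow_add hl0, Real.rpow_one]
        ring
    _ ≤ Real.log (Real.log z) ^ (A + 1) := Real.rpow_le_rpow (by positivity) h7 (by linarith)

/-- few Lehmer numbers `n` are such that `n - 1` has a large part of very small primes -/
theorem part_main (ε A : ℝ) (hε : 0 < ε) (hε1 : ε ≤ 1) (hA : 0 < A) : ∃ δ : ℝ, 0 < δ ∧
    ∃ x₀ : ℕ, ∀ x : ℕ, x₀ ≤ x → ∀ S : Finset ℕ,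
      (∀ n ∈ S, IsLehmer n ∧ n ≤ x ∧
        (n : ℝ) ^ ε ≤ ((Yp ⌊Real.log (Real.log n) ^ A⌋₊ (n - 1) : ℕ) : ℝ)) →
      (#S : ℝ) ≤ (x : ℝ) ^ ((1 : ℝ) / 2 - δ) := by
  classical
  obtain ⟨κ, hκ⟩ : ∃ κ : ℝ, κ = ε / 8 := ⟨_, rfl⟩
  have hκ0 : 0 < κ := by rw [hκ]; positivity
  obtain ⟨c, hc0, hcκ, z₀, hz₀⟩ := part_sparse κ (A + 1) hκ0 (by positivity)
  obtain ⟨η, hη⟩ : ∃ η : ℝ, η = c / 128 := ⟨_, rfl⟩
  have hη0 : 0 < η := by rw [hη]; positivity
  have hη1 : η ≤ 1 / 8192 := by rw [hη]; rw [hκ] at hcκ; linarith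
  have hη2 : η ≤ ε / 4 := by rw [hη]; rw [hκ] at hcκ; linarith
  have hc1 : c ≤ 1 := by rw [hκ] at hcκ; linarith
  obtain ⟨δ₁, hδ₁, x₁, h₁⟩ := reduce η hη0 (by linarith)
  obtain ⟨x₂, h₂⟩ := count_main η hη0
  obtain ⟨x₃, h₃⟩ := log_small η hη0
  obtain ⟨x₄, h₄⟩ := rpow_large η 2 hη0
  obtain ⟨x₅, h₅⟩ := rpow_large ((1 : ℝ) / 2) (z₀ + 1) (by norm_num)
  obtain ⟨x₆, h₆⟩ := absorb (a := (1 : ℝ) / 2 - min δ₁ (c / 4) / 2)
    (b := (1 : ℝ) / 2 - min δ₁ (c / 4)) (C := 3) (by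
      have : 0 < min δ₁ (c / 4) := lt_min hδ₁ (by positivity)
      linarith)
  obtain ⟨x₇, h₇⟩ := loglog_large A hA
  obtain ⟨x₈, h₈⟩ := rpow_large ((1 : ℝ) / 2) (x₇ + 1) (by norm_num)
  refine ⟨min δ₁ (c / 4) / 2, by positivity, x₁ + x₂ + x₃ + x₄ + x₅ + x₆ + x₇ + x₈ + 1,
    fun x hx S hS => ?_⟩
  have g₁ := h₁ x (by omega) S ((x : ℝ) ^ ((1 : ℝ) / 2 - c / 4)) (fun n hn => ⟨(hS n hn).1, (hS n hn).2.1⟩)
  have g₂ := h₂ x (by omega)
  obtain ⟨g₃, g₃'⟩ := h₃ x (by omega)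
  have g₄ := h₄ x (by omega)
  have g₅ := h₅ x (by omega)
  have g₆ := h₆ x (by omega)
  obtain ⟨g₇, g₇'⟩ := h₇ x (by omega)
  have g₈ := h₈ x (by omega)
  have hxr : (1 : ℝ) ≤ x := by exact_mod_cast g₃'
  have hxp : (0 : ℝ) < x := by linarith
  obtain ⟨Y, hY⟩ : ∃ Y : ℕ, Y = ⌊Real.log (Real.log x) ^ A⌋₊ := ⟨_, rfl⟩
  have hYle : (Y : ℝ) ≤ Real.log (Real.log x) ^ A := by
    rw [hY]; exact Nat.floor_le (by positivity)
  have hY1 : 1 ≤ Y := by
    rw [hY]; exact Nat.le_floor (by rw [Nat.cast_one]; exact Real.one_le_rpow g₇ hA.le)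
  have key : ∀ S' ⊆ S, (∀ n ∈ S', (x : ℝ) ^ (1 - η) < n ∧
      ∀ p : ℕ, p.Prime → p ∣ n → (p : ℝ) < (x : ℝ) ^ η) →
      (#S' : ℝ) ≤ (x : ℝ) ^ ((1 : ℝ) / 2 - c / 4) := by
    intro S' hS' hsm
    obtain ⟨D, hD⟩ : ∃ D : ℝ, D = (x : ℝ) ^ ((1 : ℝ) / 2 + 2 * η) := ⟨_, rfl⟩
    have hD0 : 0 ≤ D := by rw [hD]; positivity
    have hDx : D ≤ x := by
      rw [hD]
      calc (x : ℝ) ^ ((1 : ℝ) / 2 + 2 * η) ≤ (x : ℝ) ^ (1 : ℝ) :=
            Real.rpow_le_rpow_of_exponent_le hxr (by linarith)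
        _ = x := Real.rpow_one _
    have hxη : 0 < (x : ℝ) ^ η := by positivity
    have hx2 : 0 < (x : ℝ) ^ ((1 : ℝ) / 2) := by positivity
    have hx21 : 1 ≤ (x : ℝ) ^ ((1 : ℝ) / 2) := Real.one_le_rpow hxr (by norm_num)
    have hD3 : 2 * (x : ℝ) ^ ((1 : ℝ) / 2) ≤ D := by
      have e1 : D = (x : ℝ) ^ ((1 : ℝ) / 2) * ((x : ℝ) ^ η * (x : ℝ) ^ η) := by
        rw [hD, ← Real.rpow_add hxp, ← Real.rpow_add hxp]; congr 1; ring
      have e2 : (2 : ℝ) ≤ (x : ℝ) ^ η * (x : ℝ) ^ η := by nlinarith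
      rw [e1, mul_comm]
      exact mul_le_mul_of_nonneg_left e2 hx2.le
    obtain ⟨z, hz⟩ : ∃ z : ℕ, z = ⌊D⌋₊ := ⟨_, rfl⟩
    have hzD : (z : ℝ) ≤ D := by rw [hz]; exact Nat.floor_le hD0
    have hzl : (x : ℝ) ^ ((1 : ℝ) / 2) ≤ z := by
      have := Nat.lt_floor_add_one D
      rw [← hz] at this
      linarith
    have hzz : z₀ ≤ z := by
      have : (z₀ : ℝ) ≤ z := by linarith
      exact_mod_cast this
    set V : Finset ℕ := (Icc 1 z).filter (fun t => Squarefree t ∧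
      (z : ℝ) ^ κ ≤ ((Yp Y t.totient : ℕ) : ℝ)) with hV
    have hVc : (#V : ℝ) ≤ D ^ (1 - c) := by
      refine (hz₀ z hzz Y hY1 (hYle.trans (g₇' z hzl)) V ?_).trans ?_
      · intro t ht
        rw [hV, mem_filter, mem_Icc] at ht
        exact ⟨ht.2.1, ht.1.2, ht.2.2⟩
      · exact Real.rpow_le_rpow (by positivity) hzD (by linarith)
    have hcount := g₂ S' V (by
      intro n hn
      obtain ⟨a, b, hu⟩ := hS n (hS' hn)
      obtain ⟨hn1, hn2⟩ := hsm n hn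
      refine ⟨a, b, ?_⟩
      have hn0 : 0 < n := by have := a.one_lt; omega
      have hbr : (n : ℝ) ≤ x := by exact_mod_cast b
      have hnr : (1 : ℝ) < n := by exact_mod_cast a.one_lt
      -- size of n
      have hn3 : (x : ℝ) ^ ((1 : ℝ) / 2) ≤ n := by
        refine le_trans (Real.rpow_le_rpow_of_exponent_le hxr (by linarith)) hn1.le
      have hn7 : x₇ ≤ n := by
        have : (x₇ : ℝ) ≤ n := by linarith
        exact_mod_cast this
      obtain ⟨hl1, -⟩ := h₇ n hn7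
      -- the bound for small primes
      have hYn : ⌊Real.log (Real.log n) ^ A⌋₊ ≤ Y := by
        rw [hY]
        apply Nat.floor_le_floor
        apply Real.rpow_le_rpow (by linarith) _ hA.le
        have hln : 0 < Real.log n := Real.log_pos hnr
        exact Real.log_le_log hln (Real.log_le_log (by linarith) hbr)
      -- number of prime factors
      have hcard : (n.primeFactors.card : ℝ) ≤ 1 / 4 * (x : ℝ) ^ η := by
        have e1 := card_primeFactors_le hn0.ne'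
        have e2 : n.primeFactors.card ≤ Nat.log 2 x := e1.trans (Nat.log_mono_right b)
        have e3 : (n.primeFactors.card : ℝ) ≤ ((Nat.log 2 x : ℕ) : ℝ) := by exact_mod_cast e2
        linarith
      -- the smooth part of φ(n)
      have hval : (x : ℝ) ^ (ε / 4) ≤ ((Yp Y n.totient : ℕ) : ℝ) := by
        have e1 := Yp_le_mul Y a
        have e1' := Yp_mono_left hYn (n - 1)
        have e2 : ((Yp Y (n - 1) : ℕ) : ℝ) ≤ ((Yp Y n.totient : ℕ) : ℝ) * n.primeFactors.card := by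
          exact_mod_cast e1
        have e2' : ((Yp ⌊Real.log (Real.log n) ^ A⌋₊ (n - 1) : ℕ) : ℝ) ≤ ((Yp Y (n - 1) : ℕ) : ℝ) := by
          exact_mod_cast e1'
        have e3 : (x : ℝ) ^ (ε / 2) ≤ (n : ℝ) ^ ε := by
          calc (x : ℝ) ^ (ε / 2) = ((x : ℝ) ^ ((1 : ℝ) / 2)) ^ ε := by
                rw [← Real.rpow_mul hxp.le]; congr 1; ring
            _ ≤ (n : ℝ) ^ ε := Real.rpow_le_rpow hx2.le hn3 hε.le
        have e4 : (n.primeFactors.card : ℝ) ≤ (x : ℝ) ^ (ε / 4) := by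
          have : (x : ℝ) ^ η ≤ (x : ℝ) ^ (ε / 4) := Real.rpow_le_rpow_of_exponent_le hxr hη2
          linarith
        have e5 : (x : ℝ) ^ (ε / 2) = (x : ℝ) ^ (ε / 4) * (x : ℝ) ^ (ε / 4) := by
          rw [← Real.rpow_add hxp]; congr 1; ring
        have e6 : 0 < (x : ℝ) ^ (ε / 4) := by positivity
        have e7 : (x : ℝ) ^ (ε / 4) * (x : ℝ) ^ (ε / 4) ≤
            ((Yp Y n.totient : ℕ) : ℝ) * (x : ℝ) ^ (ε / 4) := by
          rw [← e5]
          exact ((e3.trans hu).trans e2').trans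
            (e2.trans (mul_le_mul_of_nonneg_left e4 (by positivity)))
        exact le_of_mul_le_mul_right e7 e6
      -- the two halves
      obtain ⟨B, hB⟩ : ∃ B : ℝ, B = (x : ℝ) ^ ((1 : ℝ) / 2 - η) := ⟨_, rfl⟩
      have hB0 : 0 < B := by rw [hB]; positivity
      have hB1 : 1 ≤ B := by rw [hB]; exact Real.one_le_rpow hxr (by linarith)
      have hBη : B * (x : ℝ) ^ η = (x : ℝ) ^ ((1 : ℝ) / 2) := by
        rw [hB, ← Real.rpow_add hxp]; congr 1; ring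
      have hBn : B + 1 ≤ n := by
        have e2 : (x : ℝ) ^ ((1 : ℝ) / 2) = B * (x : ℝ) ^ η := hBη.symm
        have e3 : B * 2 ≤ B * (x : ℝ) ^ η := mul_le_mul_of_nonneg_left g₄ hB0.le
        linarith
      obtain ⟨w, hw⟩ : ∃ w, w = ⌈B⌉₊ := ⟨_, rfl⟩
      have hw1 : B ≤ w := by rw [hw]; exact Nat.le_ceil _
      have hw2 : (w : ℝ) ≤ B + 1 := by rw [hw]; exact (Nat.ceil_lt_add_one hB0.le).le
      have hwn : w ≤ n := by exact_mod_cast hw2.trans hBn
      obtain ⟨d, -, hdn, hwd, hd⟩ := exists_div (t := 1) (Y := ⌊(x : ℝ) ^ η⌋₊) hn0 (one_dvd n)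
        (fun p hp hpn => Nat.le_floor (hn2 p hp hpn).le) hwn
      obtain ⟨m, hm⟩ := hdn
      have hd0 : 0 < d := Nat.pos_of_dvd_of_pos (Dvd.intro m hm.symm) hn0
      have hm0 : 0 < m := by
        rcases Nat.eq_zero_or_pos m with h | h
        · rw [h, mul_zero] at hm; omega
        · exact h
      have hd0' : (0 : ℝ) < d := by exact_mod_cast hd0
      have hm0' : (0 : ℝ) < m := by exact_mod_cast hm0
      have hBd : B ≤ d := hw1.trans (by exact_mod_cast hwd)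
      have hd3 : (d : ℝ) ≤ 2 * (x : ℝ) ^ ((1 : ℝ) / 2) := by
        rcases hd with hd | hd
        · have e1 : (d : ℝ) ≤ 1 := by exact_mod_cast hd
          linarith
        · have e1 : (d : ℝ) ≤ w * (⌊(x : ℝ) ^ η⌋₊ : ℝ) := by exact_mod_cast hd
          have e2 : (⌊(x : ℝ) ^ η⌋₊ : ℝ) ≤ (x : ℝ) ^ η := Nat.floor_le hxη.le
          calc (d : ℝ) ≤ w * (⌊(x : ℝ) ^ η⌋₊ : ℝ) := e1
            _ ≤ (B + 1) * (x : ℝ) ^ η := mul_le_mul hw2 e2 (by positivity) (by positivity)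
            _ ≤ (2 * B) * (x : ℝ) ^ η := mul_le_mul_of_nonneg_right (by linarith) hxη.le
            _ = 2 * (x : ℝ) ^ ((1 : ℝ) / 2) := by rw [mul_assoc, hBη]
      have hmn : (n : ℝ) = d * m := by exact_mod_cast hm
      have hmD : (m : ℝ) ≤ D := by
        have e1 : B * m ≤ x := by
          calc B * m ≤ d * m := mul_le_mul_of_nonneg_right hBd hm0'.le
            _ = n := hmn.symm
            _ ≤ x := hbr
        have e2 : B * D = (x : ℝ) ^ (1 + η) := by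
          rw [hB, hD, ← Real.rpow_add hxp]; congr 1; ring
        have e3 : (x : ℝ) ≤ (x : ℝ) ^ (1 + η) := by
          calc (x : ℝ) = (x : ℝ) ^ (1 : ℝ) := (Real.rpow_one _).symm
            _ ≤ _ := Real.rpow_le_rpow_of_exponent_le hxr (by linarith)
        have e4 : B * m ≤ B * D := by rw [e2]; exact e1.trans e3
        exact le_of_mul_le_mul_left e4 hB0
      have hlow : (x : ℝ) ^ ((1 : ℝ) / 2 - 2 * η) ≤ B := by
        rw [hB]; exact Real.rpow_le_rpow_of_exponent_le hxr (by linarith)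
      have hmlow : (x : ℝ) ^ ((1 : ℝ) / 2 - 2 * η) ≤ m := by
        have e1 : (x : ℝ) ^ (1 - η) ≤ 2 * (x : ℝ) ^ ((1 : ℝ) / 2) * m := by
          calc (x : ℝ) ^ (1 - η) ≤ n := hn1.le
            _ = d * m := hmn
            _ ≤ 2 * (x : ℝ) ^ ((1 : ℝ) / 2) * m := mul_le_mul_of_nonneg_right hd3 hm0'.le
        have e2 : (x : ℝ) ^ (1 - η) = (x : ℝ) ^ ((1 : ℝ) / 2) * ((x : ℝ) ^ η * (x : ℝ) ^ ((1 : ℝ) / 2 - 2 * η)) := by
          rw [← Real.rpow_add hxp, ← Real.rpow_add hxp]; congr 1; ring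
        have e3 : 2 * (x : ℝ) ^ ((1 : ℝ) / 2 - 2 * η) ≤ (x : ℝ) ^ η * (x : ℝ) ^ ((1 : ℝ) / 2 - 2 * η) :=
          mul_le_mul_of_nonneg_right g₄ (by positivity)
        have e4 : (x : ℝ) ^ ((1 : ℝ) / 2) * (2 * (x : ℝ) ^ ((1 : ℝ) / 2 - 2 * η)) ≤
            (x : ℝ) ^ ((1 : ℝ) / 2) * (2 * m) := by
          calc _ ≤ (x : ℝ) ^ ((1 : ℝ) / 2) * ((x : ℝ) ^ η * (x : ℝ) ^ ((1 : ℝ) / 2 - 2 * η)) :=
                mul_le_mul_of_nonneg_left e3 hx2.le
            _ = (x : ℝ) ^ (1 - η) := e2.symm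
            _ ≤ 2 * (x : ℝ) ^ ((1 : ℝ) / 2) * m := e1
            _ = _ := by ring
        have e5 := le_of_mul_le_mul_left e4 hx2
        linarith
      have hsq : Squarefree (d * m) := by rw [← hm]; exact a.squarefree
      have hcop : Nat.Coprime d m := Nat.coprime_of_squarefree_mul hsq
      have hφ : Yp Y n.totient = Yp Y d.totient * Yp Y m.totient := by
        rw [hm, Nat.totient_mul hcop, Yp_mul Y (Nat.totient_pos.mpr hd0).ne'
          (Nat.totient_pos.mpr hm0).ne']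
      have hzκ : (z : ℝ) ^ κ ≤ (x : ℝ) ^ (ε / 8) := by
        rw [hκ]
        exact Real.rpow_le_rpow (by positivity) (hzD.trans hDx) (by positivity)
      have hmem : ∀ t : ℕ, 0 < t → (t : ℝ) ≤ D → Squarefree t →
          (x : ℝ) ^ (ε / 8) ≤ ((Yp Y t.totient : ℕ) : ℝ) → t ∈ V := by
        intro t ht htD hts htv
        rw [hV, mem_filter, mem_Icc]
        exact ⟨⟨ht, by rw [hz]; exact Nat.le_floor htD⟩, hts, hzκ.trans htv⟩
      by_cases hdv : (x : ℝ) ^ (ε / 8) ≤ ((Yp Y d.totient : ℕ) : ℝ)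
      · exact ⟨d, hmem d hd0 (hd3.trans hD3) (Nat.squarefree_mul_iff.mp hsq).2.1 hdv,
          Dvd.intro m hm.symm, hlow.trans hBd⟩
      · rw [not_le] at hdv
        have hmv : (x : ℝ) ^ (ε / 8) ≤ ((Yp Y m.totient : ℕ) : ℝ) := by
          by_contra hcon
          rw [not_le] at hcon
          have e1 : ((Yp Y n.totient : ℕ) : ℝ) =
              ((Yp Y d.totient : ℕ) : ℝ) * ((Yp Y m.totient : ℕ) : ℝ) := by
            exact_mod_cast hφ
          have e2 : (x : ℝ) ^ (ε / 4) = (x : ℝ) ^ (ε / 8) * (x : ℝ) ^ (ε / 8) := by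
            rw [← Real.rpow_add hxp]; congr 1; ring
          rw [e1, e2] at hval
          have e3 : ((Yp Y d.totient : ℕ) : ℝ) * ((Yp Y m.totient : ℕ) : ℝ) <
              (x : ℝ) ^ (ε / 8) * (x : ℝ) ^ (ε / 8) :=
            mul_lt_mul'' hdv hcon (by positivity) (by positivity)
          linarith
        exact ⟨m, hmem m hm0 hmD (Nat.squarefree_mul_iff.mp hsq).2.2 hmv,
          Dvd.intro_left d hm.symm, hmlow⟩)
    calc (#S' : ℝ) ≤ #V * (x : ℝ) ^ (5 * η) := hcount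
      _ ≤ D ^ (1 - c) * (x : ℝ) ^ (5 * η) :=
          mul_le_mul_of_nonneg_right hVc (by positivity)
      _ = (x : ℝ) ^ (5 * η + ((1 : ℝ) / 2 + 2 * η) * (1 - c)) := by
          rw [hD, ← Real.rpow_mul hxp.le, ← Real.rpow_add hxp]
          congr 1
          ring
      _ ≤ (x : ℝ) ^ ((1 : ℝ) / 2 - c / 4) := by
          apply Real.rpow_le_rpow_of_exponent_le hxr
          have e1 : 0 ≤ η * c := by positivity
          have e2 : 128 * η = c := by rw [hη]; ring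
          nlinarith
  have g := g₁ key
  have hd1 : (x : ℝ) ^ ((1 : ℝ) / 2 - δ₁) ≤ (x : ℝ) ^ ((1 : ℝ) / 2 - min δ₁ (c / 4)) := by
    apply Real.rpow_le_rpow_of_exponent_le hxr
    have := min_le_left δ₁ (c / 4); linarith
  have hd2 : (x : ℝ) ^ ((1 : ℝ) / 2 - c / 4) ≤ (x : ℝ) ^ ((1 : ℝ) / 2 - min δ₁ (c / 4)) := by
    apply Real.rpow_le_rpow_of_exponent_le hxr
    have := min_le_right δ₁ (c / 4); linarith
  linarith

end Pool.Agent.Helper6.SD
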