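import Mathlib
import Pool.Agent.Helper6.SD.Main

/-!
# Structure of the Lehmer numbers, part 6: small prime factors and the number of prime factors
-/

namespace Pool.Agent.Helper6.SD

open Finset Filter Pool.Agent.Helper6.Lehmer Pool.Agent.Helper6.LehmerCount

/-- the product of the prime factors up to `(log n) ^ A` -/
noncomputable def smallPart (A : ℝ) (n : ℕ) : ℕ :=
  ∏ p ∈ n.primeFactors.filter (fun p : ℕ => (p : ℝ) ≤ Real.log n ^ A), p

theorem smallPart_dvd (A : ℝ) (n : ℕ) : smallPart A n ∣ n := by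
  unfold smallPart
  exact (Finset.prod_dvd_prod_of_subset _ _ _ (Finset.filter_subset _ _)).trans
    (Nat.prod_primeFactors_dvd n)

/-- facts for large `n` -/
theorem large_n (e A : ℝ) (he : 0 < e) (he1 : e ≤ 1 / 4) : ∃ N : ℕ, ∀ n : ℕ, N ≤ n →
    ((n : ℝ) ^ e + 1) * Real.log n ^ A ≤ (n : ℝ) ^ ((1 : ℝ) / 2) ∧ 1 ≤ Real.log n ∧
    Real.log n ^ A ≤ (e * Real.log n) ^ (A + 1) ∧ 1 < (n : ℝ) ^ e := by
  have h1 : ∀ᶠ y : ℝ in atTop, Real.log y ^ A ≤ 1 / 2 * y ^ ((1 : ℝ) / 4) := by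
    have := (isLittleO_log_rpow_rpow_atTop A (by norm_num : (0 : ℝ) < 1 / 4)).bound
      (c := 1 / 2) (by norm_num)
    filter_upwards [this, eventually_ge_atTop (1 : ℝ)] with y hy hy1
    rw [Real.norm_of_nonneg (Real.rpow_nonneg (Real.log_nonneg hy1) _),
      Real.norm_of_nonneg (by positivity)] at hy
    exact hy
  have h2 : ∀ᶠ y : ℝ in atTop, max 1 ((1 / e) ^ (A + 1)) ≤ Real.log y :=
    Real.tendsto_log_atTop.eventually (eventually_ge_atTop _)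
  obtain ⟨N, hN⟩ := eventually_atTop.mp ((tendsto_natCast_atTop_atTop (R := ℝ)).eventually
    ((h1.and h2).and (eventually_gt_atTop 1)))
  refine ⟨N, fun n hn => ?_⟩
  obtain ⟨⟨h3, h4⟩, h5⟩ := hN n hn
  have hn0 : (0 : ℝ) < n := by linarith
  have hL1 : 1 ≤ Real.log n := (le_max_left _ _).trans h4
  have hL2 : (1 / e) ^ (A + 1) ≤ Real.log n := (le_max_right _ _).trans h4
  have hL0 : 0 < Real.log n := by linarith
  refine ⟨?_, hL1, ?_, Real.one_lt_rpow h5 he⟩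
  · have e1 : (n : ℝ) ^ e ≤ (n : ℝ) ^ ((1 : ℝ) / 4) := Real.rpow_le_rpow_of_exponent_le h5.le he1
    have e2 : (1 : ℝ) ≤ (n : ℝ) ^ ((1 : ℝ) / 4) := Real.one_le_rpow h5.le (by norm_num)
    calc ((n : ℝ) ^ e + 1) * Real.log n ^ A ≤ (2 * (n : ℝ) ^ ((1 : ℝ) / 4)) * (1 / 2 * (n : ℝ) ^ ((1 : ℝ) / 4)) := by
          apply mul_le_mul (by linarith) h3 (by positivity) (by positivity)
      _ = (n : ℝ) ^ ((1 : ℝ) / 4) * (n : ℝ) ^ ((1 : ℝ) / 4) := by ring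
      _ = (n : ℝ) ^ ((1 : ℝ) / 2) := by rw [← Real.rpow_add hn0]; norm_num
  · rw [Real.mul_rpow he.le hL0.le, Real.rpow_add hL0, Real.rpow_one]
    have e1 : 1 ≤ e ^ (A + 1) * Real.log n := by
      have e2 : e ^ (A + 1) * (1 / e) ^ (A + 1) = 1 := by
        rw [← Real.mul_rpow he.le (by positivity), mul_one_div_cancel he.ne', Real.one_rpow]
      calc (1 : ℝ) = e ^ (A + 1) * (1 / e) ^ (A + 1) := e2.symm
        _ ≤ e ^ (A + 1) * Real.log n := mul_le_mul_of_nonneg_left hL2 (by positivity)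
    calc Real.log n ^ A = Real.log n ^ A * 1 := (mul_one _).symm
      _ ≤ Real.log n ^ A * (e ^ (A + 1) * Real.log n) := mul_le_mul_of_nonneg_left e1 (by positivity)
      _ = e ^ (A + 1) * (Real.log n ^ A * Real.log n) := by ring

/-- few Lehmer numbers have a large part of small prime factors -/
theorem smooth_main (ε A : ℝ) (hε : 0 < ε) (hA : 0 < A) : ∃ δ : ℝ, 0 < δ ∧
    ∃ x₀ : ℕ, ∀ x : ℕ, x₀ ≤ x → ∀ S : Finset ℕ,
      (∀ n ∈ S, IsLehmer n ∧ n ≤ x ∧ (n : ℝ) ^ ε ≤ (smallPart A n : ℝ)) →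
      (#S : ℝ) ≤ (x : ℝ) ^ ((1 : ℝ) / 2 - δ) := by
  classical
  obtain ⟨e, he⟩ : ∃ e : ℝ, e = min ε (1 / 4) := ⟨_, rfl⟩
  have he0 : 0 < e := by rw [he]; exact lt_min hε (by norm_num)
  have he1 : e ≤ 1 / 4 := by rw [he]; exact min_le_right _ _
  have he2 : e ≤ ε := by rw [he]; exact min_le_left _ _
  obtain ⟨B, hB⟩ : ∃ B : ℝ, B = A + 1 := ⟨_, rfl⟩
  have hB1 : 1 ≤ B := by linarith
  obtain ⟨z₀, hz₀⟩ := smooth_sparse B hB1
  obtain ⟨δ₁, hδ₁, h₁⟩ := sparse_main e (1 / (4 * B)) he0 (by positivity)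
  obtain ⟨x₁, h₁'⟩ := h₁ z₀
  have h₂ := h₁' {t : ℕ | Squarefree t ∧ ∀ p ∈ t.primeFactors, (p : ℝ) ≤ Real.log t ^ B} (by
    intro z hz U hU
    apply hz₀ z hz U
    intro t ht
    obtain ⟨⟨a1, a2⟩, a3, a4⟩ := hU t ht
    refine ⟨a1, a4, fun p hp => (a2 p hp).trans ?_⟩
    apply Real.rpow_le_rpow (Real.log_natCast_nonneg t) _ (by linarith)
    exact Real.log_le_log (by exact_mod_cast a3) (by exact_mod_cast a4))
  obtain ⟨N, hN⟩ := large_n e A he0 he1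
  obtain ⟨δ, hδ⟩ : ∃ δ : ℝ, δ = min δ₁ (1 / 4) / 2 := ⟨_, rfl⟩
  have hδ0 : 0 < δ := by
    rw [hδ]
    have : 0 < min δ₁ (1 / 4) := lt_min hδ₁ (by norm_num)
    positivity
  have hδ2 : 2 * δ ≤ δ₁ := by rw [hδ]; have := min_le_left δ₁ (1 / 4); linarith
  have hδ3 : 2 * δ ≤ 1 / 4 := by rw [hδ]; have := min_le_right δ₁ (1 / 4); linarith
  obtain ⟨x₂, h₃⟩ := rpow_large ((1 : ℝ) / 4) (N + 1) (by norm_num)
  obtain ⟨x₃, h₄⟩ := absorb (a := (1 : ℝ) / 2 - δ) (b := (1 : ℝ) / 2 - 2 * δ) (C := 2) (by linarith)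
  refine ⟨δ, hδ0, x₁ + x₂ + x₃ + 1, fun x hx S hS => ?_⟩
  have g₂ := h₂ x (by omega)
  have g₃ := h₃ x (by omega)
  have g₄ := h₄ x (by omega)
  have hx1 : 1 ≤ x := by omega
  have hxr : (1 : ℝ) ≤ x := by exact_mod_cast hx1
  have hxp : (0 : ℝ) < x := by linarith
  set S₁ := S.filter (fun n : ℕ => (n : ℝ) ≤ (x : ℝ) ^ ((1 : ℝ) / 4)) with hS₁
  set S₂ := S.filter (fun n : ℕ => ¬ (n : ℝ) ≤ (x : ℝ) ^ ((1 : ℝ) / 4)) with hS₂
  have hsplit : #S₁ + #S₂ = #S := Finset.card_filter_add_card_filter_not _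
  have hc1 : (#S₁ : ℝ) ≤ (x : ℝ) ^ ((1 : ℝ) / 2 - 2 * δ) := by
    have h5 : S₁ ⊆ Finset.Icc 1 (Nat.floor ((x : ℝ) ^ ((1 : ℝ) / 4))) := by
      intro n hn
      rw [hS₁, Finset.mem_filter] at hn
      rw [Finset.mem_Icc]
      have := (hS n hn.1).1.one_lt
      exact ⟨by omega, Nat.le_floor hn.2⟩
    have h6 := Finset.card_le_card h5
    rw [Nat.card_Icc, Nat.add_sub_cancel] at h6
    calc (#S₁ : ℝ) ≤ (Nat.floor ((x : ℝ) ^ ((1 : ℝ) / 4)) : ℕ) := by exact_mod_cast h6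
      _ ≤ (x : ℝ) ^ ((1 : ℝ) / 4) := Nat.floor_le (by positivity)
      _ ≤ _ := Real.rpow_le_rpow_of_exponent_le hxr (by linarith)
  have hc2 : (#S₂ : ℝ) ≤ (x : ℝ) ^ ((1 : ℝ) / 2 - 2 * δ) := by
    refine (g₂ S₂ ?_).trans (Real.rpow_le_rpow_of_exponent_le hxr (by linarith))
    intro n hn
    rw [hS₂, mem_filter, not_le] at hn
    obtain ⟨hnS, hnx⟩ := hn
    obtain ⟨a, b, hu⟩ := hS n hnS
    refine ⟨a, b, ?_⟩
    have hn0 : 0 < n := by have := a.one_lt; omega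
    have hnN : N ≤ n := by
      have : (N : ℝ) ≤ n := by linarith
      exact_mod_cast this
    obtain ⟨k1, k2, k3, k4⟩ := hN n hnN
    have hn0' : (0 : ℝ) < n := by exact_mod_cast hn0
    have hn1' : (1 : ℝ) ≤ n := by exact_mod_cast hn0
    obtain ⟨u, hu'⟩ : ∃ u, u = smallPart A n := ⟨_, rfl⟩
    rw [← hu'] at hu
    have hun : u ∣ n := by rw [hu']; exact smallPart_dvd A n
    have hu0 : 0 < u := Nat.pos_of_dvd_of_pos hun hn0
    have hue : (n : ℝ) ^ e ≤ u := (Real.rpow_le_rpow_of_exponent_le hn1' he2).trans hu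
    obtain ⟨w, hw⟩ : ∃ w, w = ⌈(n : ℝ) ^ e⌉₊ := ⟨_, rfl⟩
    have hw1 : (n : ℝ) ^ e ≤ w := by rw [hw]; exact Nat.le_ceil _
    have hw2 : (w : ℝ) ≤ (n : ℝ) ^ e + 1 := by
      rw [hw]; exact (Nat.ceil_lt_add_one (by positivity)).le
    have hwu : w ≤ u := by rw [hw]; exact Nat.ceil_le.mpr hue
    obtain ⟨d, -, hdu, hwd, hd⟩ := exists_div (t := 1) (Y := ⌊Real.log n ^ A⌋₊) hu0 (one_dvd u) (by
      intro p hp hpu
      apply Nat.le_floor
      rw [hu'] at hpu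
      unfold smallPart at hpu
      rw [hp.prime.dvd_finsetProd_iff] at hpu
      obtain ⟨r, hr, hpr⟩ := hpu
      rw [mem_filter] at hr
      have hrp := Nat.prime_of_mem_primeFactors hr.1
      rw [(Nat.prime_dvd_prime_iff_eq hp hrp).mp hpr]
      exact hr.2) hwu
    have hdn : d ∣ n := hdu.trans hun
    have hde : (n : ℝ) ^ e ≤ d := hw1.trans (by exact_mod_cast hwd)
    have hdle : (d : ℝ) ≤ (n : ℝ) ^ ((1 : ℝ) / 2) := by
      rcases hd with hd | hd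
      · have : (d : ℝ) ≤ 1 := by exact_mod_cast hd
        linarith
      · have e1 : (d : ℝ) ≤ w * (⌊Real.log n ^ A⌋₊ : ℝ) := by exact_mod_cast hd
        have e2 : (⌊Real.log n ^ A⌋₊ : ℝ) ≤ Real.log n ^ A := Nat.floor_le (by positivity)
        exact (e1.trans (mul_le_mul hw2 e2 (by positivity) (by positivity))).trans k1
    have hd0 : 0 < d := Nat.pos_of_dvd_of_pos hdn hn0
    have hd0' : (0 : ℝ) < d := by exact_mod_cast hd0
    refine ⟨d, ⟨a.squarefree.squarefree_of_dvd hdn, ?_⟩, hdn, hde, ?_⟩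
    · intro p hp
      have hpp := Nat.prime_of_mem_primeFactors hp
      have hpu : p ∣ u := (Nat.dvd_of_mem_primeFactors hp).trans hdu
      have hpA : (p : ℝ) ≤ Real.log n ^ A := by
        rw [hu'] at hpu
        unfold smallPart at hpu
        rw [hpp.prime.dvd_finsetProd_iff] at hpu
        obtain ⟨r, hr, hpr⟩ := hpu
        rw [mem_filter] at hr
        have hrp := Nat.prime_of_mem_primeFactors hr.1
        rw [(Nat.prime_dvd_prime_iff_eq hpp hrp).mp hpr]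
        exact hr.2
      refine (hpA.trans k3).trans ?_
      rw [hB]
      apply Real.rpow_le_rpow (by positivity) _ (by linarith)
      rw [← Real.log_rpow hn0']
      exact Real.log_le_log (by positivity) hde
    · calc (d : ℝ) ^ 2 ≤ ((n : ℝ) ^ ((1 : ℝ) / 2)) ^ 2 := pow_le_pow_left₀ hd0'.le hdle 2
        _ = n := by rw [← Real.rpow_natCast, ← Real.rpow_mul hn0'.le]; norm_num
  have h7 : (#S : ℝ) = #S₁ + #S₂ := by exact_mod_cast hsplit.symm
  linarith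

end Pool.Agent.Helper6.SD
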