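import Mathlib
import Pool.Agent.Helper6.SD.Main

/-!
# Structure of the Lehmer numbers, part 10: divisors above the square root from a sparse set
-/

namespace Pool.Agent.Helper6.SD

open Finset Filter Pool.Agent.Helper6.Lehmer Pool.Agent.Helper6.LehmerCount

/-- few Lehmer numbers have a divisor in `[n ^ (1/2), n ^ θ]` from a set with at most `z ^ (1 - c)` elements
up to `z`, where `θ (1 - c) < 1/2` -/
theorem sparse_upper (θ c γ : ℝ) (hθ : 1 / 2 ≤ θ) (hc : c ≤ 1) (hγ : 0 < γ) (hγ1 : γ ≤ 1 / 2)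
    (hγ2 : θ * (1 - c) ≤ 1 / 2 - γ) : ∃ δ : ℝ, 0 < δ ∧ ∀ z₀ : ℕ, ∃ x₀ : ℕ,
    ∀ T : Set ℕ, (∀ z : ℕ, z₀ ≤ z → ∀ U : Finset ℕ, (∀ t ∈ U, t ∈ T ∧ 1 ≤ t ∧ t ≤ z) →
      (#U : ℝ) ≤ (z : ℝ) ^ (1 - c)) →
    ∀ x : ℕ, x₀ ≤ x → ∀ S : Finset ℕ,
      (∀ n ∈ S, IsLehmer n ∧ n ≤ x ∧ ∃ t ∈ T, t ∣ n ∧ (n : ℝ) ≤ (t : ℝ) ^ 2 ∧
        (t : ℝ) ≤ (n : ℝ) ^ θ) →
      (#S : ℝ) ≤ (x : ℝ) ^ ((1 : ℝ) / 2 - δ) := by
  classical
  obtain ⟨η, hη⟩ : ∃ η : ℝ, η = γ / 10 := ⟨_, rfl⟩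
  have hη0 : 0 < η := by rw [hη]; positivity
  obtain ⟨δ₁, hδ₁, x₁, h₁⟩ := reduce η hη0 (by linarith)
  obtain ⟨x₂, h₂⟩ := count_main η hη0
  obtain ⟨x₃, h₃⟩ := absorb (a := (1 : ℝ) / 2 - min δ₁ (γ / 2) / 2)
    (b := (1 : ℝ) / 2 - min δ₁ (γ / 2)) (C := 3) (by
      have : 0 < min δ₁ (γ / 2) := lt_min hδ₁ (by positivity)
      linarith)
  refine ⟨min δ₁ (γ / 2) / 2, by positivity, fun z₀ => ?_⟩
  obtain ⟨x₄, h₄⟩ := rpow_large θ (z₀ + 1) (by linarith)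
  refine ⟨x₁ + x₂ + x₃ + x₄ + 1, fun T hT x hx S hS => ?_⟩
  have g₁ := h₁ x (by omega) S ((x : ℝ) ^ ((1 : ℝ) / 2 - γ / 2)) (fun n hn => ⟨(hS n hn).1, (hS n hn).2.1⟩)
  have g₂ := h₂ x (by omega)
  have g₃ := h₃ x (by omega)
  have g₄ := h₄ x (by omega)
  have hx1 : 1 ≤ x := by omega
  have hxr : (1 : ℝ) ≤ x := by exact_mod_cast hx1
  have hxp : (0 : ℝ) < x := by linarith
  have key : ∀ S' ⊆ S, (∀ n ∈ S', (x : ℝ) ^ (1 - η) < n ∧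
      ∀ p : ℕ, p.Prime → p ∣ n → (p : ℝ) < (x : ℝ) ^ η) →
      (#S' : ℝ) ≤ (x : ℝ) ^ ((1 : ℝ) / 2 - γ / 2) := by
    intro S' hS' hsm
    obtain ⟨D, hD⟩ : ∃ D : ℝ, D = (x : ℝ) ^ θ := ⟨_, rfl⟩
    have hD0 : 0 ≤ D := by rw [hD]; positivity
    obtain ⟨z, hz⟩ : ∃ z : ℕ, z = ⌊D⌋₊ := ⟨_, rfl⟩
    have hzD : (z : ℝ) ≤ D := by rw [hz]; exact Nat.floor_le hD0
    have hzz : z₀ ≤ z := by
      rw [hz]; apply Nat.le_floor; rw [hD]; linarith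
    set V : Finset ℕ := (Icc 1 z).filter (fun t => t ∈ T) with hV
    have hVc : (#V : ℝ) ≤ D ^ (1 - c) := by
      refine (hT z hzz V ?_).trans ?_
      · intro t ht
        rw [hV, mem_filter, mem_Icc] at ht
        exact ⟨ht.2, ht.1⟩
      · exact Real.rpow_le_rpow (by positivity) hzD (by linarith)
    have hcount := g₂ S' V (by
      intro n hn
      obtain ⟨a, b, t, htT, htn, ht1, ht2⟩ := hS n (hS' hn)
      obtain ⟨hn1, hn2⟩ := hsm n hn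
      have hn0 : 0 < n := by have := a.one_lt; omega
      have hbr : (n : ℝ) ≤ x := by exact_mod_cast b
      have ht0 : 0 < t := Nat.pos_of_dvd_of_pos htn hn0
      have ht0' : (0 : ℝ) < t := by exact_mod_cast ht0
      refine ⟨a, b, t, ?_, htn, ?_⟩
      · rw [hV, mem_filter, mem_Icc]
        refine ⟨⟨ht0, ?_⟩, htT⟩
        rw [hz]
        apply Nat.le_floor
        rw [hD]
        exact ht2.trans (Real.rpow_le_rpow (by positivity) hbr (by linarith))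
      · have e1 : ((x : ℝ) ^ ((1 : ℝ) / 2 - 2 * η)) ^ 2 ≤ (t : ℝ) ^ 2 := by
          calc ((x : ℝ) ^ ((1 : ℝ) / 2 - 2 * η)) ^ 2 = (x : ℝ) ^ (1 - 4 * η) := by
                rw [← Real.rpow_natCast, ← Real.rpow_mul hxp.le]
                congr 1
                push_cast
                ring
            _ ≤ (x : ℝ) ^ (1 - η) := Real.rpow_le_rpow_of_exponent_le hxr (by linarith)
            _ ≤ n := hn1.le
            _ ≤ _ := ht1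
        exact le_of_sq_le_sq e1 ht0'.le)
    calc (#S' : ℝ) ≤ #V * (x : ℝ) ^ (5 * η) := hcount
      _ ≤ D ^ (1 - c) * (x : ℝ) ^ (5 * η) :=
          mul_le_mul_of_nonneg_right hVc (by positivity)
      _ = (x : ℝ) ^ (5 * η + θ * (1 - c)) := by
          rw [hD, ← Real.rpow_mul hxp.le, ← Real.rpow_add hxp]
          congr 1
          ring
      _ ≤ (x : ℝ) ^ ((1 : ℝ) / 2 - γ / 2) := by
          apply Real.rpow_le_rpow_of_exponent_le hxr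
          have e2 : 10 * η = γ := by rw [hη]; ring
          linarith
  have g := g₁ key
  have hd1 : (x : ℝ) ^ ((1 : ℝ) / 2 - δ₁) ≤ (x : ℝ) ^ ((1 : ℝ) / 2 - min δ₁ (γ / 2)) := by
    apply Real.rpow_le_rpow_of_exponent_le hxr
    have := min_le_left δ₁ (γ / 2); linarith
  have hd2 : (x : ℝ) ^ ((1 : ℝ) / 2 - γ / 2) ≤ (x : ℝ) ^ ((1 : ℝ) / 2 - min δ₁ (γ / 2)) := by
    apply Real.rpow_le_rpow_of_exponent_le hxr
    have := min_le_right δ₁ (γ / 2); linarith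
  linarith

end Pool.Agent.Helper6.SD
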