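import Mathlib
import Pool.Agent.Helper6.SD.Small
import Pool.Agent.Helper6.SD.Part2
import Pool.Agent.Helper6.SD.Upper

/-!
# Structure of the Lehmer numbers, part 10: assembly
-/

namespace Pool.Agent.Helper6.SD

open Finset Filter Pool.Agent.Helper6.Lehmer Pool.Agent.Helper6.LehmerCount

/-- a divisor with few large prime factors is small -/
theorem comb {N m Y : ℕ} {B k : ℝ} (hN : N ≠ 0) (hB : 1 ≤ B)
    (hpp : ∀ q j : ℕ, q.Prime → q ^ j ∣ N → ((q ^ j : ℕ) : ℝ) < B)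
    (hY : ((Yp Y N : ℕ) : ℝ) < B) (hm : m ∣ N)
    (hc : (#(m.primeFactors.filter (fun q => ¬ q ≤ Y)) : ℝ) < k) :
    (m : ℝ) < B ^ (1 + k) := by
  have hm0 : m ≠ 0 := fun h => hN (by rw [h] at hm; exact Nat.eq_zero_of_zero_dvd hm)
  have hB0 : 0 < B := by linarith
  have h1 : ((Yp Y m : ℕ) : ℝ) < B :=
    (by exact_mod_cast Yp_mono Y hm hN : ((Yp Y m : ℕ) : ℝ) ≤ ((Yp Y N : ℕ) : ℝ)).trans_lt hY
  have h2 : ((∏ q ∈ m.primeFactors.filter (fun q => ¬ q ≤ Y), q ^ m.factorization q : ℕ) : ℝ) ≤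
      B ^ k := by
    calc ((∏ q ∈ m.primeFactors.filter (fun q => ¬ q ≤ Y), q ^ m.factorization q : ℕ) : ℝ)
        = ∏ q ∈ m.primeFactors.filter (fun q => ¬ q ≤ Y), ((q ^ m.factorization q : ℕ) : ℝ) := by
          push_cast; rfl
      _ ≤ ∏ q ∈ m.primeFactors.filter (fun q => ¬ q ≤ Y), B := by
          apply Finset.prod_le_prod (fun q _ => by positivity)
          intro q hq
          rw [mem_filter] at hq
          exact (hpp q _ (Nat.prime_of_mem_primeFactors hq.1)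
            ((Nat.ordProj_dvd m q).trans hm)).le
      _ = B ^ (#(m.primeFactors.filter (fun q => ¬ q ≤ Y)) : ℝ) := by
          rw [Finset.prod_const, Real.rpow_natCast]
      _ ≤ B ^ k := Real.rpow_le_rpow_of_exponent_le hB hc.le
  have h3 : (m : ℝ) = ((Yp Y m : ℕ) : ℝ) *
      ((∏ q ∈ m.primeFactors.filter (fun q => ¬ q ≤ Y), q ^ m.factorization q : ℕ) : ℝ) := by
    exact_mod_cast split_eq Y hm0
  have h4 : (0 : ℝ) < B ^ k := by positivity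
  rw [h3, Real.rpow_add hB0, Real.rpow_one]
  calc _ ≤ ((Yp Y m : ℕ) : ℝ) * B ^ k := mul_le_mul_of_nonneg_left h2 (by positivity)
    _ < B * B ^ k := mul_lt_mul_of_pos_right h1 h4

/-- the part of small primes of a squarefree number -/
theorem Yp_smallPart {n : ℕ} (hn : Squarefree n) (h1 : 1 < n) (A : ℝ) :
    Yp ⌊Real.log n ^ A⌋₊ n = smallPart A n := by
  have hl : 0 < Real.log n := Real.log_pos (by exact_mod_cast h1)
  rw [Yp_eq]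
  unfold smallPart
  have h2 : n.primeFactors.filter (fun q => q ≤ ⌊Real.log n ^ A⌋₊) =
      n.primeFactors.filter (fun p : ℕ => (p : ℝ) ≤ Real.log n ^ A) := by
    apply Finset.filter_congr
    intro q _
    exact Nat.le_floor_iff (by positivity)
  rw [h2]
  apply Finset.prod_congr rfl
  intro q hq
  rw [mem_filter] at hq
  have h3 : n.factorization q = 1 := by
    have e1 := hn.natFactorization_le_one q
    have e2 := (Nat.prime_of_mem_primeFactors hq.1).factorization_pos_of_dvd (by omega)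
      (Nat.dvd_of_mem_primeFactors hq.1)
    omega
  rw [h3, pow_one]

/-- few Lehmer numbers `n` have a prime factor `≥ n ^ ε` -/
theorem rough_n (ε : ℝ) (hε : 0 < ε) : ∃ δ : ℝ, 0 < δ ∧ ∃ x₀ : ℕ, ∀ x : ℕ, x₀ ≤ x →
    ∀ S : Finset ℕ, (∀ n ∈ S, IsLehmer n ∧ n ≤ x ∧ ∃ q : ℕ, q.Prime ∧ q ∣ n ∧ (n : ℝ) ^ ε ≤ q) →
    (#S : ℝ) ≤ (x : ℝ) ^ ((1 : ℝ) / 2 - δ) := by
  classical
  obtain ⟨δ₁, hδ₁, x₁, h₁⟩ := rough_main (ε / 4) (by positivity)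
  obtain ⟨δ, hδ⟩ : ∃ δ : ℝ, δ = min δ₁ (1 / 4) / 2 := ⟨_, rfl⟩
  have hδ0 : 0 < δ := by
    rw [hδ]
    have : 0 < min δ₁ (1 / 4) := lt_min hδ₁ (by norm_num)
    positivity
  have hδ2 : 2 * δ ≤ δ₁ := by rw [hδ]; have := min_le_left δ₁ (1 / 4); linarith
  have hδ3 : 2 * δ ≤ 1 / 4 := by rw [hδ]; have := min_le_right δ₁ (1 / 4); linarith
  obtain ⟨x₂, h₂⟩ := absorb (a := (1 : ℝ) / 2 - δ) (b := (1 : ℝ) / 2 - 2 * δ) (C := 2) (by linarith)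
  refine ⟨δ, hδ0, x₁ + x₂ + 1, fun x hx S hS => ?_⟩
  have g₁ := h₁ x (by omega)
  have g₂ := h₂ x (by omega)
  have hx1 : 1 ≤ x := by omega
  have hxr : (1 : ℝ) ≤ x := by exact_mod_cast hx1
  set S₁ := S.filter (fun n : ℕ => (n : ℝ) ≤ (x : ℝ) ^ ((1 : ℝ) / 4)) with hS₁
  set S₂ := S.filter (fun n : ℕ => ¬ (n : ℝ) ≤ (x : ℝ) ^ ((1 : ℝ) / 4)) with hS₂
  have hsplit : #S₁ + #S₂ = #S := Finset.card_filter_add_card_filter_not _
  have hc1 : (#S₁ : ℝ) ≤ (x : ℝ) ^ ((1 : ℝ) / 2 - 2 * δ) := by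
    have h5 : S₁ ⊆ Finset.Icc 1 (Nat.floor ((x : ℝ) ^ ((1 : ℝ) / 4))) := by
      intro n hn
      rw [hS₁, Finset.mem_filter] at hn
      rw [Finset.mem_Icc]
      have := (hS n hn.1).1.one_lt
      exact ⟨by omega, Nat.le_floor hn.2⟩
    have h6 := Finset.card_le_card h5
    rw [Nat.card_Icc, Nat.add_sub_cancel] at h6
    calc (#S₁ : ℝ) ≤ (Nat.floor ((x : ℝ) ^ ((1 : ℝ) / 4)) : ℕ) := by exact_mod_cast h6
      _ ≤ (x : ℝ) ^ ((1 : ℝ) / 4) := Nat.floor_le (by positivity)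
      _ ≤ _ := Real.rpow_le_rpow_of_exponent_le hxr (by linarith)
  have hc2 : (#S₂ : ℝ) ≤ (x : ℝ) ^ ((1 : ℝ) / 2 - 2 * δ) := by
    refine (g₁ S₂ ?_).trans (Real.rpow_le_rpow_of_exponent_le hxr (by linarith))
    intro n hn
    rw [hS₂, mem_filter, not_le] at hn
    obtain ⟨hnS, hnx⟩ := hn
    obtain ⟨a, b, q, hq, hqn, hqe⟩ := hS n hnS
    refine ⟨a, b, q, hq, hqn, le_trans ?_ hqe⟩
    calc (x : ℝ) ^ (ε / 4) = ((x : ℝ) ^ ((1 : ℝ) / 4)) ^ ε := by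
          rw [← Real.rpow_mul (by positivity)]; congr 1; ring
      _ ≤ (n : ℝ) ^ ε := Real.rpow_le_rpow (by positivity) hnx.le hε.le
  have h7 : (#S : ℝ) = #S₁ + #S₂ := by exact_mod_cast hsplit.symm
  linarith

/-- the structure theorem -/
theorem final_main (ε : ℝ) (hε : 0 < ε) : ∃ δ : ℝ, 0 < δ ∧ ∀ z₀ : ℕ, ∃ x₀ : ℕ,
    ∀ T : Set ℕ, (∀ z : ℕ, z₀ ≤ z → ∀ U : Finset ℕ, (∀ t ∈ U, t ∈ T ∧ 1 ≤ t ∧ t ≤ z) →
      (#U : ℝ) ≤ (z : ℝ) ^ (1 - ε)) →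
    ∀ x : ℕ, x₀ ≤ x → ∀ S : Finset ℕ,
      (∀ n ∈ S, IsLehmer n ∧ 5 ≤ n ∧ n ≤ x ∧ ¬ (
        ∀ m : ℕ, m ∣ n * (n - 1) → (n : ℝ) ^ ε ≤ m →
          1 / ε ≤ (#(m.primeFactors.filter
            (fun q : ℕ => Real.log (Real.log n) ^ (1 / ε) < q)) : ℝ) ∧
          (m ∣ n → (m : ℝ) ≤ (n : ℝ) ^ ((1 + ε) / 2) → m ∉ T))) →
      (#S : ℝ) ≤ (x : ℝ) ^ ((1 : ℝ) / 2 - δ) := by
  classical
  obtain ⟨k, hk⟩ : ∃ k : ℝ, k = 1 / ε := ⟨_, rfl⟩
  rw [← hk]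
  have hk0 : 0 < k := by rw [hk]; positivity
  obtain ⟨ε₂, hε₂⟩ : ∃ ε₂ : ℝ, ε₂ = min 1 (ε / (2 * (1 + k))) := ⟨_, rfl⟩
  have hε20 : 0 < ε₂ := by rw [hε₂]; exact lt_min (by norm_num) (by positivity)
  have hε21 : ε₂ ≤ 1 := by rw [hε₂]; exact min_le_left _ _
  have hε22 : (ε₂ + ε₂) * (1 + k) ≤ ε := by
    have : ε₂ ≤ ε / (2 * (1 + k)) := by rw [hε₂]; exact min_le_right _ _
    rw [le_div_iff₀ (by positivity)] at this
    linarith
  obtain ⟨c, hc⟩ : ∃ c : ℝ, c = min ε (3 / 4) := ⟨_, rfl⟩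
  have hc0 : 0 < c := by rw [hc]; exact lt_min hε (by norm_num)
  have hcε : c ≤ ε := by rw [hc]; exact min_le_left _ _
  have hc1 : c ≤ 3 / 4 := by rw [hc]; exact min_le_right _ _
  obtain ⟨θ, hθ⟩ : ∃ θ : ℝ, θ = min ((1 + ε) / 2) 1 := ⟨_, rfl⟩
  have hθ1 : θ ≤ 1 := by rw [hθ]; exact min_le_right _ _
  have hθ0 : 1 / 2 ≤ θ := by rw [hθ]; exact le_min (by linarith) (by norm_num)
  obtain ⟨γ, hγ⟩ : ∃ γ : ℝ, γ = min (ε ^ 2 / 2) (1 / 4) := ⟨_, rfl⟩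
  have hγ0 : 0 < γ := by rw [hγ]; exact lt_min (by positivity) (by norm_num)
  have hγ1 : γ ≤ 1 / 4 := by rw [hγ]; exact min_le_right _ _
  have hγ2 : γ ≤ ε ^ 2 / 2 := by rw [hγ]; exact min_le_left _ _
  have hγ3 : θ * (1 - c) ≤ 1 / 2 - γ := by
    rcases le_total ε (3 / 4) with h | h
    · have e1 : c = ε := by rw [hc]; exact min_eq_left h
      have e2 : θ ≤ (1 + ε) / 2 := by rw [hθ]; exact min_le_left _ _
      rw [e1]
      nlinarith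
    · have e1 : c = 3 / 4 := by rw [hc]; exact min_eq_right h
      rw [e1]
      linarith
  obtain ⟨d₁, hd₁, x₁, h₁⟩ := rough_n ε₂ hε20
  obtain ⟨d₂, hd₂, x₂, h₂⟩ := smooth_main ε₂ k hε20 hk0
  obtain ⟨d₃, hd₃, x₃, h₃⟩ := val_main ε₂ hε20 hε21
  obtain ⟨d₄, hd₄, x₄, h₄⟩ := part_main ε₂ k hε20 hε21 hk0
  obtain ⟨d₆, hd₆, h₆⟩ := sparse_main ε c hε hc0
  obtain ⟨d₇, hd₇, h₇⟩ := sparse_upper θ c γ hθ0 (by linarith) hγ0 (by linarith) hγ3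
  obtain ⟨d, hd⟩ : ∃ d : ℝ, d = min (min (min d₁ d₂) (min d₃ d₄)) (min d₆ d₇) := ⟨_, rfl⟩
  have hd0 : 0 < d := by
    rw [hd]
    exact lt_min (lt_min (lt_min hd₁ hd₂) (lt_min hd₃ hd₄)) (lt_min hd₆ hd₇)
  have e₁ : d ≤ d₁ := by
    rw [hd]; exact (min_le_left _ _).trans ((min_le_left _ _).trans (min_le_left _ _))
  have e₂ : d ≤ d₂ := by
    rw [hd]; exact (min_le_left _ _).trans ((min_le_left _ _).trans (min_le_right _ _))
  have e₃ : d ≤ d₃ := by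
    rw [hd]; exact (min_le_left _ _).trans ((min_le_right _ _).trans (min_le_left _ _))
  have e₄ : d ≤ d₄ := by
    rw [hd]; exact (min_le_left _ _).trans ((min_le_right _ _).trans (min_le_right _ _))
  have e₆ : d ≤ d₆ := by
    rw [hd]; exact (min_le_right _ _).trans (min_le_left _ _)
  have e₇ : d ≤ d₇ := by
    rw [hd]; exact (min_le_right _ _).trans (min_le_right _ _)
  refine ⟨d / 2, by positivity, fun z₀ => ?_⟩
  obtain ⟨x₆, h₆'⟩ := h₆ (max z₀ 1)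
  obtain ⟨x₇, h₇'⟩ := h₇ (max z₀ 1)
  obtain ⟨x₈, h₈⟩ := absorb (a := (1 : ℝ) / 2 - d / 2) (b := (1 : ℝ) / 2 - d) (C := 6) (by linarith)
  refine ⟨x₁ + x₂ + x₃ + x₄ + x₆ + x₇ + x₈ + 1, fun T hT x hx S hS => ?_⟩
  have hT' : ∀ z : ℕ, max z₀ 1 ≤ z → ∀ U : Finset ℕ, (∀ t ∈ U, t ∈ T ∧ 1 ≤ t ∧ t ≤ z) →
      (#U : ℝ) ≤ (z : ℝ) ^ (1 - c) := by
    intro z hz U hU
    refine (hT z ((le_max_left _ _).trans hz) U hU).trans ?_
    apply Real.rpow_le_rpow_of_exponent_le _ (by linarith)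
    exact_mod_cast (le_max_right _ _).trans hz
  have h₆ := h₆' T hT'
  have h₇ := h₇' T hT'
  have hx1 : 1 ≤ x := by omega
  have hxr : (1 : ℝ) ≤ x := by exact_mod_cast hx1
  have mono : ∀ d' : ℝ, d ≤ d' → (x : ℝ) ^ ((1 : ℝ) / 2 - d') ≤ (x : ℝ) ^ ((1 : ℝ) / 2 - d) :=
    fun d' h => Real.rpow_le_rpow_of_exponent_le hxr (by linarith)
  set S₁ := S.filter (fun n : ℕ => ∃ q : ℕ, q.Prime ∧ q ∣ n ∧ (n : ℝ) ^ ε₂ ≤ q) with hS₁
  set S₂ := S.filter (fun n : ℕ => (n : ℝ) ^ ε₂ ≤ (smallPart k n : ℝ)) with hS₂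
  set S₃ := S.filter (fun n : ℕ => ∃ q j : ℕ, q.Prime ∧ q ^ j ∣ n - 1 ∧
        (n : ℝ) ^ ε₂ ≤ ((q ^ j : ℕ) : ℝ)) with hS₃
  set S₄ := S.filter (fun n : ℕ =>
        (n : ℝ) ^ ε₂ ≤ ((Yp ⌊Real.log (Real.log n) ^ k⌋₊ (n - 1) : ℕ) : ℝ)) with hS₄
  set S₆ := S.filter (fun n : ℕ =>
        ∃ t ∈ T, t ∣ n ∧ (n : ℝ) ^ ε ≤ t ∧ (t : ℝ) ^ 2 ≤ n) with hS₆
  set S₇ := S.filter (fun n : ℕ =>
        ∃ t ∈ T, t ∣ n ∧ (n : ℝ) ≤ (t : ℝ) ^ 2 ∧ (t : ℝ) ≤ (n : ℝ) ^ θ) with hS₇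
  have b₁ : (#S₁ : ℝ) ≤ (x : ℝ) ^ ((1 : ℝ) / 2 - d) := by
    refine (h₁ x (by omega) S₁ fun n hn => ?_).trans (mono _ e₁)
    rw [hS₁, mem_filter] at hn
    exact ⟨(hS n hn.1).1, (hS n hn.1).2.2.1, hn.2⟩
  have b₂ : (#S₂ : ℝ) ≤ (x : ℝ) ^ ((1 : ℝ) / 2 - d) := by
    refine (h₂ x (by omega) S₂ fun n hn => ?_).trans (mono _ e₂)
    rw [hS₂, mem_filter] at hn
    exact ⟨(hS n hn.1).1, (hS n hn.1).2.2.1, hn.2⟩
  have b₃ : (#S₃ : ℝ) ≤ (x : ℝ) ^ ((1 : ℝ) / 2 - d) := by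
    refine (h₃ x (by omega) S₃ fun n hn => ?_).trans (mono _ e₃)
    rw [hS₃, mem_filter] at hn
    exact ⟨(hS n hn.1).1, (hS n hn.1).2.2.1, hn.2⟩
  have b₄ : (#S₄ : ℝ) ≤ (x : ℝ) ^ ((1 : ℝ) / 2 - d) := by
    refine (h₄ x (by omega) S₄ fun n hn => ?_).trans (mono _ e₄)
    rw [hS₄, mem_filter] at hn
    exact ⟨(hS n hn.1).1, (hS n hn.1).2.2.1, hn.2⟩
  have b₆ : (#S₆ : ℝ) ≤ (x : ℝ) ^ ((1 : ℝ) / 2 - d) := by
    refine (h₆ x (by omega) S₆ fun n hn => ?_).trans (mono _ e₆)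
    rw [hS₆, mem_filter] at hn
    exact ⟨(hS n hn.1).1, (hS n hn.1).2.2.1, hn.2⟩
  have b₇ : (#S₇ : ℝ) ≤ (x : ℝ) ^ ((1 : ℝ) / 2 - d) := by
    refine (h₇ x (by omega) S₇ fun n hn => ?_).trans (mono _ e₇)
    rw [hS₇, mem_filter] at hn
    exact ⟨(hS n hn.1).1, (hS n hn.1).2.2.1, hn.2⟩
  have hcover : S ⊆ S₁ ∪ S₂ ∪ S₃ ∪ S₄ ∪ S₆ ∪ S₇ := by
    intro n hn
    by_contra hcon
    simp only [mem_union, not_or] at hcon
    obtain ⟨⟨⟨⟨⟨c₁, c₂⟩, c₃⟩, c₄⟩, c₆⟩, c₇⟩ := hcon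
    obtain ⟨hL, hn5, hnx, hbad⟩ := hS n hn
    apply hbad
    have hn0 : n ≠ 0 := by omega
    have hn10 : n - 1 ≠ 0 := by omega
    have hnr : (5 : ℝ) ≤ n := by exact_mod_cast hn5
    have hl1 : 1 < Real.log n := by
      rw [Real.lt_log_iff_exp_lt (by linarith)]
      have := Real.exp_one_lt_d9
      linarith
    have hll : 0 < Real.log (Real.log n) := Real.log_pos hl1
    have hB : 1 < (n : ℝ) ^ ε₂ := Real.one_lt_rpow (by linarith) hε20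
    have hB2 : (n : ℝ) ^ ε₂ * (n : ℝ) ^ ε₂ = (n : ℝ) ^ (ε₂ + ε₂) := by
      rw [← Real.rpow_add (by linarith)]
    have hBk : ((n : ℝ) ^ ε₂ * (n : ℝ) ^ ε₂) ^ (1 + k) ≤ (n : ℝ) ^ ε := by
      rw [hB2, ← Real.rpow_mul (by positivity)]
      exact Real.rpow_le_rpow_of_exponent_le (by linarith) hε22
    have hBB : (n : ℝ) ^ ε₂ < (n : ℝ) ^ ε₂ * (n : ℝ) ^ ε₂ := by nlinarith
    have hcop : Nat.Coprime n (n - 1) := by
      have := Nat.coprime_self_sub_right (m := 1) (n := n) (by omega)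
      rw [this]
      exact Nat.coprime_one_right n
    -- prime powers
    have hppn : ∀ q j : ℕ, q.Prime → q ^ j ∣ n → ((q ^ j : ℕ) : ℝ) < (n : ℝ) ^ ε₂ := by
      intro q j hq hqj
      have hj : j ≤ 1 := by
        by_contra hj
        have e1 : q ^ 2 ∣ n := (pow_dvd_pow q (by omega)).trans hqj
        have e2 := hL.squarefree q (by rw [← sq]; exact e1)
        exact hq.one_lt.ne' (Nat.isUnit_iff.mp e2)
      rcases Nat.eq_zero_or_pos j with h | h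
      · rw [h, pow_zero, Nat.cast_one]; exact hB
      · have hj1 : j = 1 := by omega
        rw [hj1, pow_one] at hqj ⊢
        by_contra hle
        rw [not_lt] at hle
        exact c₁ (by rw [hS₁, mem_filter]; exact ⟨hn, q, hq, hqj, hle⟩)
    have hppm : ∀ q j : ℕ, q.Prime → q ^ j ∣ n - 1 → ((q ^ j : ℕ) : ℝ) < (n : ℝ) ^ ε₂ := by
      intro q j hq hqj
      by_contra hle
      rw [not_lt] at hle
      exact c₃ (by rw [hS₃, mem_filter]; exact ⟨hn, q, j, hq, hqj, hle⟩)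
    -- the parts of small primes
    have hYn : ((Yp ⌊Real.log (Real.log n) ^ k⌋₊ n : ℕ) : ℝ) < (n : ℝ) ^ ε₂ := by
      have e1 : Yp ⌊Real.log (Real.log n) ^ k⌋₊ n ≤ Yp ⌊Real.log n ^ k⌋₊ n := by
        apply Yp_mono_left
        apply Nat.floor_le_floor
        apply Real.rpow_le_rpow hll.le _ hk0.le
        have := Real.log_le_sub_one_of_pos (by linarith : (0 : ℝ) < Real.log n)
        linarith
      rw [Yp_smallPart hL.squarefree (by omega)] at e1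
      have e2 : ((Yp ⌊Real.log (Real.log n) ^ k⌋₊ n : ℕ) : ℝ) ≤ (smallPart k n : ℝ) := by
        exact_mod_cast e1
      refine e2.trans_lt ?_
      by_contra hle
      rw [not_lt] at hle
      exact c₂ (by rw [hS₂, mem_filter]; exact ⟨hn, hle⟩)
    have hYm : ((Yp ⌊Real.log (Real.log n) ^ k⌋₊ (n - 1) : ℕ) : ℝ) < (n : ℝ) ^ ε₂ := by
      by_contra hle
      rw [not_lt] at hle
      exact c₄ (by rw [hS₄, mem_filter]; exact ⟨hn, hle⟩)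
    intro m hm hmn
    constructor
    · by_contra hlt
      rw [not_le] at hlt
      have hfil : m.primeFactors.filter (fun q => ¬ q ≤ ⌊Real.log (Real.log n) ^ k⌋₊) =
          m.primeFactors.filter (fun q : ℕ => Real.log (Real.log n) ^ k < q) := by
        apply Finset.filter_congr
        intro q _
        rw [Nat.le_floor_iff (by positivity), not_le]
      have := comb (N := n * (n - 1)) (m := m) (Y := ⌊Real.log (Real.log n) ^ k⌋₊)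
        (B := (n : ℝ) ^ ε₂ * (n : ℝ) ^ ε₂) (k := k) (Nat.mul_ne_zero hn0 hn10) (by nlinarith)
        (by
          intro q j hq hqj
          refine lt_trans ?_ hBB
          rcases Nat.eq_zero_or_pos j with h | h
          · rw [h, pow_zero, Nat.cast_one]; exact hB
          · rcases (Nat.Coprime.isPrimePow_dvd_mul hcop (hq.isPrimePow.pow h.ne')).mp hqj with h1 | h1
            · exact hppn q j hq h1
            · exact hppm q j hq h1)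
        (by
          rw [Yp_mul _ hn0 hn10]
          push_cast
          exact mul_lt_mul'' hYn hYm (by positivity) (by positivity))
        hm (by rw [hfil]; exact hlt)
      linarith
    · intro htn hlt htT
      rcases le_total ((m : ℝ) ^ 2) n with h | h
      · exact c₆ (by rw [hS₆, mem_filter]; exact ⟨hn, m, htT, htn, hmn, h⟩)
      · have htθ : (m : ℝ) ≤ (n : ℝ) ^ θ := by
          rw [hθ]
          rcases min_choice ((1 + ε) / 2) 1 with h' | h'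
          · rw [h']; exact hlt
          · rw [h', Real.rpow_one]
            exact_mod_cast Nat.le_of_dvd (by omega) htn
        exact c₇ (by rw [hS₇, mem_filter]; exact ⟨hn, m, htT, htn, h, htθ⟩)
  have hfin := Finset.card_le_card hcover
  have u₁ := Finset.card_union_le S₁ S₂
  have u₂ := Finset.card_union_le (S₁ ∪ S₂) S₃
  have u₃ := Finset.card_union_le (S₁ ∪ S₂ ∪ S₃) S₄
  have u₅ := Finset.card_union_le (S₁ ∪ S₂ ∪ S₃ ∪ S₄) S₆
  have u₆ := Finset.card_union_le (S₁ ∪ S₂ ∪ S₃ ∪ S₄ ∪ S₆) S₇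
  have hsum : #S ≤ #S₁ + #S₂ + #S₃ + #S₄ + #S₆ + #S₇ := by omega
  have hsum' : (#S : ℝ) ≤ #S₁ + #S₂ + #S₃ + #S₄ + #S₆ + #S₇ := by exact_mod_cast hsum
  have g₈ := h₈ x (by omega)
  linarith

end Pool.Agent.Helper6.SD
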